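import Pool.Agent.H36.MA.Fixed3

set_option autoImplicit false

open Metric Set Filter Topology Real MeasureTheory AddCircle
open scoped NNReal ENNReal

noncomputable section

namespace Pool.Agent.H36.MA

/-- `L²`-Lipschitz continuity under rotations. -/
def LL (F : C(TT, ℂ)) : Prop :=
  ∃ M : ℝ, 0 ≤ M ∧ ∀ τ : ℝ,
    ∫ x, ‖F (x + (τ : TT)) - F x‖ ^ 2 ∂haarAddCircle ≤ M ^ 2 * τ ^ 2

lemma LL.summable {F : C(TT, ℂ)} (hF : LL F) : Summable (fourierCoeff F) := by
  obtain ⟨M, hM, hF⟩ := hF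
  have h1 : WB M (fun k : ℕ => fourierCoeff F ((k : ℤ) + 1)) := by
    intro N
    have h2 := sum_sq_of_lip F hF ((Finset.range N).image (fun k : ℕ => (k : ℤ) + 1))
    rw [Finset.sum_image] at h2
    · refine le_trans (le_of_eq ?_) h2
      apply Finset.sum_congr rfl
      intro k _
      simp
    · intro a _ b _ hab
      have : (a : ℤ) + 1 = (b : ℤ) + 1 := hab
      omega
  have h3 : WB M (fun k : ℕ => fourierCoeff F (-((k : ℤ) + 1))) := by
    intro N
    have h2 := sum_sq_of_lip F hF ((Finset.range N).image (fun k : ℕ => -((k : ℤ) + 1)))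
    rw [Finset.sum_image] at h2
    · refine le_trans (le_of_eq ?_) h2
      apply Finset.sum_congr rfl
      intro k _
      congr 1
      push_cast
      ring
    · intro a _ b _ hab
      have : -((a : ℤ) + 1) = -((b : ℤ) + 1) := hab
      omega
  apply Summable.of_norm
  apply Summable.of_nat_of_neg_add_one
  · rw [← summable_nat_add_iff 1]
    exact_mod_cast h1.summable hM
  · exact h3.summable hM

/-- If the negative Fourier coefficients vanish, the function is the boundary value of a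
holomorphic function. -/
lemma exists_hol {F : C(TT, ℂ)} (hF : LL F) (h0 : ∀ k : ℕ, fourierCoeff F (-((k : ℤ) + 1)) = 0) :
    ∃ c : ℕ → ℂ, Summable (fun k => ‖c k‖) ∧ ∀ x, F x = hol c (zt x) := by
  have hs := hF.summable
  have hs1 : Summable (fun k : ℕ => ‖fourierCoeff F (k : ℤ)‖) :=
    hs.norm.comp_injective Nat.cast_injective
  refine ⟨fun k => fourierCoeff F (k : ℤ), hs1, fun x => ?_⟩
  have h1 := has_pointwise_sum_fourier_series_of_summable hs x
  have h2 := h1.nat_add_neg_add_one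
  have h3 : HasSum (fun k : ℕ => fourierCoeff F (k : ℤ) * (zt x) ^ k) (F x) := by
    convert h2 using 2 with k
    rw [h0 k]
    simp only [smul_eq_mul, zero_mul, add_zero]
    rw [fourier_nat]
  exact h3.tsum_eq.symm

lemma exists_hol_re {F : C(TT, ℂ)} (hF : LL F) :
    ∃ c : ℕ → ℂ, Summable (fun k => ‖c k‖) ∧ ∀ x, (F x).re = (hol c (zt x)).re := by
  have hs := hF.summable
  have hs1 : Summable (fun k : ℕ => ‖fourierCoeff F (k : ℤ)‖) :=
    hs.norm.comp_injective Nat.cast_injective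
  have hs2 : Summable (fun k : ℕ => ‖fourierCoeff F (-((k : ℤ) + 1))‖) := by
    apply hs.norm.comp_injective (i := fun k : ℕ => -((k : ℤ) + 1))
    intro a b hab
    have : -((a : ℤ) + 1) = -((b : ℤ) + 1) := hab
    omega
  set P : ℕ → ℂ := fun k => fourierCoeff F (k : ℤ) with hP
  set N : ℕ → ℂ := cons 0 (fun k => (starRingEnd ℂ) (fourierCoeff F (-((k : ℤ) + 1)))) with hN
  have hNs : Summable (fun k => ‖N k‖) := by
    apply cons_summable
    simpa using hs2
  have hPNs : Summable (fun k => ‖P k + N k‖) :=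
    Summable.of_nonneg_of_le (fun _ => norm_nonneg _) (fun k => norm_add_le _ _) (hs1.add hNs)
  refine ⟨fun k => P k + N k, hPNs, fun x => ?_⟩
  have h1 := has_pointwise_sum_fourier_series_of_summable hs x
  have h2 := h1.nat_add_neg_add_one
  have hp := (hol_summable hs1 (zt_norm x).le)
  have hn := (hol_summable hNs (zt_norm x).le)
  have h3 : hol (fun k => P k + N k) (zt x) = hol P (zt x) + hol N (zt x) := by
    unfold hol
    rw [← hp.tsum_add hn]
    congr 1
    ext k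
    ring
  rw [h3, Complex.add_re]
  have hn' : HasSum (fun k : ℕ => N (k + 1) * (zt x) ^ (k + 1)) (hol N (zt x)) := by
    have h4 := hn.hasSum
    rw [← hasSum_nat_add_iff' 1] at h4
    have e0 : ∑ i ∈ Finset.range 1, N i * zt x ^ i = 0 := by simp [hN]
    rw [e0, sub_zero] at h4
    exact h4
  have h5 : HasSum (fun k : ℕ => (P k * (zt x) ^ k).re) (hol P (zt x)).re :=
    Complex.hasSum_re hp.hasSum
  have h6 := Complex.hasSum_re hn'
  have h7 := Complex.hasSum_re h2
  refine h7.unique ?_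
  convert h5.add h6 using 2 with k
  rw [Complex.add_re]
  congr 1
  · rw [smul_eq_mul, fourier_nat]
  · rw [smul_eq_mul, hN, cons_succ]
    have e1 : (fourier (-((k : ℤ) + 1)) x : ℂ) = (starRingEnd ℂ) ((zt x) ^ (k + 1)) := by
      have := fourier_neg_nat (k + 1) x
      exact_mod_cast this
    rw [e1]
    simp only [Complex.mul_re, Complex.conj_re, Complex.conj_im]
    ring

/-- Fourier coefficients of the complex conjugate. -/
lemma coeff_conj (F : TT → ℂ) (n : ℤ) :
    fourierCoeff (fun x => (starRingEnd ℂ) (F x)) n = (starRingEnd ℂ) (fourierCoeff F (-n)) := by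
  unfold fourierCoeff
  rw [← integral_conj]
  apply integral_congr_ae
  apply Filter.Eventually.of_forall
  intro x
  simp only [smul_eq_mul, map_mul, neg_neg]
  congr 1
  rw [fourier_neg]

lemma LL_of_bound {G F1 F2 : C(TT, ℂ)} (h1 : LL F1) (h2 : LL F2) {C : ℝ} (hC : 0 ≤ C)
    (hG : ∀ (τ : ℝ) (x : TT), ‖G (x + (τ : TT)) - G x‖ ≤
      C * (|τ| + ‖F1 (x + (τ : TT)) - F1 x‖ + ‖F2 (x + (τ : TT)) - F2 x‖)) : LL G := by
  obtain ⟨M1, hM1, h1⟩ := h1
  obtain ⟨M2, hM2, h2⟩ := h2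
  refine ⟨2 * C * (1 + M1 + M2), by positivity, fun τ => ?_⟩
  have hp : ∀ x : TT, ‖G (x + (τ : TT)) - G x‖ ^ 2 ≤
      3 * C ^ 2 * (τ ^ 2 + ‖F1 (x + (τ : TT)) - F1 x‖ ^ 2 + ‖F2 (x + (τ : TT)) - F2 x‖ ^ 2) := by
    intro x
    set p := ‖F1 (x + (τ : TT)) - F1 x‖
    set q := ‖F2 (x + (τ : TT)) - F2 x‖
    have h3 := pow_le_pow_left₀ (norm_nonneg _) (hG τ x) 2
    refine h3.trans ?_
    have h4 : (|τ| + p + q) ^ 2 ≤ 3 * (τ ^ 2 + p ^ 2 + q ^ 2) := by
      rw [← sq_abs τ]
      nlinarith [sq_nonneg (|τ| - p), sq_nonneg (p - q), sq_nonneg (|τ| - q)]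
    calc (C * (|τ| + p + q)) ^ 2 = C ^ 2 * (|τ| + p + q) ^ 2 := by ring
      _ ≤ C ^ 2 * (3 * (τ ^ 2 + p ^ 2 + q ^ 2)) := by gcongr
      _ = _ := by ring
  have hc1 : Continuous fun x : TT => ‖G (x + (τ : TT)) - G x‖ ^ 2 := by fun_prop
  have hc2 : Continuous fun x : TT => ‖F1 (x + (τ : TT)) - F1 x‖ ^ 2 := by fun_prop
  have hc3 : Continuous fun x : TT => ‖F2 (x + (τ : TT)) - F2 x‖ ^ 2 := by fun_prop
  have hc4 : Continuous fun x : TT => 3 * C ^ 2 * (τ ^ 2 + ‖F1 (x + (τ : TT)) - F1 x‖ ^ 2 +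
    ‖F2 (x + (τ : TT)) - F2 x‖ ^ 2) := by fun_prop
  refine (integral_mono (integrable_of_cont hc1) (integrable_of_cont hc4) hp).trans ?_
  rw [integral_const_mul, integral_add _ (integrable_of_cont hc3),
    integral_add (integrable_const _) (integrable_of_cont hc2)]
  · simp only [integral_const, probReal_univ, smul_eq_mul, one_mul]
    have h5 := h1 τ
    have h6 := h2 τ
    calc 3 * C ^ 2 * (τ ^ 2 + ∫ x, ‖F1 (x + (τ : TT)) - F1 x‖ ^ 2 ∂haarAddCircle +
        ∫ x, ‖F2 (x + (τ : TT)) - F2 x‖ ^ 2 ∂haarAddCircle) ≤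
        3 * C ^ 2 * (τ ^ 2 + M1 ^ 2 * τ ^ 2 + M2 ^ 2 * τ ^ 2) := by gcongr
      _ = C ^ 2 * τ ^ 2 * (3 * (1 + M1 ^ 2 + M2 ^ 2)) := by ring
      _ ≤ C ^ 2 * τ ^ 2 * (4 * (1 + M1 + M2) ^ 2) := by
          apply mul_le_mul_of_nonneg_left _ (by positivity)
          nlinarith [mul_nonneg hM1 hM2]
      _ = _ := by ring
  · exact (integrable_const _).add (integrable_of_cont hc2)

end Pool.Agent.H36.MA
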