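import Mathlib

set_option autoImplicit false

open Metric Set Filter Topology Real

namespace Pool.Agent.H36.MA

/-- Weak sub-mean value property at a point, up to `o(r²)`. -/
def SubMean (y : ℂ → ℝ) (z : ℂ) : Prop :=
  ∀ τ > 0, ∀ᶠ r in 𝓝[>] (0 : ℝ), y z ≤ circleAverage y z r + τ * r ^ 2

lemma circleMap_sub_self (c : ℂ) (r θ : ℝ) : ‖circleMap c r θ - c‖ = |r| := by
  simp [circleMap]

/-- The real part of a holomorphic function has the mean value property. -/
lemma circleAverage_re {F : ℂ → ℂ} {c : ℂ} {R : ℝ}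
    (hF : DifferentiableOn ℂ F (closedBall c |R|)) :
    circleAverage (fun z => (F z).re) c R = (F c).re := by
  have h1 : DiffContOnCl ℂ F (ball c |R|) :=
    DifferentiableOn.diffContOnCl (hF.mono closure_ball_subset_closedBall)
  have h2 := h1.circleAverage
  have h3 : CircleIntegrable F c R := by
    apply ContinuousOn.circleIntegrable'
    exact hF.continuousOn.mono sphere_subset_closedBall
  have h4 := ContinuousLinearMap.circleAverage_comp_comm Complex.reCLM h3
  have h5 : (Complex.reCLM : ℂ → ℝ) ∘ F = fun z => (F z).re := rfl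
  rw [h5, h2] at h4
  exact h4

lemma circleAverage_normSq (c : ℂ) (r : ℝ) :
    circleAverage (fun z => ‖z‖ ^ 2) c r = ‖c‖ ^ 2 + r ^ 2 := by
  have h1 : circleAverage (fun z => ‖z‖ ^ 2) c r =
      circleAverage (fun z => (‖c‖ ^ 2 + r ^ 2) + (2 * (starRingEnd ℂ c) * (z - c)).re) c r := by
    apply circleAverage_congr_sphere
    intro z hz
    have hz' : ‖z - c‖ ^ 2 = r ^ 2 := by
      rw [mem_sphere_iff_norm] at hz
      rw [hz, sq_abs]
    have e : z = c + (z - c) := by ring
    have e2 : ‖z‖ ^ 2 = ‖c‖ ^ 2 + ‖z - c‖ ^ 2 + (2 * (starRingEnd ℂ c) * (z - c)).re := by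
      rw [← Complex.normSq_eq_norm_sq, ← Complex.normSq_eq_norm_sq, ← Complex.normSq_eq_norm_sq,
        Complex.normSq_apply, Complex.normSq_apply, Complex.normSq_apply]
      simp only [Complex.sub_re, Complex.sub_im, Complex.mul_re, Complex.mul_im, Complex.conj_re,
        Complex.conj_im, Complex.re_ofNat, Complex.im_ofNat]
      ring
    simp only [e2, hz']
  rw [h1, circleAverage_fun_add, circleAverage_const, circleAverage_re]
  · simp
  · apply Differentiable.differentiableOn
    fun_prop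
  · exact circleIntegrable_const _ _ _
  · apply ContinuousOn.circleIntegrable'
    fun_prop

lemma circleAverage_le_of_le {f : ℂ → ℝ} {c : ℂ} {R a : ℝ} (hf : CircleIntegrable f c R)
    (h : ∀ z ∈ sphere c |R|, f z ≤ a) : circleAverage f c R ≤ a :=
  circleAverage_mono_on_of_le_circle hf h

/-- Maximum principle for continuous functions with the weak sub-mean value property. -/
lemma max_principle {y : ℂ → ℝ} {c : ℂ} {R : ℝ}
    (hc : ContinuousOn y (closedBall c R))
    (hs : ∀ z ∈ ball c R, SubMean y z) {m : ℝ} (hb : ∀ z ∈ sphere c R, y z ≤ m) :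
    ∀ z ∈ closedBall c R, y z ≤ m := by
  intro z0 hz0
  apply le_of_forall_pos_le_add
  intro ε hε
  -- choose τ
  set K : ℝ := (‖c‖ + R) ^ 2 + 1 with hK
  have hKpos : 0 < K := by positivity
  set τ : ℝ := ε / K with hτ
  have hτpos : 0 < τ := by positivity
  have hyτ : ContinuousOn (fun z => y z + τ * ‖z‖ ^ 2) (closedBall c R) := by
    apply hc.add
    fun_prop
  obtain ⟨zs, hzs, hmax⟩ := (isCompact_closedBall c R).exists_isMaxOn ⟨z0, hz0⟩ hyτ
  have hnorm : ∀ z ∈ closedBall c R, ‖z‖ ^ 2 ≤ K := by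
    intro z hz
    have h1 : ‖z‖ ≤ ‖c‖ + R := by
      have : ‖z - c‖ ≤ R := by simpa [dist_eq_norm] using hz
      calc ‖z‖ = ‖c + (z - c)‖ := by ring_nf
        _ ≤ ‖c‖ + ‖z - c‖ := norm_add_le _ _
        _ ≤ ‖c‖ + R := by linarith
    have h2 : ‖z‖ ^ 2 ≤ (‖c‖ + R) ^ 2 := by
      apply pow_le_pow_left₀ (norm_nonneg _) h1
    linarith
  have key : zs ∈ sphere c R := by
    by_contra hns
    have hzb : zs ∈ ball c R := by
      rw [mem_ball]
      rw [mem_closedBall] at hzs
      rw [mem_sphere] at hns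
      exact lt_of_le_of_ne hzs hns
    have h1 := hs zs hzb (τ / 2) (by positivity)
    have h2 : ∀ᶠ r in 𝓝[>] (0 : ℝ), closedBall zs r ⊆ ball c R := by
      obtain ⟨ρ, hρ, hρs⟩ := Metric.nhds_basis_closedBall.mem_iff.1 (isOpen_ball.mem_nhds hzb)
      have : Iio ρ ∈ 𝓝 (0 : ℝ) := Iio_mem_nhds hρ
      filter_upwards [nhdsWithin_le_nhds this] with r hr
      exact (closedBall_subset_closedBall (le_of_lt hr)).trans hρs
    have h3 : ∀ᶠ r in 𝓝[>] (0 : ℝ), 0 < r := self_mem_nhdsWithin
    obtain ⟨r, h1r, h2r, h3r⟩ := (h1.and (h2.and h3)).exists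
    have hcont : ContinuousOn (fun z => y z + τ * ‖z‖ ^ 2) (sphere zs |r|) := by
      apply hyτ.mono
      rw [abs_of_pos h3r]
      exact sphere_subset_closedBall.trans (h2r.trans ball_subset_closedBall)
    have hcont1 : ContinuousOn y (sphere zs |r|) := by
      apply hc.mono
      rw [abs_of_pos h3r]
      exact sphere_subset_closedBall.trans (h2r.trans ball_subset_closedBall)
    have h4 : circleAverage (fun z => y z + τ * ‖z‖ ^ 2) zs r ≤ y zs + τ * ‖zs‖ ^ 2 := by
      apply circleAverage_le_of_le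
      · exact hcont.circleIntegrable'
      · intro z hz
        rw [abs_of_pos h3r] at hz
        exact hmax ((h2r.trans ball_subset_closedBall) (sphere_subset_closedBall hz))
    have h5 : circleAverage (fun z => y z + τ * ‖z‖ ^ 2) zs r =
        circleAverage y zs r + τ * (‖zs‖ ^ 2 + r ^ 2) := by
      rw [circleAverage_fun_add (hcont1.circleIntegrable') _]
      · congr 1
        have h6 := circleAverage_fun_smul (a := τ) (f := fun z : ℂ => ‖z‖ ^ 2) (c := zs) (R := r)
        simp only [smul_eq_mul] at h6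
        rw [h6, circleAverage_normSq]
      · apply ContinuousOn.circleIntegrable'
        fun_prop
    rw [h5] at h4
    have : 0 < τ * r ^ 2 := by positivity
    nlinarith
  have h6 := hmax hz0
  simp only [Set.mem_ofPred_eq] at h6
  have h7 := hb zs key
  have h8 := hnorm zs (sphere_subset_closedBall key)
  have h9 : τ * ‖zs‖ ^ 2 ≤ ε := by
    calc τ * ‖zs‖ ^ 2 ≤ τ * K := by gcongr
      _ = ε := by rw [hτ]; field_simp
  have h10 : 0 ≤ τ * ‖z0‖ ^ 2 := by positivity
  have h11 : y z0 + τ * ‖z0‖ ^ 2 ≤ y zs + τ * ‖zs‖ ^ 2 := hmax hz0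
  linarith

end Pool.Agent.H36.MA
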