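import Pool.Agent.H36.MA.Leaf2

set_option autoImplicit false

open Metric Set Filter Topology Real MeasureTheory AddCircle InnerProductSpace
open scoped NNReal ENNReal

noncomputable section

namespace Pool.Agent.H36.MA

lemma pow_sub_le {z z' : ℂ} (hz : ‖z‖ ≤ 1 / 2) (hz' : ‖z'‖ ≤ 1 / 2) (k : ℕ) :
    ‖z ^ k - z' ^ k‖ ≤ ‖z - z'‖ := by
  induction k with
  | zero => simp
  | succ k ih =>
    rcases Nat.eq_zero_or_pos k with rfl | hk
    · simp
    · have e : z ^ (k + 1) - z' ^ (k + 1) = z ^ k * (z - z') + (z ^ k - z' ^ k) * z' := by ring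
      rw [e]
      refine (norm_add_le _ _).trans ?_
      rw [norm_mul, norm_mul, norm_pow]
      have h1 : ‖z‖ ^ k ≤ 1 / 2 := by
        calc ‖z‖ ^ k ≤ (1 / 2) ^ k := pow_le_pow_left₀ (norm_nonneg _) hz k
          _ ≤ (1 / 2) ^ 1 := pow_le_pow_of_le_one (by norm_num) (by norm_num) hk
          _ = 1 / 2 := by norm_num
      have h2 := norm_nonneg (z - z')
      have h3 := norm_nonneg (z ^ k - z' ^ k)
      have h4 : ‖z ^ k - z' ^ k‖ * ‖z'‖ ≤ ‖z - z'‖ * (1 / 2) :=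
        mul_le_mul ih hz' (norm_nonneg _) h2
      nlinarith

lemma est1 {t : ℂ} {a : ℕ → ℂ} (ha : WB (1 / 8) a) {z z' : ℂ} (hz : ‖z‖ ≤ 1 / 2)
    (hz' : ‖z'‖ ≤ 1 / 2) : ‖hol (cons t a) z - hol (cons t a) z'‖ ≤ 3 / 16 * ‖z - z'‖ := by
  have hs := ha.summable (by norm_num)
  have hc : Summable fun k => ‖cons t a k‖ := cons_summable hs
  have h1 := hol_summable hc (hz.trans (by norm_num))
  have h2 := hol_summable hc (hz'.trans (by norm_num))
  have e : hol (cons t a) z - hol (cons t a) z' = ∑' k, a k * (z ^ (k + 1) - z' ^ (k + 1)) := by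
    unfold hol
    rw [h1.tsum_eq_zero_add, h2.tsum_eq_zero_add]
    simp only [cons_zero, cons_succ, pow_zero]
    have h3 : Summable fun k => a k * z ^ (k + 1) := by
      have := (summable_nat_add_iff 1).2 h1
      simpa using this
    have h4 : Summable fun k => a k * z' ^ (k + 1) := by
      have := (summable_nat_add_iff 1).2 h2
      simpa using this
    rw [add_sub_add_left_eq_sub, ← h3.tsum_sub h4]
    congr 1
    ext k
    ring
  rw [e]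
  have h5 : ∀ k, ‖a k * (z ^ (k + 1) - z' ^ (k + 1))‖ ≤ ‖a k‖ * ‖z - z'‖ := by
    intro k
    rw [norm_mul]
    gcongr
    exact pow_sub_le hz hz' _
  refine (tsum_of_norm_bounded (hs.hasSum.mul_right ‖z - z'‖) h5).trans ?_
  have h6 := ha.tsum_le (by norm_num)
  have h7 := norm_nonneg (z - z')
  nlinarith

lemma est2 {η : ℝ} (hη : 0 ≤ η) {t t' : ℂ} {a b : ℕ → ℂ} (ha : WB (1 / 8) a) (hb : WB (1 / 8) b)
    (hs : Summable fun k => ‖a k - b k‖ ^ 2)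
    (hab : ∑' k, ‖a k - b k‖ ^ 2 ≤ 2 * η ^ 2 * ‖t - t'‖ ^ 2) {z : ℂ} (hz : ‖z‖ ≤ 1 / 2) :
    ‖(hol (cons t a) z - t) - (hol (cons t' b) z - t')‖ ≤ η * ‖t - t'‖ := by
  have hsa := ha.summable (by norm_num)
  have hsb := hb.summable (by norm_num)
  have h1 := hol_summable (cons_summable (t := t) hsa) (hz.trans (by norm_num))
  have h2 := hol_summable (cons_summable (t := t') hsb) (hz.trans (by norm_num))
  have e : (hol (cons t a) z - t) - (hol (cons t' b) z - t') =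
      ∑' k, (a k - b k) * z ^ (k + 1) := by
    unfold hol
    rw [h1.tsum_eq_zero_add, h2.tsum_eq_zero_add]
    simp only [cons_zero, cons_succ, pow_zero]
    have h3 : Summable fun k => a k * z ^ (k + 1) := by
      have := (summable_nat_add_iff 1).2 h1
      simpa using this
    have h4 : Summable fun k => b k * z ^ (k + 1) := by
      have := (summable_nat_add_iff 1).2 h2
      simpa using this
    have h5 : ∑' k, (a k - b k) * z ^ (k + 1) =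
        ∑' k, a k * z ^ (k + 1) - ∑' k, b k * z ^ (k + 1) := by
      rw [← h3.tsum_sub h4]
      congr 1
      ext k
      ring
    rw [h5]
    ring
  rw [e]
  have hgeo : ∀ N, ∑ k ∈ Finset.range N, ((1 / 2 : ℝ) ^ (k + 1)) ^ 2 ≤ 1 / 2 := by
    intro N
    have h6 : ∑ k ∈ Finset.range N, ((1 / 2 : ℝ) ^ (k + 1)) ^ 2 =
        1 / 3 * (1 - (1 / 4) ^ N) := by
      induction N with
      | zero => simp
      | succ N ih =>
        rw [Finset.sum_range_succ, ih]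
        have : ((1 / 2 : ℝ) ^ (N + 1)) ^ 2 = (1 / 4) ^ (N + 1) := by
          rw [← pow_mul, mul_comm, pow_mul]
          norm_num
        rw [this, pow_succ]
        ring
    rw [h6]
    have : (0 : ℝ) ≤ (1 / 4) ^ N := by positivity
    linarith
  have hpart : ∀ N, ∑ k ∈ Finset.range N, ‖(a k - b k) * z ^ (k + 1)‖ ≤ η * ‖t - t'‖ := by
    intro N
    have h6 : ∑ k ∈ Finset.range N, ‖(a k - b k) * z ^ (k + 1)‖ ≤
        ∑ k ∈ Finset.range N, ‖a k - b k‖ * (1 / 2) ^ (k + 1) := by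
      apply Finset.sum_le_sum
      intro k _
      rw [norm_mul, norm_pow]
      gcongr
    refine h6.trans ?_
    have h7 : (∑ k ∈ Finset.range N, ‖a k - b k‖ * (1 / 2 : ℝ) ^ (k + 1)) ^ 2 ≤
        (η * ‖t - t'‖) ^ 2 := by
      refine (Finset.sum_mul_sq_le_sq_mul_sq _ _ _).trans ?_
      have h8 : ∑ k ∈ Finset.range N, ‖a k - b k‖ ^ 2 ≤ 2 * η ^ 2 * ‖t - t'‖ ^ 2 :=
        (hs.sum_le_tsum _ (fun _ _ => by positivity)).trans hab
      have h9 := hgeo N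
      have h10 : 0 ≤ ∑ k ∈ Finset.range N, ((1 / 2 : ℝ) ^ (k + 1)) ^ 2 :=
        Finset.sum_nonneg (fun _ _ => by positivity)
      calc (∑ k ∈ Finset.range N, ‖a k - b k‖ ^ 2) *
          ∑ k ∈ Finset.range N, ((1 / 2 : ℝ) ^ (k + 1)) ^ 2 ≤
          (2 * η ^ 2 * ‖t - t'‖ ^ 2) * (1 / 2) := by gcongr
        _ = (η * ‖t - t'‖) ^ 2 := by ring
    exact (pow_le_pow_iff_left₀ (Finset.sum_nonneg (fun _ _ => by positivity)) (by positivity)
      two_ne_zero).1 h7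
  have hsum : Summable fun k => ‖(a k - b k) * z ^ (k + 1)‖ :=
    summable_of_sum_range_le (fun _ => norm_nonneg _) hpart
  refine (norm_tsum_le_tsum_norm hsum).trans ?_
  exact Real.tsum_le_of_sum_range_le (fun _ => norm_nonneg _) hpart

namespace LocalData

variable {Ω : Set (ℂ × ℂ)} {Φ : ℂ × ℂ → ℝ} {ε' : ℂ × ℂ → (ℂ × ℂ →L[ℝ] ℝ)} {η : ℝ}

/-- Strict fibrewise midpoint convexity. -/
lemma midpoint (D : LocalData Ω Φ ε' η) {κ : ℂ × ℂ → ℂ}
    (hκ : ∀ x ∈ BB, κ x = -(1 / 2) * ((ε' x (0, 1) : ℂ) + (ε' x (0, Complex.I) : ℂ) * Complex.I))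
    {z w1 w2 : ℂ} (hz : ‖z‖ ≤ 1) (hw1 : ‖w1‖ ≤ 1) (hw2 : ‖w2‖ ≤ 1) :
    Φ (z, (w1 + w2) / 2) ≤ 1 / 2 * Φ (z, w1) + 1 / 2 * Φ (z, w2) - 1 / 8 * ‖w1 - w2‖ ^ 2 := by
  set m := (w1 + w2) / 2 with hm
  have hmn : ‖m‖ ≤ 1 := by
    rw [hm, norm_div]
    have : ‖(2 : ℂ)‖ = 2 := by simp
    rw [this]
    have := norm_add_le w1 w2
    linarith
  have h1 := (abs_le.1 (D.fibre hκ hz hmn hw1)).1
  have h2 := (abs_le.1 (D.fibre hκ hz hmn hw2)).1
  have e1 : w1 - m = (w1 - w2) / 2 := by rw [hm]; ring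
  have e2 : w2 - m = -((w1 - w2) / 2) := by rw [hm]; ring
  have n1 : ‖w1 - m‖ ^ 2 = ‖w1 - w2‖ ^ 2 / 4 := by
    rw [e1, norm_div]; simp; ring
  have n2 : ‖w2 - m‖ ^ 2 = ‖w1 - w2‖ ^ 2 / 4 := by
    rw [e2, norm_neg, norm_div]; simp; ring
  have e3 : ((starRingEnd ℂ) (m - κ (z, m)) * (w2 - m)).re =
      -((starRingEnd ℂ) (m - κ (z, m)) * (w1 - m)).re := by
    rw [e2, e1, mul_neg, Complex.neg_re]
  rw [n1] at h1
  rw [n2, e3] at h2
  have hη := D.η1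
  have hn : 0 ≤ ‖w1 - w2‖ ^ 2 := by positivity
  nlinarith

/-- Local uniqueness of leaves. -/
lemma unique_local (D : LocalData Ω Φ ε' η) {κ : ℂ × ℂ → ℂ}
    (hκ : ∀ x ∈ BB, κ x = -(1 / 2) * ((ε' x (0, 1) : ℂ) + (ε' x (0, Complex.I) : ℂ) * Complex.I))
    {c : ℂ} {r : ℝ} {f1 f2 g : ℂ → ℂ} (hf1 : DifferentiableOn ℂ f1 (ball c r))
    (hf2 : DifferentiableOn ℂ f2 (ball c r)) (hg : DifferentiableOn ℂ g (ball c r))
    (hB1 : ∀ ζ ∈ ball c r, ((f1 ζ, f2 ζ) : ℂ × ℂ) ∈ ball (0 : ℂ × ℂ) 1)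
    (hB2 : ∀ ζ ∈ ball c r, ((f1 ζ, g ζ) : ℂ × ℂ) ∈ ball (0 : ℂ × ℂ) 1)
    (H1 : HarmonicOnNhd (fun ζ => Φ (f1 ζ, f2 ζ)) (ball c r))
    (H2 : HarmonicOnNhd (fun ζ => Φ (f1 ζ, g ζ)) (ball c r)) {ζ0 : ℂ} (hζ0 : ζ0 ∈ ball c r)
    (heq : f2 ζ0 = g ζ0) : ∀ᶠ ζ in 𝓝 ζ0, f2 ζ = g ζ := by
  have hsplit : ∀ {p : ℂ × ℂ}, p ∈ ball (0 : ℂ × ℂ) 1 → ‖p.1‖ < 1 ∧ ‖p.2‖ < 1 := by
    intro p hp
    rw [mem_ball, dist_zero_right, Prod.norm_def, max_lt_iff] at hp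
    exact hp
  set e : ℂ → ℂ := fun ζ => f2 ζ - g ζ with he
  have hea : AnalyticAt ℂ e ζ0 := (hf2.sub hg).analyticAt (isOpen_ball.mem_nhds hζ0)
  rcases hea.eventually_eq_zero_or_eventually_ne_zero with h0 | h0
  · filter_upwards [h0] with ζ hζ
    exact sub_eq_zero.1 hζ
  exfalso
  rw [eventually_nhdsWithin_iff] at h0
  obtain ⟨s, hs, hsub⟩ := Metric.nhds_basis_closedBall.mem_iff.1
    (h0.and (isOpen_ball.mem_nhds hζ0))
  have hin : ∀ ζ ∈ closedBall ζ0 s, ζ ∈ ball c r := fun ζ hζ => (hsub hζ).2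
  have hne : ∀ ζ ∈ sphere ζ0 s, e ζ ≠ 0 := by
    intro ζ hζ
    apply (hsub (sphere_subset_closedBall hζ)).1
    intro hh
    rw [mem_singleton_iff] at hh
    rw [hh, mem_sphere, dist_self] at hζ
    linarith
  have hec : ContinuousOn e (ball c r) := (hf2.sub hg).continuousOn
  -- minimum of ‖e‖ on the sphere
  obtain ⟨ζm, hζm, hmin⟩ := (isCompact_sphere ζ0 s).exists_isMinOn
    (NormedSpace.sphere_nonempty.2 hs.le)
    ((hec.mono (fun ζ hζ => hin ζ (sphere_subset_closedBall hζ))).norm)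
  set δ := ‖e ζm‖ with hδ
  have hδpos : 0 < δ := norm_pos_iff.2 (hne ζm hζm)
  set m : ℂ → ℂ := fun ζ => (f2 ζ + g ζ) / 2 with hm
  have hmd : DifferentiableOn ℂ m (ball c r) := (hf2.add hg).div_const 2
  have hBm : ∀ ζ ∈ ball c r, ((f1 ζ, m ζ) : ℂ × ℂ) ∈ ball (0 : ℂ × ℂ) 1 := by
    intro ζ hζ
    have h1 := hsplit (hB1 ζ hζ)
    have h2 := hsplit (hB2 ζ hζ)
    rw [mem_ball, dist_zero_right, Prod.norm_mk]
    apply max_lt h1.1
    simp only [hm]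
    rw [norm_div]
    have h3 : ‖(2 : ℂ)‖ = 2 := by simp
    rw [h3]
    have h4 := norm_add_le (f2 ζ) (g ζ)
    have h5 := h1.2
    have h6 := h2.2
    simp only at h5 h6
    linarith
  set Y : ℂ → ℝ := fun ζ => Φ (f1 ζ, m ζ) - (1 / 2 * Φ (f1 ζ, f2 ζ) + 1 / 2 * Φ (f1 ζ, g ζ)) with hY
  have hpc : ∀ k : ℂ → ℂ, DifferentiableOn ℂ k (ball c r) →
      (∀ ζ ∈ ball c r, ((f1 ζ, k ζ) : ℂ × ℂ) ∈ ball (0 : ℂ × ℂ) 1) →
      ContinuousOn (fun ζ => Φ (f1 ζ, k ζ)) (ball c r) := by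
    intro k hk hkB
    apply (D.cont.mono D.sub).comp (hf1.continuousOn.prodMk hk.continuousOn)
    intro ζ hζ
    exact ball_subset_closedBall (hkB ζ hζ)
  have hYc : ContinuousOn Y (ball c r) :=
    (hpc m hmd hBm).sub ((continuousOn_const.mul (hpc f2 hf2 hB1)).add
      (continuousOn_const.mul (hpc g hg hB2)))
  have hmp : ∀ ζ ∈ closedBall ζ0 s, Y ζ ≤ -(1 / 8) * δ ^ 2 := by
    apply max_principle (hYc.mono hin)
    · intro ζ1 hζ1
      have hζ1' : ζ1 ∈ ball c r := hin ζ1 (ball_subset_closedBall hζ1)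
      obtain ⟨ρ, hρ, hρs⟩ := Metric.isOpen_iff.1 isOpen_ball ζ1 hζ1'
      have hp0 := hBm ζ1 hζ1'
      obtain ⟨L0, hL0⟩ := D.expand (p0 := (f1 ζ1, m ζ1)) (ball_subset_closedBall hp0)
      have hsm := subMean_curve hρ (hf1.mono hρs) (hmd.mono hρs)
        (D.maxl.1.2 (f1 ζ1, m ζ1) (D.sub (ball_subset_closedBall hp0)) (deriv f1 ζ1, deriv m ζ1))
        (V := BB) (mem_of_superset (isOpen_ball.mem_nhds hp0) ball_subset_closedBall)
        (D.cont.mono D.sub) L0 (C := 4) (by norm_num) hL0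
      intro τ hτ
      have h0 : ∀ᶠ r' in 𝓝[>] (0 : ℝ), 0 < r' := self_mem_nhdsWithin
      have h1 : ∀ᶠ r' in 𝓝[>] (0 : ℝ), r' < ρ := nhdsWithin_le_nhds (Iio_mem_nhds hρ)
      filter_upwards [hsm τ hτ, h0, h1] with r' hr hr0 hr1
      have hcb : closedBall ζ1 |r'| ⊆ ball c r := by
        rw [abs_of_pos hr0]
        exact (closedBall_subset_ball hr1).trans hρs
      have a1 : circleAverage (fun ζ => Φ (f1 ζ, f2 ζ)) ζ1 r' = Φ (f1 ζ1, f2 ζ1) :=
        InnerProductSpace.HarmonicOnNhd.circleAverage_eq (H1.mono hcb)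
      have a2 : circleAverage (fun ζ => Φ (f1 ζ, g ζ)) ζ1 r' = Φ (f1 ζ1, g ζ1) :=
        InnerProductSpace.HarmonicOnNhd.circleAverage_eq (H2.mono hcb)
      have hsc : sphere ζ1 |r'| ⊆ ball c r := sphere_subset_closedBall.trans hcb
      have i0 : CircleIntegrable (fun ζ => Φ (f1 ζ, m ζ)) ζ1 r' :=
        ((hpc m hmd hBm).mono hsc).circleIntegrable'
      have i1 : CircleIntegrable (fun ζ => Φ (f1 ζ, f2 ζ)) ζ1 r' :=
        ((hpc f2 hf2 hB1).mono hsc).circleIntegrable'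
      have i2 : CircleIntegrable (fun ζ => Φ (f1 ζ, g ζ)) ζ1 r' :=
        ((hpc g hg hB2).mono hsc).circleIntegrable'
      have i3 : CircleIntegrable (fun ζ => 1 / 2 * Φ (f1 ζ, f2 ζ)) ζ1 r' :=
        ((continuousOn_const.mul (hpc f2 hf2 hB1)).mono hsc).circleIntegrable'
      have i4 : CircleIntegrable (fun ζ => 1 / 2 * Φ (f1 ζ, g ζ)) ζ1 r' :=
        ((continuousOn_const.mul (hpc g hg hB2)).mono hsc).circleIntegrable'
      have b1 := circleAverage_fun_smul (a := (1 / 2 : ℝ)) (f := fun ζ => Φ (f1 ζ, f2 ζ))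
        (c := ζ1) (R := r')
      have b2 := circleAverage_fun_smul (a := (1 / 2 : ℝ)) (f := fun ζ => Φ (f1 ζ, g ζ))
        (c := ζ1) (R := r')
      simp only [smul_eq_mul] at b1 b2
      have e1 : circleAverage Y ζ1 r' = circleAverage (fun ζ => Φ (f1 ζ, m ζ)) ζ1 r' -
          (1 / 2 * Φ (f1 ζ1, f2 ζ1) + 1 / 2 * Φ (f1 ζ1, g ζ1)) := by
        have i5 : CircleIntegrable (fun ζ => 1 / 2 * Φ (f1 ζ, f2 ζ) + 1 / 2 * Φ (f1 ζ, g ζ))
          ζ1 r' := i3.add i4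
        simp only [hY]
        rw [circleAverage_fun_sub i0 i5, circleAverage_fun_add i3 i4, b1, b2, a1, a2]
      rw [e1]
      simp only [hY]
      linarith
    · intro ζ hζ
      have hζ' := hin ζ (sphere_subset_closedBall hζ)
      have h1 := hsplit (hB1 ζ hζ')
      have h2 := hsplit (hB2 ζ hζ')
      have h3 := D.midpoint hκ h1.1.le h1.2.le h2.2.le
      simp only at h3
      have h4 : δ ≤ ‖e ζ‖ := hmin hζ
      have h5 : δ ^ 2 ≤ ‖f2 ζ - g ζ‖ ^ 2 := pow_le_pow_left₀ hδpos.le h4 2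
      simp only [hY, hm]
      linarith
  have h1 := hmp ζ0 (mem_closedBall_self hs.le)
  have h2 : Y ζ0 = 0 := by
    simp only [hY, hm]
    rw [heq]
    have : (g ζ0 + g ζ0) / 2 = g ζ0 := by ring
    rw [this]
    ring
  rw [h2] at h1
  have : 0 < 1 / 8 * δ ^ 2 := by positivity
  linarith

end LocalData

end Pool.Agent.H36.MA
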