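import Pool.Agent.H36.MA.Chart

set_option autoImplicit false

open Metric Set Filter Topology Real MeasureTheory AddCircle InnerProductSpace
open scoped NNReal ENNReal

noncomputable section

namespace Pool.Agent.H36.MA

lemma harmonic_of_re {Y : ℂ → ℝ} {G : ℂ → ℂ} {s : Set ℂ} (hs : IsOpen s)
    (hG : DifferentiableOn ℂ G s) (hY : ∀ z ∈ s, Y z = (G z).re) : HarmonicOnNhd Y s := by
  intro z hz
  have h1 : AnalyticAt ℂ G z := hG.analyticAt (hs.mem_nhds hz)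
  have h2 := h1.harmonicAt_re
  rw [harmonicAt_congr_nhds (f₂ := fun z => (G z).re)]
  · exact h2
  · filter_upwards [hs.mem_nhds hz] with w hw
    exact hY w hw

namespace LocalData

variable {Ω : Set (ℂ × ℂ)} {Φ : ℂ × ℂ → ℝ} {ε' : ℂ × ℂ → (ℂ × ℂ →L[ℝ] ℝ)} {η : ℝ}

/-- The foliation chart in the normalised situation. -/
theorem local_chart (D : LocalData Ω Φ ε' η) :
    ∃ Ψ : OpenPartialHomeomorph (ℂ × ℂ) (ℂ × ℂ),
      Ψ.source = ball (0 : ℂ) (1 / 2) ×ˢ ball (0 : ℂ) (1 / 4) ∧ Ψ (0, 0) = (0, 0) ∧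
      (∀ x ∈ Ψ.source, Ψ x ∈ ball (0 : ℂ × ℂ) 1) ∧
      (∀ x ∈ Ψ.source, (Ψ x).1 = x.1) ∧
      (∀ t ∈ ball (0 : ℂ) (1 / 4), DifferentiableOn ℂ (fun z => Ψ (z, t)) (ball 0 (1 / 2)) ∧
        ∃ G : ℂ → ℂ, DifferentiableOn ℂ G (ball 0 (1 / 2)) ∧
          ∀ z ∈ ball (0 : ℂ) (1 / 2), Φ (Ψ (z, t)) = (G z).re) ∧
      (∀ (c : ℂ) (r : ℝ) (f : ℂ → ℂ × ℂ), DifferentiableOn ℂ f (ball c r) →
        MapsTo f (ball c r) Ψ.target → HarmonicOnNhd (fun ζ => Φ (f ζ)) (ball c r) →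
        ∀ ζ ∈ ball c r, (Ψ.symm (f ζ)).2 = (Ψ.symm (f c)).2) := by
  classical
  have hη0 := D.η0
  have hη1 := D.η1
  obtain ⟨κ, hκL, hκ⟩ := D.exists_kappa
  choose a ha hfa using fun t => exists_fixed hη0 (by linarith : η ≤ 1 / 10) hκL t
  set ℒ : ℂ → ℂ → ℂ := fun t => hol (cons t (a t)) with hℒ
  have hcs : ∀ t, Summable fun k => ‖cons t (a t) k‖ := fun t =>
    cons_summable ((ha t).summable (by norm_num))
  have hℒd : ∀ t, DifferentiableOn ℂ (ℒ t) (ball 0 1) := fun t => hol_differentiableOn (hcs t)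
  have hℒn : ∀ t, ‖t‖ ≤ 1 / 4 → ∀ z, ‖z‖ ≤ 1 → ‖ℒ t z‖ ≤ 7 / 16 := fun t ht z hz =>
    leaf_bound ht (ha t) hz
  have hℒ0 : ∀ t, ℒ t 0 = t := fun t => by
    simp only [hℒ]
    rw [hol_zero, cons_zero]
  have hleaf : ∀ t, ‖t‖ ≤ 1 / 4 → ∃ G : ℂ → ℂ, DifferentiableOn ℂ G (ball 0 1) ∧
      ∀ z ∈ ball (0 : ℂ) 1, Φ (z, ℒ t z) = (G z).re := fun t ht =>
    D.leaf hκL hκ ht (ha t) (hfa t)
  set s : Set (ℂ × ℂ) := ball (0 : ℂ) (1 / 2) ×ˢ ball (0 : ℂ) (1 / 4) with hs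
  have hso : IsOpen s := isOpen_ball.prod isOpen_ball
  set Ψ0 : ℂ × ℂ → ℂ × ℂ := fun x => (x.1, ℒ x.2 x.1) with hΨ0
  have happ : ApproximatesLinearOn Ψ0
      ((ContinuousLinearEquiv.refl ℝ (ℂ × ℂ) : (ℂ × ℂ) ≃L[ℝ] (ℂ × ℂ)) : (ℂ × ℂ) →L[ℝ] (ℂ × ℂ)) s
      (1 / 4 : ℝ≥0) := by
    rintro ⟨z, t⟩ hx ⟨z', t'⟩ hy
    have hz : ‖z‖ ≤ 1 / 2 := by
      have : ‖z‖ < 1 / 2 := by simpa using (mem_prod.1 hx).1
      exact this.le
    have hz' : ‖z'‖ ≤ 1 / 2 := by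
      have : ‖z'‖ < 1 / 2 := by simpa using (mem_prod.1 hy).1
      exact this.le
    have h1 := est1 (t := t) (ha t) hz hz'
    obtain ⟨hsum, hdep⟩ := fixed_dep hη0 (by linarith : η ≤ 1 / 10) hκL (ha t) (ha t')
      (hfa t) (hfa t')
    have h2 := est2 hη0 (ha t) (ha t') hsum hdep hz'
    have e1 : Ψ0 (z, t) - Ψ0 (z', t') -
        ((ContinuousLinearEquiv.refl ℝ (ℂ × ℂ) : (ℂ × ℂ) ≃L[ℝ] (ℂ × ℂ)) : (ℂ × ℂ) →L[ℝ] (ℂ × ℂ))
          ((z, t) - (z', t')) =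
        (0, (ℒ t z - ℒ t z') + ((ℒ t z' - t) - (ℒ t' z' - t'))) := by
      simp only [hΨ0, ContinuousLinearEquiv.coe_refl, ContinuousLinearMap.id_apply,
        Prod.mk_sub_mk]
      congr 1 <;> ring
    rw [e1, Prod.norm_mk, norm_zero, max_eq_right (norm_nonneg _), Prod.mk_sub_mk, Prod.norm_mk]
    refine (norm_add_le _ _).trans ?_
    have h3 : ‖z - z'‖ ≤ max ‖z - z'‖ ‖t - t'‖ := le_max_left _ _
    have h4 : ‖t - t'‖ ≤ max ‖z - z'‖ ‖t - t'‖ := le_max_right _ _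
    have h5 : ((1 / 4 : ℝ≥0) : ℝ) = 1 / 4 := by norm_num
    rw [h5]
    have h6 : ‖ℒ t z - ℒ t z'‖ ≤ 3 / 16 * ‖z - z'‖ := h1
    have h7 : ‖(ℒ t z' - t) - (ℒ t' z' - t')‖ ≤ η * ‖t - t'‖ := h2
    have h8 : η * ‖t - t'‖ ≤ 1 / 20 * ‖t - t'‖ := by gcongr
    have h9 := norm_nonneg (t - t')
    have h10 := norm_nonneg (z - z')
    linarith
  have hc4 : Subsingleton (ℂ × ℂ) ∨ (1 / 4 : ℝ≥0) <
      ‖(((ContinuousLinearEquiv.refl ℝ (ℂ × ℂ)).symm : (ℂ × ℂ) ≃L[ℝ] (ℂ × ℂ)) :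
        (ℂ × ℂ) →L[ℝ] (ℂ × ℂ))‖₊⁻¹ := by
    right
    rw [ContinuousLinearEquiv.refl_symm, ContinuousLinearEquiv.coe_refl]
    have : ‖ContinuousLinearMap.id ℝ (ℂ × ℂ)‖₊ = 1 := by
      have h := ContinuousLinearMap.norm_id (𝕜 := ℝ) (E := ℂ × ℂ)
      apply NNReal.eq
      rw [coe_nnnorm]
      exact h
    rw [this]
    norm_num
  set Ψ := happ.toOpenPartialHomeomorph Ψ0 s hc4 hso with hΨ
  have hsrc : Ψ.source = s := rfl
  have hcoe : ∀ x, Ψ x = Ψ0 x := fun x => rfl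
  have hmem : ∀ {z t : ℂ}, (z, t) ∈ s ↔ ‖z‖ < 1 / 2 ∧ ‖t‖ < 1 / 4 := by
    intro z t
    simp [hs]
  refine ⟨Ψ, rfl, ?_, ?_, ?_, ?_, ?_⟩
  · rw [hcoe]
    simp only [hΨ0, hℒ0]
  · rintro ⟨z, t⟩ hx
    rw [hsrc, hmem] at hx
    rw [hcoe, mem_ball, dist_zero_right]
    simp only [hΨ0]
    rw [Prod.norm_mk]
    apply max_lt
    · linarith [hx.1]
    · exact (hℒn t hx.2.le z (by linarith [hx.1])).trans_lt (by norm_num)
  · intro x _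
    rw [hcoe]
  · intro t ht
    have htn : ‖t‖ ≤ 1 / 4 := by
      have : ‖t‖ < 1 / 4 := by simpa using ht
      exact this.le
    have hbs : ball (0 : ℂ) (1 / 2) ⊆ ball 0 1 := ball_subset_ball (by norm_num)
    constructor
    · exact DifferentiableOn.prodMk differentiableOn_id ((hℒd t).mono hbs)
    · obtain ⟨G, hG, hGe⟩ := hleaf t htn
      exact ⟨G, hG.mono hbs, fun z hz => hGe z (hbs hz)⟩
  · intro c r f hf hmaps hharm
    -- local constancy of the transversal coordinate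
    set T : ℂ → ℂ := fun ζ => (Ψ.symm (f ζ)).2 with hT
    have hfd1 : DifferentiableOn ℂ (fun ζ => (f ζ).1) (ball c r) := hf.fst
    have hfd2 : DifferentiableOn ℂ (fun ζ => (f ζ).2) (ball c r) := hf.snd
    have hinv : ∀ ζ ∈ ball c r, Ψ0 (Ψ.symm (f ζ)) = f ζ ∧ Ψ.symm (f ζ) ∈ s := by
      intro ζ hζ
      exact ⟨Ψ.right_inv (hmaps hζ), Ψ.map_target (hmaps hζ)⟩
    have hf1 : ∀ ζ ∈ ball c r, ‖(f ζ).1‖ < 1 / 2 := by
      intro ζ hζ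
      obtain ⟨h1, h2⟩ := hinv ζ hζ
      have h3 : (f ζ).1 = (Ψ.symm (f ζ)).1 := (congrArg Prod.fst h1).symm
      rw [h3]
      exact (hmem.1 h2).1
    have hloc : ∀ ζ1 ∈ ball c r, ∀ᶠ ζ in 𝓝 ζ1, T ζ = T ζ1 := by
      intro ζ1 hζ1
      obtain ⟨h1, h2⟩ := hinv ζ1 hζ1
      have hT0 : ‖T ζ1‖ < 1 / 4 := (hmem.1 h2).2
      obtain ⟨G, hG, hGe⟩ := hleaf (T ζ1) hT0.le
      have hmap1 : MapsTo (fun ζ => (f ζ).1) (ball c r) (ball 0 1) := by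
        intro ζ hζ
        have := hf1 ζ hζ
        simp only [mem_ball, dist_zero_right]
        linarith
      have hgd : DifferentiableOn ℂ (fun ζ => ℒ (T ζ1) (f ζ).1) (ball c r) :=
        (hℒd (T ζ1)).comp hfd1 hmap1
      have hB2 : ∀ ζ ∈ ball c r, (((f ζ).1, ℒ (T ζ1) (f ζ).1) : ℂ × ℂ) ∈ ball (0 : ℂ × ℂ) 1 := by
        intro ζ hζ
        rw [mem_ball, dist_zero_right, Prod.norm_mk]
        have h3 := hf1 ζ hζ
        apply max_lt (by linarith)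
        exact (hℒn _ hT0.le _ (by linarith)).trans_lt (by norm_num)
      have hB1 : ∀ ζ ∈ ball c r, (((f ζ).1, (f ζ).2) : ℂ × ℂ) ∈ ball (0 : ℂ × ℂ) 1 := by
        intro ζ hζ
        obtain ⟨h3, h4⟩ := hinv ζ hζ
        have h5 : ‖(Ψ.symm (f ζ)).1‖ < 1 / 2 ∧ ‖(Ψ.symm (f ζ)).2‖ < 1 / 4 := hmem.1 h4
        have h6 : (f ζ).2 = ℒ (Ψ.symm (f ζ)).2 (Ψ.symm (f ζ)).1 := (congrArg Prod.snd h3).symm
        rw [mem_ball, dist_zero_right, Prod.norm_mk]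
        have h7 := hf1 ζ hζ
        apply max_lt (by linarith)
        rw [h6]
        exact (hℒn _ h5.2.le _ (by linarith [h5.1])).trans_lt (by norm_num)
      have H2 : HarmonicOnNhd (fun ζ => Φ ((f ζ).1, ℒ (T ζ1) (f ζ).1)) (ball c r) := by
        apply harmonic_of_re isOpen_ball (hG.comp hfd1 hmap1)
        intro ζ hζ
        exact hGe _ (hmap1 hζ)
      have heq : (f ζ1).2 = ℒ (T ζ1) (f ζ1).1 := by
        have h6 : (f ζ1).2 = ℒ (Ψ.symm (f ζ1)).2 (Ψ.symm (f ζ1)).1 := (congrArg Prod.snd h1).symm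
        have h7 : (f ζ1).1 = (Ψ.symm (f ζ1)).1 := (congrArg Prod.fst h1).symm
        rw [h6, h7]
      have hu := D.unique_local hκ hfd1 hfd2 hgd hB1 hB2 hharm H2 hζ1 heq
      filter_upwards [hu, isOpen_ball.mem_nhds hζ1] with ζ hζe hζb
      have hsrc' : (((f ζ).1, T ζ1) : ℂ × ℂ) ∈ s := hmem.2 ⟨hf1 ζ hζb, hT0⟩
      have h8 : Ψ ((f ζ).1, T ζ1) = f ζ := by
        rw [hcoe]
        simp only [hΨ0]
        exact Prod.ext rfl hζe.symm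
      have h9 := Ψ.left_inv hsrc'
      rw [h8] at h9
      simp only [hT]
      rw [h9]
    intro ζ hζ
    have hc : c ∈ ball c r := mem_ball_self (pos_of_mem_ball hζ)
    have hder : ∀ ζ1 ∈ ball c r, HasDerivAt T 0 ζ1 := by
      intro ζ1 hζ1
      have h1 : HasDerivAt (fun _ : ℂ => T ζ1) 0 ζ1 := hasDerivAt_const _ _
      exact h1.congr_of_eventuallyEq (hloc ζ1 hζ1)
    exact isOpen_ball.is_const_of_deriv_eq_zero (convex_ball c r).isPreconnected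
      (fun x hx => (hder x hx).differentiableAt.differentiableWithinAt)
      (fun x hx => (hder x hx).deriv) hζ hc

end LocalData

end Pool.Agent.H36.MA
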