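import Pool.Agent.H36.MA.Glue

set_option autoImplicit false

open Metric Set Filter Topology Real

namespace Pool.Agent.H36.MA

/-- Plurisubharmonic functions are weakly subharmonic along holomorphic curves. -/
lemma subMean_curve {Φ : ℂ × ℂ → ℝ} {g h : ℂ → ℂ} {z0 : ℂ} {ρ : ℝ} (hρ : 0 < ρ)
    (hg : DifferentiableOn ℂ g (ball z0 ρ)) (hh : DifferentiableOn ℂ h (ball z0 ρ))
    (hsub : SubAt Φ (g z0, h z0) (deriv g z0, deriv h z0)) {V : Set (ℂ × ℂ)}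
    (hV : V ∈ 𝓝 (g z0, h z0))
    (hΦc : ContinuousOn Φ V) (L0 : ℂ × ℂ →L[ℝ] ℝ) {C : ℝ} (hC0 : 0 ≤ C)
    (hC : ∀ x ∈ V, ∀ y ∈ V, |Φ y - Φ x - L0 (y - x)| ≤
      C * (‖x - (g z0, h z0)‖ + ‖y - (g z0, h z0)‖) * ‖y - x‖) :
    SubMean (fun z => Φ (g z, h z)) z0 := by
  intro τ hτ
  set p0 : ℂ × ℂ := (g z0, h z0) with hp0
  set d : ℂ × ℂ := (deriv g z0, deriv h z0) with hd
  have hdiffg : DifferentiableAt ℂ g z0 :=
    hg.differentiableAt (isOpen_ball.mem_nhds (mem_ball_self hρ))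
  have hdiff : DifferentiableAt ℂ h z0 :=
    hh.differentiableAt (isOpen_ball.mem_nhds (mem_ball_self hρ))
  -- the line and the curve
  set ℓ : ℂ → ℂ × ℂ := fun ζ => p0 + ζ • d with hℓ
  set γ : ℂ → ℂ × ℂ := fun ζ => (g (z0 + ζ), h (z0 + ζ)) with hγ
  set R : ℂ → ℂ × ℂ := fun ζ => (g (z0 + ζ) - g z0 - ζ * deriv g z0,
    h (z0 + ζ) - h z0 - ζ * deriv h z0) with hR
  have hγ0 : γ 0 = p0 := by simp [hγ, hp0]
  have hγR : ∀ ζ, γ ζ - ℓ ζ = R ζ := by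
    intro ζ
    simp only [hγ, hℓ, hp0, hd, hR, Prod.smul_mk, smul_eq_mul, Prod.mk_add_mk, Prod.mk_sub_mk]
    congr 1 <;> ring
  have hγc : ContinuousAt γ 0 := by
    have h1 : ContinuousAt h (z0 + 0) := by rw [add_zero]; exact hdiff.continuousAt
    have h2 : ContinuousAt g (z0 + 0) := by rw [add_zero]; exact hdiffg.continuousAt
    apply ContinuousAt.prodMk
    · exact ContinuousAt.comp (g := g) h2 (by fun_prop)
    · exact ContinuousAt.comp (g := h) h1 (by fun_prop)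
  set K : ℝ := 1 + ‖d‖ with hK
  have hKpos : 0 < K := by positivity
  -- choice of small remainder constant
  set σ : ℝ := min 1 (τ / (C * (2 * K + 1) + 1)) with hσ
  have hσpos : 0 < σ := by
    apply lt_min one_pos
    positivity
  have hrem : ∀ᶠ ζ in 𝓝 (0 : ℂ), ‖R ζ‖ ≤ σ * ‖ζ‖ := by
    have h1 := hasDerivAt_iff_isLittleO_nhds_zero.1 hdiff.hasDerivAt
    have h2 := h1.def hσpos
    have h3 := hasDerivAt_iff_isLittleO_nhds_zero.1 hdiffg.hasDerivAt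
    have h4 := h3.def hσpos
    filter_upwards [h2, h4] with ζ hζ hζ2
    rw [hR, Prod.norm_mk]
    apply max_le
    · simpa [smul_eq_mul] using hζ2
    · simpa [smul_eq_mul] using hζ
  have hγV : ∀ᶠ ζ in 𝓝 (0 : ℂ), γ ζ ∈ V := by
    have : V ∈ 𝓝 (γ 0) := by rw [hγ0]; exact hV
    exact hγc this
  obtain ⟨r1, hr1, hl⟩ := exists_radius hV d
  obtain ⟨r2, hr2, hs⟩ := hsub
  obtain ⟨r3, hr3, hb3⟩ := Metric.nhds_basis_closedBall.mem_iff.1 (hrem.and hγV)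
  have hev : ∀ᶠ r in 𝓝[>] (0 : ℝ), 0 < r ∧ r < r1 ∧ r < r2 ∧ r < r3 ∧ r < ρ := by
    have h0 : ∀ᶠ r in 𝓝[>] (0 : ℝ), 0 < r := self_mem_nhdsWithin
    have h1 : ∀ᶠ r in 𝓝[>] (0 : ℝ), r < r1 := nhdsWithin_le_nhds (Iio_mem_nhds hr1)
    have h2 : ∀ᶠ r in 𝓝[>] (0 : ℝ), r < r2 := nhdsWithin_le_nhds (Iio_mem_nhds hr2)
    have h3 : ∀ᶠ r in 𝓝[>] (0 : ℝ), r < r3 := nhdsWithin_le_nhds (Iio_mem_nhds hr3)
    have h4 : ∀ᶠ r in 𝓝[>] (0 : ℝ), r < ρ := nhdsWithin_le_nhds (Iio_mem_nhds hρ)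
    filter_upwards [h0, h1, h2, h3, h4] with r a b c d e
    exact ⟨a, b, c, d, e⟩
  filter_upwards [hev] with r hr
  obtain ⟨hr0, hrr1, hrr2, hrr3, hrρ⟩ := hr
  obtain ⟨hci, hsm⟩ := hs r hr0 hrr2
  -- facts on the circle
  have hcir : ∀ ζ ∈ closedBall (0 : ℂ) r, ℓ ζ ∈ V ∧ γ ζ ∈ V ∧ ‖R ζ‖ ≤ σ * ‖ζ‖ := by
    intro ζ hζ
    have h1 := hl r hr0 hrr1 ζ hζ
    have h2 := hb3 (closedBall_subset_closedBall hrr3.le hζ)
    exact ⟨h1, h2.2, h2.1⟩
  have hpt : ∀ ζ ∈ sphere (0 : ℂ) r, Φ (ℓ ζ) ≤ Φ (γ ζ) - L0 (R ζ) + τ * r ^ 2 := by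
    intro ζ hζ
    obtain ⟨h1, h2, h3⟩ := hcir ζ (sphere_subset_closedBall hζ)
    have hζr : ‖ζ‖ = r := by simpa using hζ
    have h4 := hC (ℓ ζ) h1 (γ ζ) h2
    rw [hγR] at h4
    have h6 : ‖ℓ ζ - p0‖ ≤ K * r := by
      simp only [hℓ, add_sub_cancel_left]
      rw [norm_smul, hζr, mul_comm]
      apply mul_le_mul_of_nonneg_right _ hr0.le
      rw [hK]; linarith
    have h7 : ‖R ζ‖ ≤ σ * r := by rw [← hζr]; exact h3
    have hσ1 : σ ≤ 1 := min_le_left _ _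
    have h8 : ‖γ ζ - p0‖ ≤ (K + 1) * r := by
      have : γ ζ - p0 = (γ ζ - ℓ ζ) + (ℓ ζ - p0) := by ring
      rw [this]
      refine (norm_add_le _ _).trans ?_
      rw [hγR]
      nlinarith
    have h9 : C * (‖ℓ ζ - p0‖ + ‖γ ζ - p0‖) * ‖R ζ‖ ≤ τ * r ^ 2 := by
      calc C * (‖ℓ ζ - p0‖ + ‖γ ζ - p0‖) * ‖R ζ‖ ≤
          C * (K * r + (K + 1) * r) * (σ * r) := by gcongr
        _ = σ * (C * (2 * K + 1)) * r ^ 2 := by ring
        _ ≤ τ * r ^ 2 := by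
            apply mul_le_mul_of_nonneg_right _ (sq_nonneg r)
            have hσ2 : σ ≤ τ / (C * (2 * K + 1) + 1) := min_le_right _ _
            have hpos : 0 < C * (2 * K + 1) + 1 := by positivity
            rw [le_div_iff₀ hpos] at hσ2
            nlinarith
    have h10 := (abs_le.1 (h4.trans h9)).1
    linarith
  -- integrate
  have hcomp : ∀ k : ℂ → ℂ, DifferentiableOn ℂ k (ball z0 ρ) →
      DifferentiableOn ℂ (fun ζ : ℂ => k (z0 + ζ)) (closedBall 0 r) := by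
    intro k hk
    apply hk.comp (by fun_prop)
    intro ζ hζ
    have : ‖ζ‖ ≤ r := by simpa using hζ
    simp only [mem_ball, dist_self_add_left]
    linarith
  have hcont : ContinuousOn (fun ζ : ℂ => Φ (γ ζ)) (sphere 0 |r|) := by
    rw [abs_of_pos hr0]
    apply hΦc.comp
    · exact (((hcomp g hg).continuousOn).mono sphere_subset_closedBall).prodMk
        (((hcomp h hh).continuousOn).mono sphere_subset_closedBall)
    · intro ζ hζ
      exact (hcir ζ (sphere_subset_closedBall hζ)).2.1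
  have hFd : DifferentiableOn ℂ R (closedBall 0 |r|) := by
    rw [abs_of_pos hr0]
    apply DifferentiableOn.prodMk
    · exact ((hcomp g hg).sub (differentiableOn_const _)).sub (by fun_prop)
    · exact ((hcomp h hh).sub (differentiableOn_const _)).sub (by fun_prop)
  have hRc : ContinuousOn R (sphere 0 |r|) := hFd.continuousOn.mono sphere_subset_closedBall
  have hRavg : circleAverage R 0 r = 0 := by
    have h1 : DiffContOnCl ℂ R (ball 0 |r|) :=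
      DifferentiableOn.diffContOnCl (hFd.mono closure_ball_subset_closedBall)
    rw [h1.circleAverage]
    simp [hR]
  have hΛavg : circleAverage (fun ζ => L0 (R ζ)) 0 r = 0 := by
    have h1 := ContinuousLinearMap.circleAverage_comp_comm L0 hRc.circleIntegrable'
    have h2 : (L0 : ℂ × ℂ → ℝ) ∘ R = fun ζ => L0 (R ζ) := rfl
    rw [h2, hRavg, map_zero] at h1
    exact h1
  have hΛc : CircleIntegrable (fun ζ => L0 (R ζ)) 0 r := by
    apply ContinuousOn.circleIntegrable'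
    exact L0.continuous.comp_continuousOn hRc
  have hYc : CircleIntegrable (fun ζ : ℂ => Φ (γ ζ)) 0 r := hcont.circleIntegrable'
  have hcc : CircleIntegrable (fun _ : ℂ => τ * r ^ 2) 0 r := circleIntegrable_const _ _ _
  have hm1 : circleAverage (fun ζ => Φ (ℓ ζ)) 0 r ≤
      circleAverage (fun ζ => Φ (γ ζ) - L0 (R ζ) + τ * r ^ 2) 0 r := by
    apply circleAverage_mono hci ((hYc.sub hΛc).add hcc)
    intro ζ hζ
    rw [abs_of_pos hr0] at hζ
    exact hpt ζ hζ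
  have hsI : CircleIntegrable (fun ζ => Φ (γ ζ) - L0 (R ζ)) 0 r := hYc.sub hΛc
  rw [circleAverage_fun_add hsI hcc, circleAverage_fun_sub hYc hΛc, hΛavg,
    circleAverage_const, sub_zero] at hm1
  have e2 : circleAverage (fun ζ : ℂ => Φ (γ ζ)) 0 r =
      circleAverage (fun z => Φ (g z, h z)) z0 r := by
    rw [← circleAverage_map_add_const (f := fun z => Φ (g z, h z))]
    congr 1
    ext ζ
    simp only [hγ, add_comm z0 ζ]
  rw [e2] at hm1
  have e3 : Φ p0 ≤ circleAverage (fun ζ => Φ (ℓ ζ)) 0 r := hsm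
  exact e3.trans hm1

/-- Plurisubharmonic functions are weakly subharmonic along holomorphic graphs. -/
lemma subMean_comp {Φ : ℂ × ℂ → ℝ} {h : ℂ → ℂ} {z0 : ℂ} {ρ : ℝ} (hρ : 0 < ρ)
    (hh : DifferentiableOn ℂ h (ball z0 ρ))
    (hsub : SubAt Φ (z0, h z0) (1, deriv h z0)) {V : Set (ℂ × ℂ)} (hV : V ∈ 𝓝 (z0, h z0))
    (hΦc : ContinuousOn Φ V) (L0 : ℂ × ℂ →L[ℝ] ℝ) {C : ℝ} (hC0 : 0 ≤ C)
    (hC : ∀ x ∈ V, ∀ y ∈ V, |Φ y - Φ x - L0 (y - x)| ≤
      C * (‖x - (z0, h z0)‖ + ‖y - (z0, h z0)‖) * ‖y - x‖) :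
    SubMean (fun z => Φ (z, h z)) z0 := by
  have h1 := subMean_curve (g := fun z => z) hρ differentiableOn_id hh (by simpa using hsub) hV hΦc
    L0 hC0 hC
  exact h1

end Pool.Agent.H36.MA
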