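import Mathlib

set_option autoImplicit false

open Metric Set Filter Topology Laplacian

namespace Pool.Agent.H36.MA

/-- `u` is plurisubharmonic on the open set `Ω ⊆ ℂ²` (real-valued functions): it is upper
semicontinuous on `Ω` and its restriction to every complex line satisfies the sub-mean value
inequality on all sufficiently small circles around every point of `Ω`. -/
def IsPSH (Ω : Set (ℂ × ℂ)) (u : ℂ × ℂ → ℝ) : Prop :=
  UpperSemicontinuousOn u Ω ∧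
  ∀ a ∈ Ω, ∀ b : ℂ × ℂ, ∃ r₀ > 0, ∀ r : ℝ, 0 < r → r < r₀ →
    CircleIntegrable (fun ζ : ℂ => u (a + ζ • b)) 0 r ∧
    u a ≤ Real.circleAverage (fun ζ : ℂ => u (a + ζ • b)) 0 r

/-- `u` is a maximal plurisubharmonic function on `Ω`: it is plurisubharmonic, and every
plurisubharmonic function `v` on `Ω` with `v ≤ u` near the boundary of `Ω` (that is, outside some
compact subset of `Ω`) satisfies `v ≤ u` on all of `Ω`. -/
def IsMaximalPSH (Ω : Set (ℂ × ℂ)) (u : ℂ × ℂ → ℝ) : Prop :=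
  IsPSH Ω u ∧ ∀ v : ℂ × ℂ → ℝ, IsPSH Ω v →
    (∃ K : Set (ℂ × ℂ), IsCompact K ∧ K ⊆ Ω ∧ ∀ x ∈ Ω \ K, v x ≤ u x) → ∀ x ∈ Ω, v x ≤ u x

/-- The Levi form (complex Hessian) of `φ` at `p`, evaluated at the vector `b ∈ ℂ²`:
`∑ φ_{j k̄}(p) b_j b̄_k`, computed as a quarter of the Laplacian at `0` of `ζ ↦ φ (p + ζ b)`. -/
noncomputable def leviForm (φ : ℂ × ℂ → ℝ) (p b : ℂ × ℂ) : ℝ :=
  (Δ (fun ζ : ℂ => φ (p + ζ • b)) 0) / 4

/-- The set `{dd^c φ ≠ 0}` of points of `Ω` at which the complex Hessian of `φ` is not zero. -/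
def hessNe (Ω : Set (ℂ × ℂ)) (φ : ℂ × ℂ → ℝ) : Set (ℂ × ℂ) :=
  {p | p ∈ Ω ∧ ∃ b, leviForm φ p b ≠ 0}

end Pool.Agent.H36.MA
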