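import Pool.Agent.H36.MA.Levi

set_option autoImplicit false

open Metric Set Filter Topology Real

noncomputable section

namespace Pool.Agent.H36.MA

section

variable {Ω : Set (ℂ × ℂ)} {φ : ℂ × ℂ → ℝ} {p : ℂ × ℂ}

/-- The Euclidean norm squared. -/
def NN (x : ℂ × ℂ) : ℝ := ‖x.1‖ ^ 2 + ‖x.2‖ ^ 2

lemma NN_continuous : Continuous NN := by
  unfold NN
  fun_prop

lemma NN_le (x : ℂ × ℂ) : NN x ≤ 2 * ‖x‖ ^ 2 := by
  have h1 : ‖x.1‖ ≤ ‖x‖ := norm_fst_le x
  have h2 : ‖x.2‖ ≤ ‖x‖ := norm_snd_le x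
  unfold NN
  have h3 : ‖x.1‖ ^ 2 ≤ ‖x‖ ^ 2 := pow_le_pow_left₀ (norm_nonneg _) h1 2
  have h4 : ‖x.2‖ ^ 2 ≤ ‖x‖ ^ 2 := pow_le_pow_left₀ (norm_nonneg _) h2 2
  linarith

lemma le_NN (x : ℂ × ℂ) : ‖x‖ ^ 2 ≤ NN x := by
  unfold NN
  rcases max_choice ‖x.1‖ ‖x.2‖ with h | h
  · have : ‖x‖ = ‖x.1‖ := by rw [Prod.norm_def, h]
    rw [this]
    nlinarith [sq_nonneg ‖x.2‖]
  · have : ‖x‖ = ‖x.2‖ := by rw [Prod.norm_def, h]
    rw [this]
    nlinarith [sq_nonneg ‖x.1‖]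

/-- Circle averages of the Euclidean norm squared. -/
lemma NN_avg (x b : ℂ × ℂ) (r : ℝ) :
    CircleIntegrable (fun ζ : ℂ => NN (x + ζ • b)) 0 r ∧
      circleAverage (fun ζ : ℂ => NN (x + ζ • b)) 0 r = NN x + r ^ 2 * NN b := by
  have key : ∀ u v : ℂ, CircleIntegrable (fun ζ : ℂ => ‖u + ζ * v‖ ^ 2) 0 r ∧
      circleAverage (fun ζ : ℂ => ‖u + ζ * v‖ ^ 2) 0 r = ‖u‖ ^ 2 + r ^ 2 * ‖v‖ ^ 2 := by
    intro u v
    have h0 : CircleIntegrable (fun ζ : ℂ => ‖u + ζ * v‖ ^ 2) 0 r := by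
      apply ContinuousOn.circleIntegrable'
      fun_prop
    refine ⟨h0, ?_⟩
    have e : (fun ζ : ℂ => ‖u + ζ * v‖ ^ 2) = fun ζ : ℂ => (‖u‖ ^ 2 +
        ((2 * (starRingEnd ℂ) u * v) * ζ).re) + ‖v‖ ^ 2 * ‖ζ‖ ^ 2 := by
      funext ζ
      rw [← Complex.normSq_eq_norm_sq, ← Complex.normSq_eq_norm_sq, ← Complex.normSq_eq_norm_sq,
        ← Complex.normSq_eq_norm_sq, Complex.normSq_apply, Complex.normSq_apply,
        Complex.normSq_apply, Complex.normSq_apply]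
      simp only [Complex.add_re, Complex.add_im, Complex.mul_re, Complex.mul_im, Complex.conj_re,
        Complex.conj_im, Complex.re_ofNat, Complex.im_ofNat]
      ring
    have hd : Differentiable ℂ (fun ζ : ℂ => (2 * (starRingEnd ℂ) u * v) * ζ) := by fun_prop
    have h1 : CircleIntegrable (fun ζ : ℂ => ((2 * (starRingEnd ℂ) u * v) * ζ).re) 0 r := by
      apply ContinuousOn.circleIntegrable'
      fun_prop
    have h2 : CircleIntegrable (fun _ : ℂ => ‖u‖ ^ 2) 0 r := circleIntegrable_const _ _ _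
    have h3 : CircleIntegrable (fun ζ : ℂ => ‖v‖ ^ 2 * ‖ζ‖ ^ 2) 0 r := by
      apply ContinuousOn.circleIntegrable'
      fun_prop
    have h4 : circleAverage (fun ζ : ℂ => ‖v‖ ^ 2 * ‖ζ‖ ^ 2) 0 r =
        ‖v‖ ^ 2 * circleAverage (fun ζ : ℂ => ‖ζ‖ ^ 2) 0 r :=
      circleAverage_fun_smul (a := ‖v‖ ^ 2) (f := fun ζ : ℂ => ‖ζ‖ ^ 2)
    have h12 : CircleIntegrable (fun ζ : ℂ => ‖u‖ ^ 2 + ((2 * (starRingEnd ℂ) u * v) * ζ).re) 0 r :=
      h2.add h1
    rw [e, circleAverage_fun_add h12 h3, circleAverage_fun_add h2 h1, circleAverage_const,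
      circleAverage_re hd.differentiableOn, h4, circleAverage_normSq]
    simp only [mul_zero, Complex.zero_re, norm_zero]
    ring
  obtain ⟨h1, h2⟩ := key x.1 b.1
  obtain ⟨h3, h4⟩ := key x.2 b.2
  constructor
  · exact h1.add h3
  · have : circleAverage (fun ζ : ℂ => NN (x + ζ • b)) 0 r =
        circleAverage (fun ζ : ℂ => ‖x.1 + ζ * b.1‖ ^ 2 + ‖x.2 + ζ * b.2‖ ^ 2) 0 r := rfl
    rw [this, circleAverage_fun_add h1 h3, h2, h4]
    unfold NN
    ring

/-- The Levi form of a maximal plurisubharmonic `C²` function is degenerate. -/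
theorem exists_degenerate (hφ : ContDiffOn ℝ 2 φ Ω) (hΩ : IsOpen Ω) (hp : p ∈ Ω)
    (hmax : IsMaximalPSH Ω φ) : ∃ b1 : ℂ × ℂ, b1 ≠ 0 ∧ HH (D2 φ p) b1 = 0 := by
  by_contra hcon
  push Not at hcon
  have hpos : ∀ b : ℂ × ℂ, b ≠ 0 → 0 < HH (D2 φ p) b := fun b hb =>
    lt_of_le_of_ne (HH_nonneg hφ hΩ hp hmax.1 b) (Ne.symm (hcon b hb))
  have hcont : Continuous (HH (D2 φ p)) := by
    unfold HH
    fun_prop
  -- a uniform lower bound
  obtain ⟨m, hm, hmb⟩ : ∃ m > 0, ∀ b : ℂ × ℂ, m * ‖b‖ ^ 2 ≤ HH (D2 φ p) b := by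
    have hne : (sphere (0 : ℂ × ℂ) 1).Nonempty := NormedSpace.sphere_nonempty.2 zero_le_one
    obtain ⟨b0, hb0, hmin⟩ := (isCompact_sphere (0 : ℂ × ℂ) 1).exists_isMinOn hne hcont.continuousOn
    have hb0' : b0 ≠ 0 := by
      rintro rfl
      simp at hb0
    refine ⟨HH (D2 φ p) b0, hpos b0 hb0', fun b => ?_⟩
    by_cases hb : b = 0
    · subst hb
      simp [HH]
    · have hn : ‖b‖ ≠ 0 := norm_ne_zero_iff.2 hb
      have h1 : (‖b‖⁻¹ • b) ∈ sphere (0 : ℂ × ℂ) 1 := by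
        rw [mem_sphere_zero_iff_norm, norm_smul, norm_inv, norm_norm, inv_mul_cancel₀ hn]
      have h2 : HH (D2 φ p) b0 ≤ HH (D2 φ p) (‖b‖⁻¹ • b) := hmin h1
      have h3 : b = ‖b‖ • (‖b‖⁻¹ • b) := by rw [smul_smul, mul_inv_cancel₀ hn, one_smul]
      conv_rhs => rw [h3]
      rw [HH_smul_real, mul_comm]
      exact mul_le_mul_of_nonneg_left h2 (sq_nonneg _)
  have hη : 0 < m / 8 := by positivity
  obtain ⟨δ, hδ, hsub, hδ2⟩ := D2_near hΩ hφ hp hη
  set τ : ℝ := m / 16 with hτ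
  have hτ0 : 0 < τ := by positivity
  set ρ : ℝ := δ / 2 with hρ
  have hρ0 : 0 < ρ := by positivity
  set w : ℂ × ℂ → ℝ := fun x => φ x + τ * (ρ ^ 2 - NN (x - p)) with hw
  -- `w` has the sub-mean value property near `p`
  have hwsub : ∀ x ∈ ball p δ, ∀ b : ℂ × ℂ, SubAt w x b := by
    intro x hx b
    obtain ⟨r₀, hr₀, h⟩ := avg_taylor hφ hΩ hp hη hsub hδ2 hx b
    refine ⟨r₀, hr₀, fun r hr hr2 => ?_⟩
    obtain ⟨h1, h2⟩ := h r hr hr2
    obtain ⟨h3, h4⟩ := NN_avg (x - p) b r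
    have hcc : CircleIntegrable (fun _ : ℂ => ρ ^ 2) 0 r := circleIntegrable_const _ _ _
    have h5 : CircleIntegrable (fun ζ : ℂ => ρ ^ 2 - NN (x - p + ζ • b)) 0 r := hcc.sub h3
    have h6 : CircleIntegrable (fun ζ : ℂ => τ * (ρ ^ 2 - NN (x - p + ζ • b))) 0 r :=
      h5.const_smul (a := τ)
    have e : (fun ζ : ℂ => w (x + ζ • b)) = fun ζ : ℂ => φ (x + ζ • b) +
        τ * (ρ ^ 2 - NN (x - p + ζ • b)) := by
      funext ζ
      simp only [hw]
      congr 4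
      abel
    rw [e]
    refine ⟨h1.add h6, ?_⟩
    have h7 : circleAverage (fun ζ : ℂ => τ * (ρ ^ 2 - NN (x - p + ζ • b))) 0 r =
        τ * circleAverage (fun ζ : ℂ => ρ ^ 2 - NN (x - p + ζ • b)) 0 r :=
      circleAverage_fun_smul (a := τ) (f := fun ζ : ℂ => ρ ^ 2 - NN (x - p + ζ • b))
    rw [circleAverage_fun_add h1 h6, h7, circleAverage_fun_sub hcc h3, circleAverage_const, h4]
    have h8 := (abs_le.1 h2).1
    have h9 := hmb b
    have h10 := NN_le b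
    have h11 : 0 ≤ r ^ 2 := sq_nonneg r
    simp only [hw]
    have h12 : τ * NN b ≤ m / 8 * ‖b‖ ^ 2 := by
      calc τ * NN b ≤ τ * (2 * ‖b‖ ^ 2) := by gcongr
        _ = m / 8 * ‖b‖ ^ 2 := by rw [hτ]; ring
    have h13 : 0 ≤ (1 / 4 * HH (D2 φ p) b - m / 8 * ‖b‖ ^ 2 - τ * NN b) * r ^ 2 := by
      apply mul_nonneg _ h11
      linarith
    nlinarith
  set V : ℂ × ℂ → ℝ := fun x => max (w x) (φ x) with hV
  have hφc : ContinuousOn φ Ω := hφ.continuousOn
  have hwc : ContinuousOn w Ω := by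
    simp only [hw]
    apply hφc.add
    apply Continuous.continuousOn
    have := NN_continuous
    fun_prop
  have hVpsh : IsPSH Ω V := by
    rw [isPSH_iff]
    constructor
    · apply ContinuousOn.upperSemicontinuousOn
      exact hwc.sup hφc
    · intro a ha b
      by_cases hab : a ∈ ball p δ
      · exact (hwsub a hab b).sup (hmax.1.2 a ha b)
      · -- `V = φ` near `a`
        apply SubAt.congr _ (hmax.1.2 a ha b)
        have h1 : ρ < ‖a - p‖ := by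
          rw [mem_ball, dist_eq_norm, not_lt] at hab
          rw [hρ]; linarith
        have h2 : ∀ᶠ x : ℂ × ℂ in 𝓝 a, ρ < ‖x - p‖ := by
          have hc : ContinuousAt (fun x : ℂ × ℂ => ‖x - p‖) a := by fun_prop
          exact hc.eventually_const_lt h1
        filter_upwards [h2] with x hx
        have h3 : ρ ^ 2 < NN (x - p) := by
          have h4 := le_NN (x - p)
          nlinarith
        simp only [hV]
        symm
        apply max_eq_right
        simp only [hw]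
        nlinarith
  have h1 := hmax.2 V hVpsh ⟨closedBall p ρ, isCompact_closedBall _ _, ?_, ?_⟩ p hp
  · have h2 := (le_max_left (w p) (φ p)).trans h1
    simp only [hw, sub_self] at h2
    have h3 : NN (0 : ℂ × ℂ) = 0 := by simp [NN]
    rw [h3] at h2
    have h4 : 0 < τ * ρ ^ 2 := by positivity
    linarith
  · refine Subset.trans ?_ hsub
    apply closedBall_subset_ball
    rw [hρ]; linarith
  · intro x hx
    apply max_le _ le_rfl
    have h1 : ρ < ‖x - p‖ := by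
      have := hx.2
      rw [mem_closedBall, dist_eq_norm, not_le] at this
      exact this
    have h4 := le_NN (x - p)
    have h5 : ρ ^ 2 < NN (x - p) := by nlinarith
    simp only [hw]
    nlinarith

end

end Pool.Agent.H36.MA
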