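import Pool.Agent.H36.MA.Defs

set_option autoImplicit false

open Metric Set Filter Topology InnerProductSpace

namespace Pool.Agent.H36.MA

/-- `𝒜` is an atlas of (continuous) foliation charts, on the open set `U ⊆ ℂ²`, of a foliation of
`U` by holomorphic discs along which `φ` is harmonic. Writing `𝔻` for the open unit disc of `ℂ`:
every chart is a homeomorphism `Ψ` from `𝔻 × 𝔻` onto an open subset of `U`; these open sets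
cover `U`; every plaque `z ↦ Ψ (z, t)` is an injective holomorphic immersion of `𝔻`, and `φ` is
harmonic along it; and any two charts induce the same plaques locally, that is, the transition
maps have the form `(z, t) ↦ (a (z, t), b t)` locally. -/
structure IsHarmonicDiscFoliation (U : Set (ℂ × ℂ)) (φ : ℂ × ℂ → ℝ)
    (𝒜 : Set (OpenPartialHomeomorph (ℂ × ℂ) (ℂ × ℂ))) : Prop where
  source_eq : ∀ Ψ ∈ 𝒜, Ψ.source = ball (0 : ℂ) 1 ×ˢ ball (0 : ℂ) 1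
  cover : (⋃ Ψ ∈ 𝒜, Ψ.target) = U
  holomorphic : ∀ Ψ ∈ 𝒜, ∀ t ∈ ball (0 : ℂ) 1,
    DifferentiableOn ℂ (fun z => Ψ (z, t)) (ball 0 1)
  immersed : ∀ Ψ ∈ 𝒜, ∀ t ∈ ball (0 : ℂ) 1, ∀ z ∈ ball (0 : ℂ) 1,
    deriv (fun z => Ψ (z, t)) z ≠ 0
  harmonic : ∀ Ψ ∈ 𝒜, ∀ t ∈ ball (0 : ℂ) 1, HarmonicOnNhd (fun z => φ (Ψ (z, t))) (ball 0 1)
  compat : ∀ Ψ ∈ 𝒜, ∀ Ψ' ∈ 𝒜, ∀ x ∈ Ψ.source, Ψ x ∈ Ψ'.target →
    ∃ V ∈ 𝓝 x, ∀ y ∈ V, ∀ y' ∈ V, y.2 = y'.2 → (Ψ'.symm (Ψ y)).2 = (Ψ'.symm (Ψ y')).2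

end Pool.Agent.H36.MA
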