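import Pool.Agent.H36.MA.Normal
import Pool.Agent.H36.MA.Chart2
import Pool.Agent.H36.MA.Fol

set_option autoImplicit false

open Metric Set Filter Topology Real InnerProductSpace

noncomputable section

namespace Pool.Agent.H36.MA

section

variable {Ω : Set (ℂ × ℂ)} {φ : ℂ × ℂ → ℝ} {p : ℂ × ℂ}

/-- Scaling of the source. -/
def scaleHomeo : (ℂ × ℂ) ≃ₜ (ℂ × ℂ) :=
  (Homeomorph.mulLeft₀ (1 / 2 : ℂ) (by norm_num)).prodCongr
    (Homeomorph.mulLeft₀ (1 / 4 : ℂ) (by norm_num))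

lemma scaleHomeo_apply (x : ℂ × ℂ) : scaleHomeo x = (1 / 2 * x.1, 1 / 4 * x.2) := rfl

/-- A foliation chart around a given point of `{dd^c φ ≠ 0}`, with uniqueness of the discs. -/
theorem exists_chart (hΩ : IsOpen Ω) (hφ : ContDiffOn ℝ 2 φ Ω) (hmax : IsMaximalPSH Ω φ)
    (hp : p ∈ hessNe Ω φ) :
    ∃ Ψ : OpenPartialHomeomorph (ℂ × ℂ) (ℂ × ℂ),
      Ψ.source = ball (0 : ℂ) 1 ×ˢ ball (0 : ℂ) 1 ∧ p ∈ Ψ.target ∧ Ψ.target ⊆ hessNe Ω φ ∧
      (∀ t ∈ ball (0 : ℂ) 1, DifferentiableOn ℂ (fun z => Ψ (z, t)) (ball 0 1)) ∧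
      (∀ t ∈ ball (0 : ℂ) 1, ∀ z ∈ ball (0 : ℂ) 1, deriv (fun z => Ψ (z, t)) z ≠ 0) ∧
      (∀ t ∈ ball (0 : ℂ) 1, HarmonicOnNhd (fun z => φ (Ψ (z, t))) (ball 0 1)) ∧
      (∀ (c : ℂ) (r : ℝ) (f : ℂ → ℂ × ℂ), DifferentiableOn ℂ f (ball c r) →
        MapsTo f (ball c r) Ψ.target → HarmonicOnNhd (fun ζ => φ (f ζ)) (ball c r) →
        ∀ ζ ∈ ball c r, (Ψ.symm (f ζ)).2 = (Ψ.symm (f c)).2) := by
  obtain ⟨A, k, P, ε', hk, hP, D, hhess⟩ := exists_localData hφ hΩ hp hmax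
  obtain ⟨Ψ0, hsrc, h00, hball, hfst, hhol, huniq⟩ := D.local_chart
  set T : (ℂ × ℂ) ≃ₜ (ℂ × ℂ) := A.toHomeomorph.trans (Homeomorph.addLeft p) with hT
  have hTa : ∀ y, T y = p + A y := fun y => rfl
  have hTs : ∀ y, T.symm y = A.symm (-p + y) := fun y => rfl
  set Ψ : OpenPartialHomeomorph (ℂ × ℂ) (ℂ × ℂ) :=
    scaleHomeo.transOpenPartialHomeomorph (Ψ0.transHomeomorph T) with hΨ
  have hΨa : ∀ x, Ψ x = p + A (Ψ0 (scaleHomeo x)) := fun x => rfl
  have hΨs : ∀ y, Ψ.symm y = scaleHomeo.symm (Ψ0.symm (T.symm y)) := fun y => rfl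
  have hsrc' : Ψ.source = ball (0 : ℂ) 1 ×ˢ ball (0 : ℂ) 1 := by
    have h1 : Ψ.source = scaleHomeo ⁻¹' Ψ0.source := rfl
    rw [h1, hsrc]
    ext ⟨z, t⟩
    simp only [mem_preimage, scaleHomeo_apply, mem_prod, mem_ball, dist_zero_right, norm_mul,
      norm_div, norm_one, Complex.norm_ofNat]
    constructor
    · rintro ⟨h2, h3⟩
      constructor <;> linarith
    · rintro ⟨h2, h3⟩
      constructor <;> linarith
  have htgt : Ψ.target = T.symm ⁻¹' Ψ0.target := rfl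
  have hscale : ∀ z ∈ ball (0 : ℂ) 1, ∀ t ∈ ball (0 : ℂ) 1,
      (1 / 2 : ℂ) * z ∈ ball (0 : ℂ) (1 / 2) ∧ (1 / 4 : ℂ) * t ∈ ball (0 : ℂ) (1 / 4) := by
    intro z hz t ht
    simp only [mem_ball, dist_zero_right, norm_mul, norm_div, norm_one,
      Complex.norm_ofNat] at hz ht ⊢
    constructor <;> linarith
  have hdisc : ∀ t ∈ ball (0 : ℂ) 1,
      DifferentiableOn ℂ (fun z => Ψ0 (1 / 2 * z, 1 / 4 * t)) (ball 0 1) := by
    intro t ht
    have h1 := (hhol (1 / 4 * t) (hscale 0 (mem_ball_self one_pos) t ht).2).1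
    exact h1.comp (f := fun z : ℂ => 1 / 2 * z) (by fun_prop) (fun z hz => (hscale z hz t ht).1)
  have hmem : ∀ y ∈ Ψ.target, y ∈ hessNe Ω φ := by
    intro y hy
    rw [htgt] at hy
    have h1 : Ψ0.symm (T.symm y) ∈ Ψ0.source := Ψ0.map_target hy
    have h2 := hball _ h1
    rw [Ψ0.right_inv hy] at h2
    have h3 := hhess _ h2
    rw [← hTa, T.apply_symm_apply] at h3
    exact h3
  have hφΨ : ∀ y, φ (p + A y) = k⁻¹ * ((k * φ (p + A y) - (P y).re) + (P y).re) := by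
    intro y
    field_simp
    ring
  refine ⟨Ψ, hsrc', ?_, hmem, ?_, ?_, ?_, ?_⟩
  · rw [htgt, mem_preimage, hTs, neg_add_cancel, map_zero]
    have h1 : ((0 : ℂ), (0 : ℂ)) ∈ Ψ0.source := by
      rw [hsrc]
      constructor
      · exact mem_ball_self (by norm_num)
      · exact mem_ball_self (by norm_num)
    have h2 := Ψ0.map_source h1
    rw [h00] at h2
    exact h2
  · intro t ht
    have h1 : DifferentiableOn ℂ (fun z => p + A (Ψ0 (1 / 2 * z, 1 / 4 * t))) (ball 0 1) := by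
      have h2 := hdisc t ht
      exact (A.differentiable.comp_differentiableOn h2).const_add p
    exact h1
  · intro t ht z hz h0
    have h1 := hdisc t ht
    have h2 : HasDerivAt (fun z => Ψ0 (1 / 2 * z, 1 / 4 * t))
        (deriv (fun z => Ψ0 (1 / 2 * z, 1 / 4 * t)) z) z :=
      ((h1 z hz).differentiableAt (isOpen_ball.mem_nhds hz)).hasDerivAt
    have h3 : HasDerivAt (fun z => (Ψ0 (1 / 2 * z, 1 / 4 * t)).1)
        (deriv (fun z => Ψ0 (1 / 2 * z, 1 / 4 * t)) z).1 z := by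
      have := (ContinuousLinearMap.fst ℂ ℂ ℂ).hasFDerivAt.comp_hasDerivAt z h2
      exact this
    have h4 : HasDerivAt (fun z : ℂ => 1 / 2 * z)
        (deriv (fun z => Ψ0 (1 / 2 * z, 1 / 4 * t)) z).1 z := by
      refine h3.congr_of_eventuallyEq ?_
      filter_upwards [isOpen_ball.mem_nhds hz] with w hw
      rw [hfst]
      rw [hsrc]
      exact hscale w hw t ht
    have h5 : HasDerivAt (fun z : ℂ => 1 / 2 * z) (1 / 2) z := by
      have := (hasDerivAt_id z).const_mul (1 / 2 : ℂ)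
      simpa using this
    have h6 := h4.unique h5
    have h7 : HasDerivAt (fun z => Ψ (z, t)) (A (deriv (fun z => Ψ0 (1 / 2 * z, 1 / 4 * t)) z)) z := by
      have := ((A : ℂ × ℂ →L[ℂ] ℂ × ℂ).hasFDerivAt.comp_hasDerivAt z h2).const_add p
      exact this
    rw [h7.deriv] at h0
    have h8 : deriv (fun z => Ψ0 (1 / 2 * z, 1 / 4 * t)) z = 0 := by
      apply A.injective
      rw [h0, map_zero]
    rw [h8] at h6
    norm_num at h6
  · intro t ht
    obtain ⟨G, hG, hGe⟩ := (hhol (1 / 4 * t) (hscale 0 (mem_ball_self one_pos) t ht).2).2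
    have hP2 : DifferentiableOn ℂ (fun z => P (Ψ0 (1 / 2 * z, 1 / 4 * t))) (ball 0 1) :=
      hP.comp_differentiableOn (hdisc t ht)
    have hG2 : DifferentiableOn ℂ (fun z => G (1 / 2 * z)) (ball 0 1) :=
      hG.comp (f := fun z : ℂ => 1 / 2 * z) (by fun_prop) (fun z hz => (hscale z hz t ht).1)
    apply harmonic_of_re (G := fun z => ((k⁻¹ : ℝ) : ℂ) *
      (G (1 / 2 * z) + P (Ψ0 (1 / 2 * z, 1 / 4 * t)))) isOpen_ball
    · exact (hG2.add hP2).const_mul _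
    · intro z hz
      rw [hΨa, hφΨ, scaleHomeo_apply]
      have h1 := hGe (1 / 2 * z) (hscale z hz t ht).1
      simp only at h1 ⊢
      rw [h1, Complex.re_ofReal_mul, Complex.add_re]
  · intro c r f hf hfm hfh ζ hζ
    set g : ℂ → ℂ × ℂ := fun ζ => T.symm (f ζ) with hg
    have hgd : DifferentiableOn ℂ g (ball c r) := by
      have h1 : DifferentiableOn ℂ (fun ζ => -p + f ζ) (ball c r) := hf.const_add _
      exact A.symm.differentiable.comp_differentiableOn h1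
    have hgm : MapsTo g (ball c r) Ψ0.target := fun ζ hζ => hfm hζ
    have hgT : ∀ ζ, p + A (g ζ) = f ζ := fun ζ => T.apply_symm_apply (f ζ)
    have hgh : HarmonicOnNhd (fun ζ => k * φ (p + A (g ζ)) - (P (g ζ)).re) (ball c r) := by
      intro z hz
      have h1 : HarmonicAt (fun ζ => φ (f ζ)) z := hfh z hz
      have h2 : AnalyticAt ℂ (fun ζ => P (g ζ)) z :=
        (hP.comp_differentiableOn hgd).analyticAt (isOpen_ball.mem_nhds hz)
      have h3 : HarmonicAt (fun ζ => (P (g ζ)).re) z := h2.harmonicAt_re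
      have h4 := (h1.const_smul (c := k)).sub h3
      refine (harmonicAt_congr_nhds ?_).1 h4
      filter_upwards with w
      simp only [Pi.sub_apply, Pi.smul_apply, smul_eq_mul, hgT]
    have h1 := huniq c r g hgd hgm hgh ζ hζ
    have h2 : ∀ ζ, (Ψ.symm (f ζ)).2 = (scaleHomeo.symm (Ψ0.symm (g ζ))).2 := fun ζ => rfl
    have h3 : ∀ x : ℂ × ℂ, (scaleHomeo.symm x).2 = (1 / 4 : ℂ)⁻¹ * x.2 := fun x => rfl
    rw [h2, h2, h3, h3, h1]

end

end Pool.Agent.H36.MA
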