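import Pool.Agent.H36.MA.Hardy

set_option autoImplicit false

open Metric Set Filter Topology Real MeasureTheory AddCircle

noncomputable section

namespace Pool.Agent.H36.MA

/-- Translate of a continuous function on the circle. -/
def shiftC (f : C(TT, ℂ)) (τ : TT) : C(TT, ℂ) := ⟨fun x => f (x + τ), by fun_prop⟩

lemma shiftC_apply (f : C(TT, ℂ)) (τ x : TT) : shiftC f τ x = f (x + τ) := rfl

lemma coeff_shift_sub (f : C(TT, ℂ)) (τ : TT) (n : ℤ) :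
    fourierCoeff (shiftC f τ - f : C(TT, ℂ)) n = (fourier n τ - 1) * fourierCoeff f n := by
  rw [← coeffCLM_apply, map_sub, coeffCLM_apply, coeffCLM_apply]
  have : fourierCoeff (shiftC f τ) n = fourier n τ * fourierCoeff f n := coeff_shift f τ n
  rw [this]
  ring

lemma sum_le_parseval (f : C(TT, ℂ)) (s : Finset ℤ) :
    ∑ n ∈ s, ‖fourierCoeff f n‖ ^ 2 ≤ ∫ x, ‖f x‖ ^ 2 ∂haarAddCircle :=
  sum_le_hasSum s (fun _ _ => by positivity) (parseval f)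

/-- `L²`-Lipschitz functions have Fourier coefficients in weighted `ℓ²`. -/
lemma sum_sq_of_lip (f : C(TT, ℂ)) {M : ℝ}
    (hf : ∀ τ : ℝ, ∫ x, ‖f (x + (τ : TT)) - f x‖ ^ 2 ∂haarAddCircle ≤ M ^ 2 * τ ^ 2)
    (s : Finset ℤ) : ∑ n ∈ s, (n : ℝ) ^ 2 * ‖fourierCoeff f n‖ ^ 2 ≤ M ^ 2 := by
  have h1 : ∀ τ : ℝ, τ ≠ 0 →
      ∑ n ∈ s, ‖τ⁻¹ • ((fourier n (τ : TT) : ℂ) - 1)‖ ^ 2 * ‖fourierCoeff f n‖ ^ 2 ≤ M ^ 2 := by
    intro τ hτ
    have h2 := sum_le_parseval (shiftC f (τ : TT) - f) s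
    simp_rw [coeff_shift_sub] at h2
    have h3 := h2.trans (hf τ)
    have h4 : ∑ n ∈ s, ‖τ⁻¹ • ((fourier n (τ : TT) : ℂ) - 1)‖ ^ 2 * ‖fourierCoeff f n‖ ^ 2 =
        (τ ^ 2)⁻¹ * ∑ n ∈ s, ‖((fourier n (τ : TT) : ℂ) - 1) * fourierCoeff f n‖ ^ 2 := by
      rw [Finset.mul_sum]
      apply Finset.sum_congr rfl
      intro n _
      rw [norm_smul, norm_mul, norm_inv, Real.norm_eq_abs, mul_pow, mul_pow, inv_pow, sq_abs]
      ring
    rw [h4]
    have h5 : 0 < τ ^ 2 := by positivity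
    rw [inv_mul_le_iff₀ h5]
    linarith
  have h2 : Tendsto (fun τ : ℝ =>
      ∑ n ∈ s, ‖τ⁻¹ • ((fourier n (τ : TT) : ℂ) - 1)‖ ^ 2 * ‖fourierCoeff f n‖ ^ 2)
      (𝓝[≠] 0) (𝓝 (∑ n ∈ s, (n : ℝ) ^ 2 * ‖fourierCoeff f n‖ ^ 2)) := by
    apply tendsto_finsetSum
    intro n _
    apply Tendsto.mul_const
    have h3 := (hasDerivAt_fourier (2 * π) n 0).tendsto_slope_zero
    have h4 := (h3.norm).pow 2
    have e : ‖2 * (π : ℂ) * Complex.I * n / ((2 * π : ℝ) : ℂ) *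
        fourier n ((0 : ℝ) : AddCircle (2 * π))‖ ^ 2 = (n : ℝ) ^ 2 := by
      have e0 : ((0 : ℝ) : AddCircle (2 * π)) = 0 := by simp
      rw [e0, fourier_eval_zero]
      simp only [mul_one, Complex.ofReal_mul, Complex.ofReal_ofNat]
      have hpi : (π : ℂ) ≠ 0 := by exact_mod_cast Real.pi_ne_zero
      have e1 : 2 * (π : ℂ) * Complex.I * n / (2 * (π : ℂ)) = Complex.I * n := by
        field_simp
      rw [e1, norm_mul, Complex.norm_I, one_mul]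
      simp
    rw [e] at h4
    refine h4.congr' ?_
    apply Filter.Eventually.of_forall
    intro τ
    have e0 : ((0 : ℝ) : AddCircle (2 * π)) = 0 := by simp
    simp only [zero_add, e0, fourier_eval_zero]
  apply le_of_tendsto h2
  filter_upwards [self_mem_nhdsWithin] with τ hτ
  exact h1 τ hτ

/-- Prepend a constant coefficient. -/
def cons (t : ℂ) (a : ℕ → ℂ) : ℕ → ℂ
  | 0 => t
  | k + 1 => a k

@[simp] lemma cons_zero (t : ℂ) (a : ℕ → ℂ) : cons t a 0 = t := rfl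
@[simp] lemma cons_succ (t : ℂ) (a : ℕ → ℂ) (k : ℕ) : cons t a (k + 1) = a k := rfl

lemma cons_summable {t : ℂ} {a : ℕ → ℂ} (ha : Summable fun k => ‖a k‖) :
    Summable fun k => ‖cons t a k‖ := by
  rw [← summable_nat_add_iff 1]
  exact ha

lemma integral_holT (c : ℕ → ℂ) (hc : Summable fun k => ‖c k‖) :
    HasSum (fun k => ‖c k‖ ^ 2) (∫ x, ‖holT c hc x‖ ^ 2 ∂haarAddCircle) := by
  have h := parseval (holT c hc)
  have hinj : Function.Injective (fun k : ℕ => (k : ℤ)) := Nat.cast_injective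
  have h2 := (hinj.hasSum_iff (f := fun n : ℤ => ‖fourierCoeff (holT c hc) n‖ ^ 2)
    (a := ∫ x, ‖holT c hc x‖ ^ 2 ∂haarAddCircle) ?_).2 h
  · convert h2 using 1
    ext k
    simp only [Function.comp_apply, coeff_holT]
    simp
  · intro n hn
    rw [coeff_holT]
    have : ¬ (0 ≤ n) := by
      intro h0
      apply hn
      exact ⟨n.toNat, by simp [h0]⟩
    simp [this]

lemma sum_inv_sq (N : ℕ) :
    ∑ k ∈ Finset.range (N + 1), (1 / ((k : ℝ) + 1)) ^ 2 ≤ 2 - 1 / ((N : ℝ) + 1) := by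
  induction N with
  | zero => norm_num
  | succ N ih =>
    rw [Finset.sum_range_succ]
    have h1 : (1 / (((N + 1 : ℕ) : ℝ) + 1)) ^ 2 ≤ 1 / ((N : ℝ) + 1) - 1 / (((N + 1 : ℕ) : ℝ) + 1) := by
      push_cast
      have hN : (0 : ℝ) ≤ N := Nat.cast_nonneg N
      rw [div_pow, one_pow, div_sub_div _ _ (by positivity) (by positivity), div_le_div_iff₀ (by positivity) (by positivity)]
      nlinarith
    linarith

lemma sum_inv_sq_le (N : ℕ) : ∑ k ∈ Finset.range N, (1 / ((k : ℝ) + 1)) ^ 2 ≤ 2 := by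
  rcases N with _ | N
  · simp
  · have h := sum_inv_sq N
    have : (0 : ℝ) ≤ 1 / (N + 1) := by positivity
    linarith

/-- Weighted `ℓ²` bound. -/
def WB (M : ℝ) (a : ℕ → ℂ) : Prop :=
  ∀ N, ∑ k ∈ Finset.range N, ((k : ℝ) + 1) ^ 2 * ‖a k‖ ^ 2 ≤ M ^ 2

lemma WB.sum_le {M : ℝ} {a : ℕ → ℂ} (h : WB M a) (hM : 0 ≤ M) (N : ℕ) :
    ∑ k ∈ Finset.range N, ‖a k‖ ≤ 3 / 2 * M := by
  have h1 : (∑ k ∈ Finset.range N, ‖a k‖) ^ 2 ≤ 2 * M ^ 2 := by
    have h2 : ∑ k ∈ Finset.range N, ‖a k‖ =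
        ∑ k ∈ Finset.range N, (1 / ((k : ℝ) + 1)) * (((k : ℝ) + 1) * ‖a k‖) := by
      apply Finset.sum_congr rfl
      intro k _
      field_simp
    rw [h2]
    calc (∑ k ∈ Finset.range N, (1 / ((k : ℝ) + 1)) * (((k : ℝ) + 1) * ‖a k‖)) ^ 2 ≤
        (∑ k ∈ Finset.range N, (1 / ((k : ℝ) + 1)) ^ 2) *
          (∑ k ∈ Finset.range N, (((k : ℝ) + 1) * ‖a k‖) ^ 2) :=
          Finset.sum_mul_sq_le_sq_mul_sq _ _ _
      _ ≤ 2 * M ^ 2 := by
          have h3 : ∑ k ∈ Finset.range N, (((k : ℝ) + 1) * ‖a k‖) ^ 2 ≤ M ^ 2 := by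
            have := h N
            simpa [mul_pow] using this
          have h4 := sum_inv_sq_le N
          have h5 : 0 ≤ ∑ k ∈ Finset.range N, (((k : ℝ) + 1) * ‖a k‖) ^ 2 :=
            Finset.sum_nonneg (fun _ _ => by positivity)
          nlinarith
  have h0 : 0 ≤ ∑ k ∈ Finset.range N, ‖a k‖ := Finset.sum_nonneg (fun _ _ => norm_nonneg _)
  nlinarith

lemma WB.summable {M : ℝ} {a : ℕ → ℂ} (h : WB M a) (hM : 0 ≤ M) : Summable fun k => ‖a k‖ :=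
  summable_of_sum_range_le (fun _ => norm_nonneg _) (h.sum_le hM)

lemma WB.tsum_le {M : ℝ} {a : ℕ → ℂ} (h : WB M a) (hM : 0 ≤ M) : ∑' k, ‖a k‖ ≤ 3 / 2 * M :=
  Real.tsum_le_of_sum_range_le (fun _ => norm_nonneg _) (h.sum_le hM)

lemma WB.hasSum_sq {M : ℝ} {a : ℕ → ℂ} (h : WB M a) :
    Summable fun k : ℕ => ((k : ℝ) + 1) ^ 2 * ‖a k‖ ^ 2 :=
  summable_of_sum_range_le (fun _ => by positivity) h

lemma WB.tsum_sq_le {M : ℝ} {a : ℕ → ℂ} (h : WB M a) :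
    ∑' k : ℕ, ((k : ℝ) + 1) ^ 2 * ‖a k‖ ^ 2 ≤ M ^ 2 :=
  Real.tsum_le_of_sum_range_le (fun _ => by positivity) h

lemma norm_fourier_sub_one_le (k : ℕ) (τ : ℝ) :
    ‖(fourier (k : ℤ) (τ : TT) : ℂ) - 1‖ ≤ k * |τ| := by
  have e : (fourier (k : ℤ) (τ : TT) : ℂ) = zt ((k * τ : ℝ) : TT) := by
    rw [zt, fourier_coe_apply, fourier_coe_apply]
    congr 1
    push_cast
    ring
  have h := zt_add_sub (0 : TT) (k * τ)
  have e0 : zt (0 : TT) = 1 := by rw [zt, fourier_eval_zero]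
  rw [zero_add, e0] at h
  rw [e]
  refine h.trans ?_
  rw [abs_mul]
  simp

/-- `L²`-Lipschitz bound of `hol (cons t a)` on the circle. -/
lemma shift_holT {M : ℝ} {a : ℕ → ℂ} (h : WB M a) (hM : 0 ≤ M) (t : ℂ) (τ : ℝ) :
    ∫ x, ‖holT (cons t a) (cons_summable (h.summable hM)) (x + (τ : TT)) -
      holT (cons t a) (cons_summable (h.summable hM)) x‖ ^ 2 ∂haarAddCircle ≤ M ^ 2 * τ ^ 2 := by
  set F := holT (cons t a) (cons_summable (h.summable hM)) with hF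
  have h1 := parseval (shiftC F (τ : TT) - F)
  simp_rw [coeff_shift_sub] at h1
  have h2 : ∫ x, ‖F (x + (τ : TT)) - F x‖ ^ 2 ∂haarAddCircle =
      ∫ x, ‖(shiftC F (τ : TT) - F) x‖ ^ 2 ∂haarAddCircle := rfl
  rw [h2]
  apply hasSum_le_of_sum_le h1
  intro s
  have h3 : ∀ n : ℤ, ‖((fourier n (τ : TT) : ℂ) - 1) * fourierCoeff F n‖ ^ 2 ≤
      τ ^ 2 * (if 1 ≤ n then (n : ℝ) ^ 2 * ‖a (n - 1).toNat‖ ^ 2 else 0) := by
    intro n
    rw [hF, coeff_holT]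
    rcases lt_trichotomy n 0 with hn | hn | hn
    · have h4 : ¬ (0 ≤ n) := by omega
      have h5 : ¬ (1 ≤ n) := by omega
      simp [h4, h5]
    · subst hn
      simp
    · obtain ⟨m, rfl⟩ : ∃ m : ℕ, n = (m : ℤ) + 1 := ⟨(n - 1).toNat, by omega⟩
      have h4 : (0 : ℤ) ≤ (m : ℤ) + 1 := by omega
      have h5 : (1 : ℤ) ≤ (m : ℤ) + 1 := by omega
      have h6 : ((m : ℤ) + 1).toNat = m + 1 := by omega
      have h7 : ((m : ℤ) + 1 - 1).toNat = m := by omega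
      simp only [h4, h5, if_true, h6, h7, cons_succ]
      rw [norm_mul, mul_pow]
      have h8 := norm_fourier_sub_one_le (m + 1) τ
      have h9 : ‖(fourier ((m : ℤ) + 1) (τ : TT) : ℂ) - 1‖ ^ 2 ≤ (((m : ℝ) + 1) * |τ|) ^ 2 := by
        apply pow_le_pow_left₀ (norm_nonneg _)
        exact_mod_cast h8
      calc ‖(fourier ((m : ℤ) + 1) (τ : TT) : ℂ) - 1‖ ^ 2 * ‖a m‖ ^ 2 ≤
          (((m : ℝ) + 1) * |τ|) ^ 2 * ‖a m‖ ^ 2 := by gcongr
        _ = τ ^ 2 * ((((m : ℤ) + 1 : ℤ) : ℝ) ^ 2 * ‖a m‖ ^ 2) := by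
          rw [mul_pow, sq_abs]
          push_cast
          ring
  refine (Finset.sum_le_sum (fun n _ => h3 n)).trans ?_
  rw [← Finset.mul_sum, mul_comm]
  apply mul_le_mul_of_nonneg_right _ (sq_nonneg τ)
  -- bound the finite sum
  have h4 : ∑ n ∈ s, (if 1 ≤ n then (n : ℝ) ^ 2 * ‖a (n - 1).toNat‖ ^ 2 else 0) ≤
      ∑' k : ℕ, ((k : ℝ) + 1) ^ 2 * ‖a k‖ ^ 2 := by
    rw [← Finset.sum_filter]
    have h5 : ∑ n ∈ s.filter (fun n => 1 ≤ n), (n : ℝ) ^ 2 * ‖a (n - 1).toNat‖ ^ 2 =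
        ∑ k ∈ ((s.filter (fun n => 1 ≤ n)).image (fun n : ℤ => (n - 1).toNat) : Finset ℕ),
          ((k : ℝ) + 1) ^ 2 * ‖a k‖ ^ 2 := by
      rw [Finset.sum_image]
      · apply Finset.sum_congr rfl
        intro n hn
        have hn1 : 1 ≤ n := (Finset.mem_filter.1 hn).2
        congr 2
        have : ((n - 1).toNat : ℤ) = n - 1 := Int.toNat_of_nonneg (by omega)
        have h6 : (((n - 1).toNat : ℤ) : ℝ) = (n : ℝ) - 1 := by rw [this]; push_cast; ring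
        have h7 : (((n - 1).toNat : ℕ) : ℝ) = (n : ℝ) - 1 := by exact_mod_cast h6
        rw [h7]; ring
      · intro n hn m hm hnm
        have hn1 : 1 ≤ n := (Finset.mem_filter.1 hn).2
        have hm1 : 1 ≤ m := (Finset.mem_filter.1 hm).2
        have hnm' : (n - 1).toNat = (m - 1).toNat := hnm
        omega
    rw [h5]
    exact h.hasSum_sq.sum_le_tsum _ (fun _ _ => by positivity)
  exact h4.trans h.tsum_sq_le

end Pool.Agent.H36.MA
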