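import Pool.Agent.H36.MA.Fixed

set_option autoImplicit false

open Metric Set Filter Topology Real MeasureTheory AddCircle
open scoped NNReal ENNReal

noncomputable section

namespace Pool.Agent.H36.MA

lemma integrable_of_cont {f : TT → ℝ} (hf : Continuous f) : Integrable f haarAddCircle :=
  hf.integrable_of_hasCompactSupport (HasCompactSupport.of_compactSpace _)

/-- The superposition operator. -/
def kapC (κ : ℂ × ℂ → ℂ) (hκ : Continuous κ) (F : C(TT, ℂ)) : C(TT, ℂ) where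
  toFun x := κ (zt x, F x)
  continuous_toFun := hκ.comp (zt_continuous.prodMk F.continuous)

lemma lip_continuous {κ : ℂ × ℂ → ℂ} {η : ℝ} (hκ : ∀ x y, ‖κ x - κ y‖ ≤ η * ‖x - y‖) :
    Continuous κ := by
  have : LipschitzWith (Real.toNNReal η) κ := by
    apply LipschitzWith.of_dist_le_mul
    intro x y
    rw [dist_eq_norm, dist_eq_norm]
    refine (hκ x y).trans ?_
    gcongr
    exact Real.le_coe_toNNReal η
  exact this.continuous

lemma kap_shift {κ : ℂ × ℂ → ℂ} {η : ℝ} (hη : 0 ≤ η)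
    (hκ : ∀ x y, ‖κ x - κ y‖ ≤ η * ‖x - y‖) (F : C(TT, ℂ)) (τ : ℝ) {L : ℝ}
    (hF : ∫ x, ‖F (x + (τ : TT)) - F x‖ ^ 2 ∂haarAddCircle ≤ L) :
    ∫ x, ‖kapC κ (lip_continuous hκ) F (x + (τ : TT)) -
      kapC κ (lip_continuous hκ) F x‖ ^ 2 ∂haarAddCircle ≤ η ^ 2 * (τ ^ 2 + L) := by
  have h1 : ∀ x : TT, ‖kapC κ (lip_continuous hκ) F (x + (τ : TT)) -
      kapC κ (lip_continuous hκ) F x‖ ^ 2 ≤ η ^ 2 * (τ ^ 2 + ‖F (x + (τ : TT)) - F x‖ ^ 2) := by
    intro x
    have h2 := hκ (zt (x + (τ : TT)), F (x + (τ : TT))) (zt x, F x)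
    have h3 : ‖kapC κ (lip_continuous hκ) F (x + (τ : TT)) -
        kapC κ (lip_continuous hκ) F x‖ ≤
        η * ‖((zt (x + (τ : TT)), F (x + (τ : TT))) - (zt x, F x) : ℂ × ℂ)‖ := h2
    have h4 : ‖((zt (x + (τ : TT)), F (x + (τ : TT))) - (zt x, F x) : ℂ × ℂ)‖ ^ 2 ≤
        τ ^ 2 + ‖F (x + (τ : TT)) - F x‖ ^ 2 := by
      rw [Prod.mk_sub_mk, Prod.norm_mk]
      have h5 := zt_add_sub x τ
      have h6 : ‖zt (x + (τ : TT)) - zt x‖ ^ 2 ≤ τ ^ 2 := by
        rw [← sq_abs τ]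
        exact pow_le_pow_left₀ (norm_nonneg _) h5 2
      rcases max_cases ‖zt (x + (τ : TT)) - zt x‖ ‖F (x + (τ : TT)) - F x‖ with h | h
      · rw [h.1]
        have : 0 ≤ ‖F (x + (τ : TT)) - F x‖ ^ 2 := by positivity
        linarith
      · rw [h.1]
        have : 0 ≤ τ ^ 2 := by positivity
        linarith
    calc ‖kapC κ (lip_continuous hκ) F (x + (τ : TT)) -
        kapC κ (lip_continuous hκ) F x‖ ^ 2 ≤
        (η * ‖((zt (x + (τ : TT)), F (x + (τ : TT))) - (zt x, F x) : ℂ × ℂ)‖) ^ 2 :=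
          pow_le_pow_left₀ (norm_nonneg _) h3 2
      _ = η ^ 2 * ‖((zt (x + (τ : TT)), F (x + (τ : TT))) - (zt x, F x) : ℂ × ℂ)‖ ^ 2 := by ring
      _ ≤ _ := by gcongr
  have hc1 : Continuous fun x : TT => ‖kapC κ (lip_continuous hκ) F (x + (τ : TT)) -
      kapC κ (lip_continuous hκ) F x‖ ^ 2 := by fun_prop
  have hc2 : Continuous fun x : TT => η ^ 2 * (τ ^ 2 + ‖F (x + (τ : TT)) - F x‖ ^ 2) := by fun_prop
  have hc3 : Continuous fun x : TT => ‖F (x + (τ : TT)) - F x‖ ^ 2 := by fun_prop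
  refine (integral_mono (integrable_of_cont hc1) (integrable_of_cont hc2) h1).trans ?_
  rw [integral_const_mul, integral_add (integrable_const _) (integrable_of_cont hc3)]
  simp only [integral_const, probReal_univ, smul_eq_mul, one_mul]
  gcongr

/-- The coefficients of the nonlinear operator. -/
def Tco (κ : ℂ × ℂ → ℂ) (hκ : Continuous κ) (F : C(TT, ℂ)) (k : ℕ) : ℂ :=
  fourierCoeff (kapC κ hκ F) ((k : ℤ) + 1)

lemma Tco_WB {κ : ℂ × ℂ → ℂ} {η : ℝ} (hη : 0 ≤ η) (hη1 : η ≤ 1 / 10)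
    (hκ : ∀ x y, ‖κ x - κ y‖ ≤ η * ‖x - y‖) (F : C(TT, ℂ))
    (hF : ∀ τ : ℝ, ∫ x, ‖F (x + (τ : TT)) - F x‖ ^ 2 ∂haarAddCircle ≤ (1 / 8) ^ 2 * τ ^ 2) :
    WB (1 / 8) (Tco κ (lip_continuous hκ) F) := by
  intro N
  have h1 := sum_sq_of_lip (M := 1 / 8) (kapC κ (lip_continuous hκ) F) ?_
    ((Finset.range N).image (fun k : ℕ => (k : ℤ) + 1))
  · rw [Finset.sum_image] at h1
    · refine le_trans (le_of_eq ?_) h1
      apply Finset.sum_congr rfl
      intro k _
      simp [Tco]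
    · intro a _ b _ hab
      have : (a : ℤ) + 1 = (b : ℤ) + 1 := hab
      omega
  · intro τ
    have h2 := kap_shift hη hκ F τ (hF τ)
    refine h2.trans ?_
    have h3 : η ^ 2 ≤ (1 / 10) ^ 2 := pow_le_pow_left₀ hη hη1 2
    nlinarith [sq_nonneg τ]

/-- Summability of squares. -/
lemma WB.summable_sq {M : ℝ} {a : ℕ → ℂ} (h : WB M a) : Summable fun k => ‖a k‖ ^ 2 := by
  apply Summable.of_nonneg_of_le (fun _ => by positivity) _ h.hasSum_sq
  intro k
  have h1 : (1 : ℝ) ≤ ((k : ℝ) + 1) ^ 2 := by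
    have : (0 : ℝ) ≤ k := Nat.cast_nonneg k
    nlinarith
  have h2 : 0 ≤ ‖a k‖ ^ 2 := by positivity
  nlinarith

lemma cons_sub (t t' : ℂ) (a b : ℕ → ℂ) :
    (fun k => cons t a k - cons t' b k) = cons (t - t') (fun k => a k - b k) := by
  ext k
  cases k <;> simp

lemma holT_sub (c d : ℕ → ℂ) (hc : Summable fun k => ‖c k‖) (hd : Summable fun k => ‖d k‖)
    (hcd : Summable fun k => ‖c k - d k‖) :
    holT c hc - holT d hd = holT (fun k => c k - d k) hcd := by
  ext x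
  have h1 := (hol_summable hc (zt_norm x).le)
  have h2 := (hol_summable hd (zt_norm x).le)
  show hol c (zt x) - hol d (zt x) = hol (fun k => c k - d k) (zt x)
  unfold hol
  rw [← h1.tsum_sub h2]
  congr 1
  ext k
  ring

lemma Tco_sub {κ : ℂ × ℂ → ℂ} {η : ℝ} (hη : 0 ≤ η)
    (hκ : ∀ x y, ‖κ x - κ y‖ ≤ η * ‖x - y‖) {a b : ℕ → ℂ} {M : ℝ} (hM : 0 ≤ M)
    (ha : WB M a) (hb : WB M b) (t t' : ℂ) (N : ℕ) :
    ∑ k ∈ Finset.range N,
      ‖Tco κ (lip_continuous hκ) (holT (cons t a) (cons_summable (ha.summable hM))) k -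
        Tco κ (lip_continuous hκ) (holT (cons t' b) (cons_summable (hb.summable hM))) k‖ ^ 2 ≤
      η ^ 2 * (‖t - t'‖ ^ 2 + ∑' k, ‖a k - b k‖ ^ 2) := by
  set F := holT (cons t a) (cons_summable (ha.summable hM)) with hF
  set G := holT (cons t' b) (cons_summable (hb.summable hM)) with hG
  have hs1 : Summable fun k => ‖a k - b k‖ := by
    apply Summable.of_nonneg_of_le (fun _ => norm_nonneg _) (fun k => norm_sub_le _ _)
    exact (ha.summable hM).add (hb.summable hM)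
  have hs2 : Summable fun k => ‖cons (t - t') (fun k => a k - b k) k‖ := cons_summable hs1
  have e1 : F - G = holT (cons (t - t') (fun k => a k - b k)) hs2 := by
    have hs3 : Summable fun k => ‖cons t a k - cons t' b k‖ := by
      have := cons_sub t t' a b
      have h2 : (fun k => ‖cons t a k - cons t' b k‖) =
          fun k => ‖cons (t - t') (fun k => a k - b k) k‖ := by
        ext k
        rw [← congrFun this k]
      rw [h2]; exact hs2
    rw [hF, hG, holT_sub _ _ _ _ hs3]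
    ext x
    show hol _ _ = hol _ _
    rw [cons_sub]
  have h1 : ∫ x, ‖(F - G) x‖ ^ 2 ∂haarAddCircle = ‖t - t'‖ ^ 2 + ∑' k, ‖a k - b k‖ ^ 2 := by
    rw [e1]
    have h2 := integral_holT _ hs2
    have h3 := h2.tsum_eq
    rw [← h3, h2.summable.tsum_eq_zero_add]
    simp
  have h2 : ∫ x, ‖(kapC κ (lip_continuous hκ) F - kapC κ (lip_continuous hκ) G) x‖ ^ 2
      ∂haarAddCircle ≤ η ^ 2 * (‖t - t'‖ ^ 2 + ∑' k, ‖a k - b k‖ ^ 2) := by
    rw [← h1, ← integral_const_mul]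
    have hc1 : Continuous fun x : TT =>
      ‖(kapC κ (lip_continuous hκ) F - kapC κ (lip_continuous hκ) G) x‖ ^ 2 := by fun_prop
    have hc2 : Continuous fun x : TT => η ^ 2 * ‖(F - G) x‖ ^ 2 := by fun_prop
    apply integral_mono (integrable_of_cont hc1) (integrable_of_cont hc2)
    intro x
    have h3 := hκ (zt x, F x) (zt x, G x)
    have h4 : ‖((zt x, F x) - (zt x, G x) : ℂ × ℂ)‖ = ‖F x - G x‖ := by
      rw [Prod.mk_sub_mk, sub_self, Prod.norm_mk, norm_zero]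
      exact max_eq_right (norm_nonneg _)
    rw [h4] at h3
    have h5 : ‖(kapC κ (lip_continuous hκ) F - kapC κ (lip_continuous hκ) G) x‖ ≤
      η * ‖(F - G) x‖ := h3
    calc ‖(kapC κ (lip_continuous hκ) F - kapC κ (lip_continuous hκ) G) x‖ ^ 2 ≤
        (η * ‖(F - G) x‖) ^ 2 := pow_le_pow_left₀ (norm_nonneg _) h5 2
      _ = _ := by ring
  refine le_trans ?_ h2
  have h3 := sum_le_parseval (kapC κ (lip_continuous hκ) F - kapC κ (lip_continuous hκ) G)
    ((Finset.range N).image (fun k : ℕ => (k : ℤ) + 1))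
  rw [Finset.sum_image] at h3
  · refine le_trans (le_of_eq ?_) h3
    apply Finset.sum_congr rfl
    intro k _
    rw [← coeffCLM_apply, map_sub, coeffCLM_apply, coeffCLM_apply]
    rfl
  · intro a _ b _ hab
    have : (a : ℤ) + 1 = (b : ℤ) + 1 := hab
    omega

end Pool.Agent.H36.MA
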