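import Pool.Agent.H36.MA.Fixed2

set_option autoImplicit false

open Metric Set Filter Topology Real MeasureTheory AddCircle
open scoped NNReal ENNReal

noncomputable section

namespace Pool.Agent.H36.MA

abbrev L2 := lp (fun _ : ℕ => ℂ) 2

lemma L2_norm_sq (x : L2) : ‖x‖ ^ 2 = ∑' k, ‖x k‖ ^ 2 := by
  have h := lp.norm_rpow_eq_tsum (p := 2) (by norm_num) x
  simpa using h

lemma L2_dist_sq (x y : L2) : dist x y ^ 2 = ∑' k, ‖x k - y k‖ ^ 2 := by
  rw [dist_eq_norm, L2_norm_sq]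
  rfl

/-- Build an element of `ℓ²`. -/
def mkL2 (a : ℕ → ℂ) (ha : Summable fun k => ‖a k‖ ^ 2) : L2 :=
  ⟨a, memℓp_gen (by simpa using ha)⟩

lemma mkL2_apply (a : ℕ → ℂ) (ha : Summable fun k => ‖a k‖ ^ 2) (k : ℕ) : mkL2 a ha k = a k := rfl

/-- The complete set on which we solve the fixed point problem. -/
def SS : Set L2 := {x | WB (1 / 8) x}

lemma SS_closed : IsClosed SS := by
  have h1 : SS = ⋂ N : ℕ, {x : L2 | ∑ k ∈ Finset.range N, ((k : ℝ) + 1) ^ 2 * ‖x k‖ ^ 2 ≤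
      (1 / 8) ^ 2} := by
    ext x
    simp only [SS, WB, Set.mem_iInter, Set.mem_ofPred_eq]
  rw [h1]
  apply isClosed_iInter
  intro N
  apply isClosed_le _ continuous_const
  apply continuous_finsetSum
  intro k _
  have : Continuous fun x : L2 => x k := (lp.lipschitzWith_one_eval 2 k).continuous
  exact continuous_const.mul (this.norm.pow 2)

lemma Tmem {κ : ℂ × ℂ → ℂ} {η : ℝ} (hη : 0 ≤ η) (hη1 : η ≤ 1 / 10)
    (hκ : ∀ x y, ‖κ x - κ y‖ ≤ η * ‖x - y‖) (t : ℂ) {a : ℕ → ℂ} (ha : WB (1 / 8) a) :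
    WB (1 / 8) (Tco κ (lip_continuous hκ)
      (holT (cons t a) (cons_summable (ha.summable (by norm_num))))) :=
  Tco_WB hη hη1 hκ _ (fun τ => shift_holT ha (by norm_num) t τ)

/-- Solution of the nonlinear Riemann–Hilbert problem. -/
theorem exists_fixed {κ : ℂ × ℂ → ℂ} {η : ℝ} (hη : 0 ≤ η) (hη1 : η ≤ 1 / 10)
    (hκ : ∀ x y, ‖κ x - κ y‖ ≤ η * ‖x - y‖) (t : ℂ) :
    ∃ (a : ℕ → ℂ) (ha : WB (1 / 8) a), ∀ k, a k = Tco κ (lip_continuous hκ)
      (holT (cons t a) (cons_summable (ha.summable (by norm_num)))) k := by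
  have : CompleteSpace SS := SS_closed.completeSpace_coe
  have h0 : (0 : L2) ∈ SS := by
    intro N
    simp
  have : Nonempty SS := ⟨⟨0, h0⟩⟩
  let T : SS → SS := fun x =>
    ⟨mkL2 (Tco κ (lip_continuous hκ)
      (holT (cons t x.1) (cons_summable (x.2.summable (by norm_num)))))
      (Tmem hη hη1 hκ t x.2).summable_sq, Tmem hη hη1 hκ t x.2⟩
  have hT : ContractingWith (1 / 2) T := by
    refine ⟨by norm_num, ?_⟩
    apply LipschitzWith.of_dist_le_mul
    intro x y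
    have h1 : dist (T x) (T y) ^ 2 ≤ η ^ 2 * dist x y ^ 2 := by
      have e1 : dist (T x) (T y) = dist (T x).1 (T y).1 := rfl
      have e2 : dist x y = dist x.1 y.1 := rfl
      rw [e1, e2, L2_dist_sq, L2_dist_sq]
      apply Real.tsum_le_of_sum_range_le (fun _ => by positivity)
      intro N
      have h2 := Tco_sub hη hκ (by norm_num) x.2 y.2 t t N
      rw [sub_self, norm_zero, zero_pow two_ne_zero, zero_add] at h2
      exact h2
    have h2 : dist (T x) (T y) ≤ η * dist x y := by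
      have h3 : dist (T x) (T y) ^ 2 ≤ (η * dist x y) ^ 2 := by
        rw [mul_pow]; exact h1
      exact (pow_le_pow_iff_left₀ dist_nonneg (mul_nonneg hη dist_nonneg) two_ne_zero).1 h3
    refine h2.trans ?_
    have h4 : (((1 / 2 : ℝ≥0)) : ℝ) = 1 / 2 := by norm_num
    rw [h4]
    have := dist_nonneg (x := x) (y := y)
    nlinarith
  refine ⟨(hT.fixedPoint T).1, (hT.fixedPoint T).2, ?_⟩
  intro k
  have h1 := hT.fixedPoint_isFixedPt
  have h2 : (T (hT.fixedPoint T)).1 k = (hT.fixedPoint T).1 k := by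
    rw [h1]
  exact h2.symm

/-- Lipschitz dependence of the fixed point on `t`. -/
theorem fixed_dep {κ : ℂ × ℂ → ℂ} {η : ℝ} (hη : 0 ≤ η) (hη1 : η ≤ 1 / 10)
    (hκ : ∀ x y, ‖κ x - κ y‖ ≤ η * ‖x - y‖) {t t' : ℂ} {a b : ℕ → ℂ} (ha : WB (1 / 8) a)
    (hb : WB (1 / 8) b)
    (hfa : ∀ k, a k = Tco κ (lip_continuous hκ)
      (holT (cons t a) (cons_summable (ha.summable (by norm_num)))) k)
    (hfb : ∀ k, b k = Tco κ (lip_continuous hκ)
      (holT (cons t' b) (cons_summable (hb.summable (by norm_num)))) k) :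
    (Summable fun k => ‖a k - b k‖ ^ 2) ∧
    ∑' k, ‖a k - b k‖ ^ 2 ≤ 2 * η ^ 2 * ‖t - t'‖ ^ 2 := by
  have hs : Summable fun k => ‖a k - b k‖ ^ 2 := by
    apply Summable.of_nonneg_of_le (fun _ => by positivity) _
      ((ha.summable_sq.mul_left 2).add (hb.summable_sq.mul_left 2))
    intro k
    have h1 := norm_sub_le (a k) (b k)
    have h2 := norm_nonneg (a k - b k)
    nlinarith [sq_nonneg (‖a k‖ - ‖b k‖)]
  refine ⟨hs, ?_⟩
  have h1 : ∑' k, ‖a k - b k‖ ^ 2 ≤ η ^ 2 * (‖t - t'‖ ^ 2 + ∑' k, ‖a k - b k‖ ^ 2) := by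
    apply Real.tsum_le_of_sum_range_le (fun _ => by positivity)
    intro N
    have h2 := Tco_sub hη hκ (by norm_num) ha hb t t' N
    refine le_trans (le_of_eq ?_) h2
    apply Finset.sum_congr rfl
    intro k _
    rw [← hfa, ← hfb]
  have h2 : η ^ 2 ≤ 1 / 2 := by nlinarith
  have h3 : 0 ≤ ∑' k, ‖a k - b k‖ ^ 2 := tsum_nonneg (fun _ => by positivity)
  nlinarith

end Pool.Agent.H36.MA
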