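import Pool.Agent.H36.MA.Basic
import Pool.Agent.H36.MA.Defs

set_option autoImplicit false

open Metric Set Filter Topology Real

namespace Pool.Agent.H36.MA

/-- Sub-mean value property at `a` along the line with direction `b`. -/
def SubAt (u : ℂ × ℂ → ℝ) (a b : ℂ × ℂ) : Prop :=
  ∃ r₀ > 0, ∀ r : ℝ, 0 < r → r < r₀ →
    CircleIntegrable (fun ζ : ℂ => u (a + ζ • b)) 0 r ∧
    u a ≤ circleAverage (fun ζ : ℂ => u (a + ζ • b)) 0 r

lemma isPSH_iff {Ω : Set (ℂ × ℂ)} {u : ℂ × ℂ → ℝ} :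
    IsPSH Ω u ↔ UpperSemicontinuousOn u Ω ∧ ∀ a ∈ Ω, ∀ b : ℂ × ℂ, SubAt u a b := Iff.rfl

/-- Small circles on a complex line stay in a given neighbourhood. -/
lemma exists_radius {V : Set (ℂ × ℂ)} {a : ℂ × ℂ} (hV : V ∈ 𝓝 a) (b : ℂ × ℂ) :
    ∃ r₀ > 0, ∀ r : ℝ, 0 < r → r < r₀ → ∀ ζ ∈ closedBall (0 : ℂ) r, a + ζ • b ∈ V := by
  have h1 : Tendsto (fun ζ : ℂ => a + ζ • b) (𝓝 0) (𝓝 a) := by
    have : Continuous fun ζ : ℂ => a + ζ • b := by fun_prop
    have h := this.tendsto 0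
    simpa using h
  have h2 := h1 hV
  obtain ⟨r₀, hr₀, h3⟩ := Metric.nhds_basis_closedBall.mem_iff.1 (Filter.mem_map.1 h2)
  refine ⟨r₀, hr₀, fun r hr hr2 ζ hζ => ?_⟩
  exact h3 (closedBall_subset_closedBall hr2.le hζ)

lemma SubAt.congr {u v : ℂ × ℂ → ℝ} {a b : ℂ × ℂ} (h : u =ᶠ[𝓝 a] v) (hu : SubAt u a b) :
    SubAt v a b := by
  obtain ⟨r₁, hr₁, h1⟩ := hu
  obtain ⟨r₂, hr₂, h2⟩ := exists_radius h b
  refine ⟨min r₁ r₂, lt_min hr₁ hr₂, fun r hr hr2 => ?_⟩
  obtain ⟨h3, h4⟩ := h1 r hr (hr2.trans_le (min_le_left _ _))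
  have h5 := h2 r hr (hr2.trans_le (min_le_right _ _))
  have h6 : EqOn (fun ζ : ℂ => u (a + ζ • b)) (fun ζ : ℂ => v (a + ζ • b)) (sphere 0 |r|) := by
    intro ζ hζ
    rw [abs_of_pos hr] at hζ
    exact h5 ζ (sphere_subset_closedBall hζ)
  constructor
  · refine h3.congr ?_
    intro θ hθ
    apply h6
    simp [circleMap]
  · rw [← circleAverage_congr_sphere h6, ← h.self_of_nhds]
    exact h4

lemma SubAt.sup {u v : ℂ × ℂ → ℝ} {a b : ℂ × ℂ} (hu : SubAt u a b) (hv : SubAt v a b) :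
    SubAt (fun x => max (u x) (v x)) a b := by
  obtain ⟨r₁, hr₁, h1⟩ := hu
  obtain ⟨r₂, hr₂, h2⟩ := hv
  refine ⟨min r₁ r₂, lt_min hr₁ hr₂, fun r hr hr2 => ?_⟩
  obtain ⟨h3, h4⟩ := h1 r hr (hr2.trans_le (min_le_left _ _))
  obtain ⟨h5, h6⟩ := h2 r hr (hr2.trans_le (min_le_right _ _))
  have h7 : CircleIntegrable (fun ζ : ℂ => max (u (a + ζ • b)) (v (a + ζ • b))) 0 r := by
    unfold CircleIntegrable at *
    rw [intervalIntegrable_iff] at *
    exact h3.sup h5
  refine ⟨h7, ?_⟩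
  apply max_le
  · exact h4.trans (circleAverage_mono h3 h7 (fun _ _ => le_max_left _ _))
  · exact h6.trans (circleAverage_mono h5 h7 (fun _ _ => le_max_right _ _))

/-- Comparison with a continuous function satisfying the mean value property. -/
theorem touch {Ω : Set (ℂ × ℂ)} (hΩ : IsOpen Ω) {Φ u : ℂ × ℂ → ℝ} (hΦ : IsMaximalPSH Ω Φ)
    (hΦc : ContinuousOn Φ Ω) (hB : closedBall (0 : ℂ × ℂ) 1 ⊆ Ω)
    (huc : ContinuousOn u (closedBall (0 : ℂ × ℂ) 1))
    (hum : ∀ a ∈ ball (0 : ℂ × ℂ) 1, ∀ b : ℂ × ℂ, SubAt u a b)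
    (hbd : ∀ x ∈ sphere (0 : ℂ × ℂ) 1, u x ≤ Φ x) :
    ∀ x ∈ closedBall (0 : ℂ × ℂ) 1, u x ≤ Φ x := by
  classical
  -- it suffices to treat the open ball
  suffices h : ∀ x ∈ ball (0 : ℂ × ℂ) 1, u x ≤ Φ x by
    intro x hx
    by_cases hxs : x ∈ sphere (0 : ℂ × ℂ) 1
    · exact hbd x hxs
    · apply h
      rw [mem_ball]
      rw [mem_closedBall] at hx
      rw [mem_sphere] at hxs
      exact lt_of_le_of_ne hx hxs
  intro x0 hx0
  apply le_of_forall_pos_le_add
  intro ε hε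
  set v : ℂ × ℂ → ℝ := fun x => if x ∈ ball (0 : ℂ × ℂ) 1 then max (u x - ε) (Φ x) else Φ x with hv
  have hv1 : ∀ x ∈ ball (0 : ℂ × ℂ) 1, v =ᶠ[𝓝 x] fun y => max (u y - ε) (Φ y) := by
    intro x hx
    filter_upwards [isOpen_ball.mem_nhds hx] with y hy
    simp only [hv, if_pos hy]
  have hv2 : ∀ x ∈ Ω, x ∉ ball (0 : ℂ × ℂ) 1 → v =ᶠ[𝓝 x] Φ := by
    intro x hxΩ hx
    by_cases hxB : x ∈ closedBall (0 : ℂ × ℂ) 1
    · have hxs : x ∈ sphere (0 : ℂ × ℂ) 1 := by
        rw [mem_ball, not_lt] at hx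
        rw [mem_closedBall] at hxB
        rw [mem_sphere]
        exact le_antisymm hxB hx
      have h1 : ContinuousWithinAt (fun y => u y - Φ y) (closedBall (0 : ℂ × ℂ) 1) x :=
        (huc x hxB).sub ((hΦc.mono hB) x hxB)
      have h2 : ∀ᶠ y in 𝓝[closedBall (0 : ℂ × ℂ) 1] x, u y - Φ y < ε := by
        apply h1.eventually_lt_const
        have := hbd x hxs
        linarith
      rw [eventually_nhdsWithin_iff] at h2
      filter_upwards [h2] with y hy
      simp only [hv]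
      split_ifs with hyb
      · apply max_eq_right
        have := hy (ball_subset_closedBall hyb)
        linarith
      · rfl
    · have h1 : (closedBall (0 : ℂ × ℂ) 1)ᶜ ∈ 𝓝 x := isClosed_closedBall.isOpen_compl.mem_nhds hxB
      filter_upwards [h1] with y hy
      simp only [hv]
      rw [if_neg]
      intro hyb
      exact hy (ball_subset_closedBall hyb)
  have hpsh : IsPSH Ω v := by
    rw [isPSH_iff]
    constructor
    · apply ContinuousOn.upperSemicontinuousOn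
      intro x hx
      by_cases hxb : x ∈ ball (0 : ℂ × ℂ) 1
      · have h1 : ContinuousAt (fun y => max (u y - ε) (Φ y)) x := by
          have h2 : ContinuousAt u x :=
            (huc x (ball_subset_closedBall hxb)).continuousAt
              (mem_of_superset (isOpen_ball.mem_nhds hxb) ball_subset_closedBall)
          have h3 : ContinuousAt Φ x := (hΦc x hx).continuousAt (hΩ.mem_nhds hx)
          exact (h2.sub continuousAt_const).max h3
        exact (h1.congr (hv1 x hxb).symm).continuousWithinAt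
      · have h3 : ContinuousAt Φ x := (hΦc x hx).continuousAt (hΩ.mem_nhds hx)
        exact (h3.congr (hv2 x hx hxb).symm).continuousWithinAt
    · intro a ha b
      by_cases hab : a ∈ ball (0 : ℂ × ℂ) 1
      · apply SubAt.congr (hv1 a hab).symm
        apply SubAt.sup
        · obtain ⟨r₀, hr₀, h⟩ := hum a hab b
          refine ⟨r₀, hr₀, fun r hr hr2 => ?_⟩
          obtain ⟨h1, h2⟩ := h r hr hr2
          have hci : CircleIntegrable (fun _ : ℂ => ε) 0 r := circleIntegrable_const _ _ _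
          refine ⟨h1.sub hci, ?_⟩
          rw [circleAverage_fun_sub h1 hci, circleAverage_const]
          linarith
        · exact hΦ.1.2 a ha b
      · exact SubAt.congr (hv2 a ha hab).symm (hΦ.1.2 a ha b)
  have h1 := hΦ.2 v hpsh ⟨closedBall 0 1, isCompact_closedBall _ _, hB, ?_⟩ x0
    (hB (ball_subset_closedBall hx0))
  · have h2 : v x0 = max (u x0 - ε) (Φ x0) := by simp only [hv, if_pos hx0]
    rw [h2] at h1
    have := (le_max_left (u x0 - ε) (Φ x0)).trans h1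
    linarith
  · intro x hx
    simp only [hv]
    rw [if_neg]
    intro hxb
    exact hx.2 (ball_subset_closedBall hxb)

end Pool.Agent.H36.MA
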