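import Mathlib

set_option autoImplicit false

open Metric Set Filter Topology Real MeasureTheory AddCircle

noncomputable section

namespace Pool.Agent.H36.MA

instance factTwoPi : Fact (0 < 2 * π) := ⟨Real.two_pi_pos⟩

/-- The circle `ℝ / 2πℤ`. -/
abbrev TT := AddCircle (2 * π)

/-- The coordinate `e^{ix}`. -/
def zt (x : TT) : ℂ := fourier 1 x

lemma zt_norm (x : TT) : ‖zt x‖ = 1 := by
  rw [zt, fourier_apply]
  exact Circle.norm_coe _

lemma zt_continuous : Continuous zt := (fourier 1).continuous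

lemma fourier_nat (k : ℕ) (x : TT) : fourier (k : ℤ) x = (zt x) ^ k := by
  induction k with
  | zero => simp
  | succ k ih =>
    rw [Nat.cast_succ, fourier_add, ih, pow_succ, zt]

lemma fourier_neg_nat (k : ℕ) (x : TT) : fourier (-(k : ℤ)) x = (starRingEnd ℂ) ((zt x) ^ k) := by
  rw [fourier_neg, fourier_nat]

lemma exists_zt {z : ℂ} (hz : ‖z‖ = 1) : ∃ x : TT, zt x = z := by
  refine ⟨((Complex.arg z : ℝ) : TT), ?_⟩
  rw [zt, fourier_coe_apply]
  have h := Complex.norm_mul_exp_arg_mul_I z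
  rw [hz, Complex.ofReal_one, one_mul] at h
  have hpi : (π : ℂ) ≠ 0 := by exact_mod_cast Real.pi_ne_zero
  have e : 2 * (π : ℂ) * Complex.I * ((1 : ℤ) : ℂ) * ((Complex.arg z : ℝ) : ℂ) /
      ((2 * π : ℝ) : ℂ) = (Complex.arg z : ℂ) * Complex.I := by
    simp only [Int.cast_one, mul_one, Complex.ofReal_mul, Complex.ofReal_ofNat]
    field_simp
  rw [e]
  exact h

lemma zt_add_sub (x : TT) (τ : ℝ) : ‖zt (x + (τ : TT)) - zt x‖ ≤ |τ| := by
  have h1 : zt (x + (τ : TT)) = zt x * Complex.exp (τ * Complex.I) := by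
    have e1 : zt (x + (τ : TT)) = zt x * zt (τ : TT) := by
      simp only [zt, fourier_apply, one_smul, toCircle_add, Circle.coe_mul]
    rw [e1]
    congr 1
    rw [zt, fourier_coe_apply]
    congr 1
    simp only [Int.cast_one, mul_one, Complex.ofReal_mul, Complex.ofReal_ofNat]
    have hpi : (π : ℂ) ≠ 0 := by exact_mod_cast Real.pi_ne_zero
    field_simp
  rw [h1]
  have h2 : zt x * Complex.exp (τ * Complex.I) - zt x =
      zt x * (Complex.exp (τ * Complex.I) - 1) := by ring
  rw [h2, norm_mul, zt_norm, one_mul]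
  have := Real.norm_exp_I_mul_ofReal_sub_one_le (x := τ)
  rw [mul_comm]
  simpa using this

/-- Bounded linear functional taking the `n`-th Fourier coefficient. -/
def coeffCLM (n : ℤ) : C(TT, ℂ) →L[ℂ] ℂ :=
  (innerSL ℂ (fourierBasis (T := 2 * π) n)) ∘L (ContinuousMap.toLp (E := ℂ) 2 haarAddCircle ℂ)

lemma coeffCLM_apply (n : ℤ) (f : C(TT, ℂ)) : coeffCLM n f = fourierCoeff f n := by
  rw [← fourierCoeff_toLp, ← fourierBasis_repr, HilbertBasis.repr_apply_apply]
  rfl

lemma parseval (f : C(TT, ℂ)) :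
    HasSum (fun n : ℤ => ‖fourierCoeff f n‖ ^ 2) (∫ x, ‖f x‖ ^ 2 ∂haarAddCircle) := by
  have h := hasSum_sq_fourierCoeff (ContinuousMap.toLp (E := ℂ) 2 haarAddCircle ℂ f)
  simp_rw [fourierCoeff_toLp] at h
  convert h using 1
  apply integral_congr_ae
  filter_upwards [ContinuousMap.coeFn_toLp (p := 2) (𝕜 := ℂ) haarAddCircle f] with x hx
  rw [hx]

/-- Power series with coefficients `a`. -/
def hol (a : ℕ → ℂ) (z : ℂ) : ℂ := ∑' k, a k * z ^ k

lemma hol_summable {a : ℕ → ℂ} (ha : Summable fun k => ‖a k‖) {z : ℂ} (hz : ‖z‖ ≤ 1) :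
    Summable fun k => a k * z ^ k := by
  apply Summable.of_norm_bounded ha
  intro k
  rw [norm_mul, norm_pow]
  exact mul_le_of_le_one_right (norm_nonneg _) (pow_le_one₀ (norm_nonneg _) hz)

lemma hol_continuousOn {a : ℕ → ℂ} (ha : Summable fun k => ‖a k‖) :
    ContinuousOn (hol a) (closedBall 0 1) := by
  unfold hol
  apply continuousOn_tsum (u := fun k => ‖a k‖)
  · intro k
    fun_prop
  · exact ha
  · intro k z hz
    have hz' : ‖z‖ ≤ 1 := by simpa using hz
    rw [norm_mul, norm_pow]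
    exact mul_le_of_le_one_right (norm_nonneg _) (pow_le_one₀ (norm_nonneg _) hz')

lemma hol_differentiableOn {a : ℕ → ℂ} (ha : Summable fun k => ‖a k‖) :
    DifferentiableOn ℂ (hol a) (ball 0 1) := by
  unfold hol
  apply Complex.differentiableOn_tsum_of_summable_norm ha
  · intro k
    fun_prop
  · exact isOpen_ball
  · intro k z hz
    have hz' : ‖z‖ ≤ 1 := by
      have : ‖z‖ < 1 := by simpa using hz
      exact this.le
    rw [norm_mul, norm_pow]
    exact mul_le_of_le_one_right (norm_nonneg _) (pow_le_one₀ (norm_nonneg _) hz')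

lemma hol_zero (a : ℕ → ℂ) : hol a 0 = a 0 := by
  unfold hol
  rw [tsum_eq_single 0]
  · simp
  · intro k hk
    simp [hk]

lemma hol_norm_le {a : ℕ → ℂ} (ha : Summable fun k => ‖a k‖) {z : ℂ} (hz : ‖z‖ ≤ 1) :
    ‖hol a z‖ ≤ ∑' k, ‖a k‖ := by
  unfold hol
  apply tsum_of_norm_bounded ha.hasSum
  intro k
  rw [norm_mul, norm_pow]
  exact mul_le_of_le_one_right (norm_nonneg _) (pow_le_one₀ (norm_nonneg _) hz)

/-- `hol a` on the circle, as a continuous map. -/
def holT (a : ℕ → ℂ) (ha : Summable fun k => ‖a k‖) : C(TT, ℂ) where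
  toFun x := hol a (zt x)
  continuous_toFun := (hol_continuousOn ha).comp_continuous zt_continuous
    (fun x => by simp [zt_norm])

lemma holT_hasSum (a : ℕ → ℂ) (ha : Summable fun k => ‖a k‖) :
    HasSum (fun k : ℕ => a k • (fourier (k : ℤ) : C(TT, ℂ))) (holT a ha) := by
  have h1 : Summable (fun k : ℕ => a k • (fourier (k : ℤ) : C(TT, ℂ))) := by
    apply Summable.of_norm
    simpa [norm_smul, fourier_norm] using ha
  have h2 := h1.hasSum
  convert h2 using 1
  ext x
  have h3 := (ContinuousMap.evalCLM ℂ x).hasSum h2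
  have h4 : HasSum (fun k : ℕ => a k * zt x ^ k) (hol a (zt x)) :=
    (hol_summable ha (zt_norm x).le).hasSum
  refine h4.unique ?_
  convert h3 using 2 with k
  · simp [fourier_nat, -fourier_apply]
  · rfl

lemma coeff_holT (a : ℕ → ℂ) (ha : Summable fun k => ‖a k‖) (n : ℤ) :
    fourierCoeff (holT a ha) n = if 0 ≤ n then a n.toNat else 0 := by
  rw [← coeffCLM_apply]
  have h := (coeffCLM n).hasSum (holT_hasSum a ha)
  have h2 : HasSum (fun k : ℕ => a k * (Pi.single (k : ℤ) (1 : ℂ) : ℤ → ℂ) n)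
      (coeffCLM n (holT a ha)) := by
    convert h using 2 with k
    rw [map_smul, coeffCLM_apply, fourierCoeff_fourier, smul_eq_mul]
  refine h2.unique ?_
  split_ifs with hn
  · obtain ⟨m, rfl⟩ := Int.eq_ofNat_of_zero_le hn
    convert hasSum_single m _ using 1
    · simp
    · intro k hk
      have : (m : ℤ) ≠ (k : ℤ) := by exact_mod_cast hk.symm
      simp [Pi.single_eq_of_ne this]
  · convert hasSum_zero using 1
    ext k
    have : n ≠ (k : ℤ) := by omega
    simp [Pi.single_eq_of_ne this]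

lemma coeff_shift (f : TT → ℂ) (τ : TT) (n : ℤ) :
    fourierCoeff (fun x => f (x + τ)) n = fourier n τ * fourierCoeff f n := by
  unfold fourierCoeff
  rw [← integral_add_right_eq_self (μ := haarAddCircle)
    (fun x => fourier (-n) x • f x) τ, ← integral_const_mul]
  apply integral_congr_ae
  apply Filter.Eventually.of_forall
  intro x
  simp only [smul_eq_mul]
  have h1 : fourier n τ * fourier (-n) (x + τ) = (fourier (-n) x : ℂ) := by
    have e1 : (fourier (-n) (x + τ) : ℂ) = fourier (-n) x * fourier (-n) τ := by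
      simp only [fourier_apply, smul_add, toCircle_add, Circle.coe_mul]
    rw [e1]
    have e2 : (fourier n τ : ℂ) * fourier (-n) τ = 1 := by
      rw [← fourier_add]
      simp
    calc fourier n τ * (fourier (-n) x * fourier (-n) τ) =
        fourier (-n) x * (fourier n τ * fourier (-n) τ) := by ring
      _ = _ := by rw [e2, mul_one]
  rw [← mul_assoc, h1]

end Pool.Agent.H36.MA
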