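import Pool.Agent.H36.MA.Local

set_option autoImplicit false

open Metric Set Filter Topology Real MeasureTheory AddCircle
open scoped NNReal ENNReal

noncomputable section

namespace Pool.Agent.H36.MA

namespace LocalData

variable {Ω : Set (ℂ × ℂ)} {Φ : ℂ × ℂ → ℝ} {ε' : ℂ × ℂ → (ℂ × ℂ →L[ℝ] ℝ)} {η : ℝ}

/-- `Φ` is Lipschitz on the closed bidisc. -/
lemma lipΦ (D : LocalData Ω Φ ε' η) {x y : ℂ × ℂ} (hx : x ∈ BB) (hy : y ∈ BB) :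
    |Φ y - Φ x| ≤ (‖ε' 0‖ + 3) * ‖y - x‖ := by
  have h1 := D.tay hx hy
  have h0 : (0 : ℂ × ℂ) ∈ BB := mem_closedBall_self zero_le_one
  have hxn : ‖x‖ ≤ 1 := by simpa using hx
  have hyn : ‖y‖ ≤ 1 := by simpa using hy
  have h2 : ‖ε' x‖ ≤ ‖ε' 0‖ + η := by
    have h3 := D.lip x hx 0 h0
    have h4 : ‖ε' x‖ ≤ ‖ε' x - ε' 0‖ + ‖ε' 0‖ := by
      calc ‖ε' x‖ = ‖(ε' x - ε' 0) + ε' 0‖ := by rw [sub_add_cancel]
        _ ≤ _ := norm_add_le _ _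
    have h5 : η * ‖x - 0‖ ≤ η := by
      rw [sub_zero]
      exact mul_le_of_le_one_right D.η0 hxn
    linarith
  have h3 : |ε' x (y - x)| ≤ (‖ε' 0‖ + η) * ‖y - x‖ := by
    rw [← Real.norm_eq_abs]
    refine ((ε' x).le_opNorm _).trans ?_
    gcongr
  have hyx : ‖y - x‖ ≤ 2 := by
    refine (norm_sub_le _ _).trans ?_
    linarith
  have h4 : |‖y.2‖ ^ 2 - ‖x.2‖ ^ 2| ≤ 2 * ‖y - x‖ := by
    have e : ‖y.2‖ ^ 2 - ‖x.2‖ ^ 2 = (‖y.2‖ + ‖x.2‖) * (‖y.2‖ - ‖x.2‖) := by ring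
    rw [e, abs_mul]
    have h5 : |‖y.2‖ - ‖x.2‖| ≤ ‖y - x‖ := by
      refine (abs_norm_sub_norm_le _ _).trans ?_
      rw [← Prod.snd_sub]
      exact norm_snd_le _
    have h6 : |‖y.2‖ + ‖x.2‖| ≤ 2 := by
      rw [abs_of_nonneg (by positivity)]
      have := (norm_snd_le x).trans hxn
      have := (norm_snd_le y).trans hyn
      linarith
    gcongr
  have h5 : η * ‖y - x‖ ^ 2 ≤ 2 * η * ‖y - x‖ := by
    have := D.η0
    have h6 : ‖y - x‖ ^ 2 ≤ 2 * ‖y - x‖ := by nlinarith [norm_nonneg (y - x)]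
    calc η * ‖y - x‖ ^ 2 ≤ η * (2 * ‖y - x‖) := by gcongr
      _ = _ := by ring
  have hn := norm_nonneg (y - x)
  have hη := D.η1
  have hη0 := D.η0
  have h6 : 3 * η * ‖y - x‖ ≤ 1 * ‖y - x‖ := by
    apply mul_le_mul_of_nonneg_right _ hn
    linarith
  rw [abs_le] at h1 h3 h4 ⊢
  constructor
  · nlinarith [h1.1, h1.2, h3.1, h3.2, h4.1, h4.2]
  · nlinarith [h1.1, h1.2, h3.1, h3.2, h4.1, h4.2]

/-- Uniform first order expansion near a point. -/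
lemma expand (D : LocalData Ω Φ ε' η) {p0 : ℂ × ℂ} (hp : p0 ∈ BB) :
    ∃ L0 : ℂ × ℂ →L[ℝ] ℝ, ∀ x ∈ BB, ∀ y ∈ BB,
      |Φ y - Φ x - L0 (y - x)| ≤ 4 * (‖x - p0‖ + ‖y - p0‖) * ‖y - x‖ := by
  let Λ : ℂ × ℂ →L[ℝ] ℝ := (Complex.reCLM.comp
    ((ContinuousLinearMap.mul ℝ ℂ ((starRingEnd ℂ) p0.2)))).comp (ContinuousLinearMap.snd ℝ ℂ ℂ)
  have hΛ : ∀ v : ℂ × ℂ, Λ v = ((starRingEnd ℂ) p0.2 * v.2).re := fun v => rfl
  refine ⟨ε' p0 + (2 : ℝ) • Λ, fun x hx y hy => ?_⟩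
  have h1 := D.tay hx hy
  have h2 : |(ε' x - ε' p0) (y - x)| ≤ η * ‖x - p0‖ * ‖y - x‖ := by
    rw [← Real.norm_eq_abs]
    refine ((ε' x - ε' p0).le_opNorm _).trans ?_
    gcongr
    exact D.lip x hx p0 hp
  have h3 := normSq_expand x.2 y.2
  have hyx : ‖y - x‖ ≤ ‖x - p0‖ + ‖y - p0‖ := by
    have : y - x = (y - p0) - (x - p0) := by ring
    rw [this]
    refine (norm_sub_le _ _).trans ?_
    linarith
  have h4 : |2 * ((starRingEnd ℂ) (x.2 - p0.2) * (y.2 - x.2)).re| ≤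
      2 * ‖x - p0‖ * ‖y - x‖ := by
    rw [abs_mul]
    have e2 : |(2 : ℝ)| = 2 := by norm_num
    rw [e2, mul_assoc]
    gcongr
    refine (Complex.abs_re_le_norm _).trans ?_
    rw [norm_mul, Complex.norm_conj]
    gcongr
    · rw [← Prod.snd_sub]; exact norm_snd_le _
    · rw [← Prod.snd_sub]; exact norm_snd_le _
  have h5 : ‖y.2 - x.2‖ ^ 2 ≤ (‖x - p0‖ + ‖y - p0‖) * ‖y - x‖ := by
    have : ‖y.2 - x.2‖ ≤ ‖y - x‖ := by rw [← Prod.snd_sub]; exact norm_snd_le _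
    nlinarith [norm_nonneg (y - x), norm_nonneg (y.2 - x.2)]
  have h5' : 0 ≤ ‖y.2 - x.2‖ ^ 2 := by positivity
  have e3 : (ε' p0 + (2 : ℝ) • Λ) (y - x) = ε' p0 (y - x) +
      2 * ((starRingEnd ℂ) p0.2 * (y.2 - x.2)).re := by
    simp only [add_apply, smul_apply, hΛ, smul_eq_mul, Prod.snd_sub]
  have e4 : ((starRingEnd ℂ) (x.2 - p0.2) * (y.2 - x.2)).re =
      ((starRingEnd ℂ) x.2 * (y.2 - x.2)).re - ((starRingEnd ℂ) p0.2 * (y.2 - x.2)).re := by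
    rw [map_sub, sub_mul, Complex.sub_re]
  have e5 : (ε' x - ε' p0) (y - x) = ε' x (y - x) - ε' p0 (y - x) := by
    rw [sub_apply]
  rw [e3]
  rw [e4] at h4
  rw [e5] at h2
  have h6 : η * ‖y - x‖ ^ 2 ≤ (1 / 20) * ((‖x - p0‖ + ‖y - p0‖) * ‖y - x‖) := by
    have hη := D.η1
    have hη0 := D.η0
    have h7 : ‖y - x‖ ^ 2 ≤ (‖x - p0‖ + ‖y - p0‖) * ‖y - x‖ := by
      nlinarith [norm_nonneg (y - x)]
    calc η * ‖y - x‖ ^ 2 ≤ (1 / 20) * ‖y - x‖ ^ 2 := by gcongr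
      _ ≤ _ := by gcongr
  have h8 : η * ‖x - p0‖ * ‖y - x‖ ≤ (1 / 20) * ((‖x - p0‖ + ‖y - p0‖) * ‖y - x‖) := by
    have hη := D.η1
    have hη0 := D.η0
    rw [mul_assoc]
    gcongr
    linarith [norm_nonneg (y - p0)]
  have h9 : 2 * ‖x - p0‖ * ‖y - x‖ ≤ 2 * ((‖x - p0‖ + ‖y - p0‖) * ‖y - x‖) := by
    rw [mul_assoc]
    gcongr
    linarith [norm_nonneg (y - p0)]
  have h10 : 0 ≤ (‖x - p0‖ + ‖y - p0‖) * ‖y - x‖ := by positivity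
  rw [abs_le] at h1 h2 h4 ⊢
  constructor
  · nlinarith [h1.1, h1.2, h2.1, h2.2, h4.1, h4.2]
  · nlinarith [h1.1, h1.2, h2.1, h2.2, h4.1, h4.2]

end LocalData

end Pool.Agent.H36.MA
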