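import Pool.Agent.H36.MA.Leaf

set_option autoImplicit false

open Metric Set Filter Topology Real MeasureTheory AddCircle
open scoped NNReal ENNReal

noncomputable section

namespace Pool.Agent.H36.MA

lemma LL_holT {t : ℂ} {a : ℕ → ℂ} (ha : WB (1 / 8) a) (hc : Summable fun k => ‖cons t a k‖) :
    LL (holT (cons t a) hc) :=
  ⟨1 / 8, by norm_num, fun τ => shift_holT ha (by norm_num) t τ⟩

lemma leaf_bound {t : ℂ} (ht : ‖t‖ ≤ 1 / 4) {a : ℕ → ℂ} (ha : WB (1 / 8) a) {z : ℂ}
    (hz : ‖z‖ ≤ 1) : ‖hol (cons t a) z‖ ≤ 7 / 16 := by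
  have hs := ha.summable (by norm_num)
  refine (hol_norm_le (cons_summable hs) hz).trans ?_
  rw [(cons_summable (t := t) hs).tsum_eq_zero_add]
  have h1 := ha.tsum_le (by norm_num)
  simp only [cons_zero, cons_succ]
  linarith

namespace LocalData

variable {Ω : Set (ℂ × ℂ)} {Φ : ℂ × ℂ → ℝ} {ε' : ℂ × ℂ → (ℂ × ℂ →L[ℝ] ℝ)} {η : ℝ}

/-- The main step: the solution of the Riemann–Hilbert problem is a leaf. -/
theorem leaf (D : LocalData Ω Φ ε' η) {κ : ℂ × ℂ → ℂ}
    (hκL : ∀ x y, ‖κ x - κ y‖ ≤ η * ‖x - y‖)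
    (hκ : ∀ x ∈ BB, κ x = -(1 / 2) * ((ε' x (0, 1) : ℂ) + (ε' x (0, Complex.I) : ℂ) * Complex.I))
    {t : ℂ} (ht : ‖t‖ ≤ 1 / 4) {a : ℕ → ℂ} (ha : WB (1 / 8) a)
    (hfa : ∀ k, a k = Tco κ (lip_continuous hκL)
      (holT (cons t a) (cons_summable (ha.summable (by norm_num)))) k) :
    ∃ G : ℂ → ℂ, DifferentiableOn ℂ G (ball 0 1) ∧
      ∀ z ∈ ball (0 : ℂ) 1, Φ (z, hol (cons t a) z) = (G z).re := by
  have hη0 := D.η0
  have hη1 := D.η1
  have hc : Summable fun k => ‖cons t a k‖ := cons_summable (ha.summable (by norm_num))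
  set h := hol (cons t a) with hh
  set F := holT (cons t a) hc with hF
  have hFx : ∀ x, F x = h (zt x) := fun x => rfl
  have hFn : ∀ x, ‖F x‖ ≤ 7 / 16 := fun x => leaf_bound ht ha (zt_norm x).le
  have hBx : ∀ x, ((zt x, F x) : ℂ × ℂ) ∈ BB := fun x =>
    mem_BB.2 ⟨(zt_norm x).le, (hFn x).trans (by norm_num)⟩
  have hLLF : LL F := LL_holT ha hc
  -- the function q
  set W : C(TT, ℂ) := F - kapC κ (lip_continuous hκL) F with hW
  have hWx : ∀ x, W x = F x - κ (zt x, F x) := fun x => rfl
  set q : C(TT, ℂ) := ⟨fun x => (starRingEnd ℂ) (W x), by fun_prop⟩ with hq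
  have hqx : ∀ x, q x = (starRingEnd ℂ) (F x - κ (zt x, F x)) := fun x => rfl
  have hnormp : ∀ (τ : ℝ) (x : TT), ‖((zt (x + (τ : TT)), F (x + (τ : TT))) : ℂ × ℂ) - (zt x, F x)‖ ≤
      |τ| + ‖F (x + (τ : TT)) - F x‖ := by
    intro τ x
    rw [Prod.mk_sub_mk, Prod.norm_mk]
    apply max_le
    · have := zt_add_sub x τ
      linarith [norm_nonneg (F (x + (τ : TT)) - F x)]
    · linarith [abs_nonneg τ]
  have hLLq : LL q := by
    apply LL_of_bound hLLF hLLF (C := 2) (by norm_num)
    intro τ x
    rw [hqx, hqx, ← map_sub, Complex.norm_conj]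
    have e : F (x + (τ : TT)) - κ (zt (x + (τ : TT)), F (x + (τ : TT))) - (F x - κ (zt x, F x)) =
        (F (x + (τ : TT)) - F x) - (κ (zt (x + (τ : TT)), F (x + (τ : TT))) - κ (zt x, F x)) := by
      ring
    rw [e]
    refine (norm_sub_le _ _).trans ?_
    have h1 := hκL (zt (x + (τ : TT)), F (x + (τ : TT))) (zt x, F x)
    have h2 := hnormp τ x
    have h3 : η * ‖((zt (x + (τ : TT)), F (x + (τ : TT))) : ℂ × ℂ) - (zt x, F x)‖ ≤
        1 * (|τ| + ‖F (x + (τ : TT)) - F x‖) := by
      gcongr
      linarith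
    have h4 := norm_nonneg (F (x + (τ : TT)) - F x)
    have h5 := abs_nonneg τ
    linarith
  have hq0 : ∀ k : ℕ, fourierCoeff q (-((k : ℤ) + 1)) = 0 := by
    intro k
    have h1 : fourierCoeff q (-((k : ℤ) + 1)) = (starRingEnd ℂ) (fourierCoeff W ((k : ℤ) + 1)) := by
      have := coeff_conj W (-((k : ℤ) + 1))
      rw [neg_neg] at this
      exact this
    rw [h1, ← coeffCLM_apply, hW, map_sub, coeffCLM_apply, coeffCLM_apply, hF, coeff_holT]
    have h2 : (0 : ℤ) ≤ (k : ℤ) + 1 := by omega
    have h3 : ((k : ℤ) + 1).toNat = k + 1 := by omega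
    rw [if_pos h2, h3, cons_succ]
    have h4 := hfa k
    unfold Tco at h4
    rw [← h4, sub_self, map_zero]
  obtain ⟨cQ, hcQ, hQ⟩ := exists_hol hLLq hq0
  set Q := hol cQ with hQdef
  -- the function f
  have hΦcont : Continuous fun x : TT => Φ (zt x, F x) :=
    D.cont.comp_continuous (zt_continuous.prodMk F.continuous) (fun x => D.sub (hBx x))
  set f : C(TT, ℂ) := ⟨fun x => ((Φ (zt x, F x) - 2 * (q x * F x).re : ℝ) : ℂ), by
    apply Complex.continuous_ofReal.comp
    apply hΦcont.sub
    apply continuous_const.mul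
    exact Complex.continuous_re.comp (q.continuous.mul F.continuous)⟩ with hf
  have hfx : ∀ x, (f x) = ((Φ (zt x, F x) - 2 * (q x * F x).re : ℝ) : ℂ) := fun x => rfl
  have hLLf : LL f := by
    apply LL_of_bound hLLF hLLq (C := ‖ε' 0‖ + 3 + 2 * ‖q‖ + 2) (by positivity)
    intro τ x
    rw [hfx, hfx, ← Complex.ofReal_sub, Complex.norm_real, Real.norm_eq_abs]
    set y := x + (τ : TT) with hy
    have h1 := D.lipΦ (hBx x) (hBx y)
    have h2 := hnormp τ x
    have h3 : |(q y * F y).re - (q x * F x).re| ≤ ‖q‖ * ‖F y - F x‖ + ‖q y - q x‖ := by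
      rw [← Complex.sub_re]
      refine (Complex.abs_re_le_norm _).trans ?_
      have e : q y * F y - q x * F x = q y * (F y - F x) + (q y - q x) * F x := by ring
      rw [e]
      refine (norm_add_le _ _).trans ?_
      rw [norm_mul, norm_mul]
      apply add_le_add
      · gcongr
        exact q.norm_coe_le_norm y
      · apply mul_le_of_le_one_right (norm_nonneg _)
        exact (hFn x).trans (by norm_num)
    have e : Φ (zt y, F y) - 2 * (q y * F y).re - (Φ (zt x, F x) - 2 * (q x * F x).re) =
        (Φ (zt y, F y) - Φ (zt x, F x)) - 2 * ((q y * F y).re - (q x * F x).re) := by ring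
    rw [e]
    refine (abs_sub _ _).trans ?_
    rw [abs_mul, abs_of_pos (by norm_num : (0 : ℝ) < 2)]
    have h4 : (‖ε' 0‖ + 3) * ‖((zt y, F y) : ℂ × ℂ) - (zt x, F x)‖ ≤
        (‖ε' 0‖ + 3) * (|τ| + ‖F y - F x‖) := by gcongr
    have n1 := norm_nonneg (F y - F x)
    have n2 := norm_nonneg (q y - q x)
    have n3 := abs_nonneg τ
    have n4 := norm_nonneg q
    have n5 := norm_nonneg (ε' 0)
    nlinarith [mul_nonneg n4 n3, mul_nonneg n4 n2, mul_nonneg n5 n2, mul_nonneg n5 n3]
  obtain ⟨cA, hcA, hA⟩ := exists_hol_re hLLf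
  set A := hol cA with hAdef
  -- holomorphy
  have hQc := hol_continuousOn hcQ
  have hAc := hol_continuousOn hcA
  have hhc := hol_continuousOn hc
  have hQd := hol_differentiableOn hcQ
  have hAd := hol_differentiableOn hcA
  have hhd := hol_differentiableOn hc
  set u : ℂ × ℂ → ℝ := fun p => (2 * Q p.1 * p.2 + A p.1).re with hu
  -- boundary inequality on |z| = 1
  have hB1 : ∀ x : TT, ∀ w : ℂ, ‖w‖ ≤ 1 → u (zt x, w) ≤ Φ (zt x, w) - (1 - η) * ‖w - F x‖ ^ 2 := by
    intro x w hw
    have h1 := D.fibre hκ (zt_norm x).le ((hFn x).trans (by norm_num : (7 : ℝ) / 16 ≤ 1)) hw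
    have h2 := (abs_le.1 h1).1
    have h3 : u (zt x, w) = 2 * (q x * w).re + (Φ (zt x, F x) - 2 * (q x * F x).re) := by
      have h4 := hA x
      rw [hfx, Complex.ofReal_re] at h4
      simp only [hu]
      rw [Complex.add_re, ← h4, ← hQ x]
      have : (2 * q x * w).re = 2 * (q x * w).re := by
        rw [mul_assoc, Complex.mul_re]
        simp
      rw [this]
    rw [h3]
    have h5 : ((starRingEnd ℂ) (F x - κ (zt x, F x)) * (w - F x)).re =
        (q x * w).re - (q x * F x).re := by
      rw [← hqx, mul_sub, Complex.sub_re]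
    rw [h5] at h2
    linarith
  -- u on lines
  have hud : ∀ a ∈ ball (0 : ℂ × ℂ) 1, ∀ b : ℂ × ℂ, SubAt u a b := by
    intro p hp b
    obtain ⟨r₀, hr₀, hr⟩ := exists_radius (isOpen_ball.mem_nhds hp) b
    refine ⟨r₀, hr₀, fun r hr1 hr2 => ?_⟩
    have h1 := hr r hr1 hr2
    have h1' : ∀ ζ ∈ closedBall (0 : ℂ) r, (p + ζ • b).1 ∈ ball (0 : ℂ) 1 := by
      intro ζ hζ
      have := h1 ζ hζ
      rw [mem_ball, dist_zero_right, Prod.norm_def] at this
      rw [mem_ball, dist_zero_right]
      exact (le_max_left _ _).trans_lt this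
    have hd : DifferentiableOn ℂ (fun ζ : ℂ => 2 * Q (p + ζ • b).1 * (p + ζ • b).2 +
        A (p + ζ • b).1) (closedBall 0 |r|) := by
      rw [abs_of_pos hr1]
      have hl : DifferentiableOn ℂ (fun ζ : ℂ => (p + ζ • b).1) (closedBall 0 r) := by
        have : (fun ζ : ℂ => (p + ζ • b).1) = fun ζ : ℂ => p.1 + ζ * b.1 := by
          ext ζ; simp
        rw [this]
        fun_prop
      have hl2 : DifferentiableOn ℂ (fun ζ : ℂ => (p + ζ • b).2) (closedBall 0 r) := by
        have : (fun ζ : ℂ => (p + ζ • b).2) = fun ζ : ℂ => p.2 + ζ * b.2 := by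
          ext ζ; simp
        rw [this]
        fun_prop
      have hQl := hQd.comp hl h1'
      have hAl := hAd.comp hl h1'
      exact ((hQl.const_mul 2).mul hl2).add hAl
    have hci : CircleIntegrable (fun ζ : ℂ => u (p + ζ • b)) 0 r := by
      apply ContinuousOn.circleIntegrable'
      exact Complex.continuous_re.comp_continuousOn (hd.continuousOn.mono sphere_subset_closedBall)
    refine ⟨hci, le_of_eq ?_⟩
    have h2 := circleAverage_re hd
    have e : (fun ζ : ℂ => u (p + ζ • b)) = fun ζ : ℂ => (2 * Q (p + ζ • b).1 * (p + ζ • b).2 +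
        A (p + ζ • b).1).re := rfl
    rw [e, h2]
    simp [hu]
  have huc : ContinuousOn u BB := by
    have h1 : ContinuousOn (fun p : ℂ × ℂ => Q p.1) BB := by
      apply hQc.comp continuous_fst.continuousOn
      intro p hp
      have : p ∈ BB := hp
      rw [mem_closedBall, dist_zero_right, Prod.norm_def] at this
      rw [mem_closedBall, dist_zero_right]
      exact (le_max_left _ _).trans this
    have h2 : ContinuousOn (fun p : ℂ × ℂ => A p.1) BB := by
      apply hAc.comp continuous_fst.continuousOn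
      intro p hp
      have : p ∈ BB := hp
      rw [mem_closedBall, dist_zero_right, Prod.norm_def] at this
      rw [mem_closedBall, dist_zero_right]
      exact (le_max_left _ _).trans this
    apply Complex.continuous_re.comp_continuousOn
    exact ((continuousOn_const.mul h1).mul continuous_snd.continuousOn).add h2
  -- lateral boundary inequality
  have hB2 : ∀ z w : ℂ, ‖z‖ ≤ 1 → ‖w‖ = 1 → u (z, w) ≤ Φ (z, w) := by
    intro z w hz hw
    have hmp : ∀ z ∈ closedBall (0 : ℂ) 1, u (z, w) - Φ (z, w) + η * ‖z‖ ^ 2 ≤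
        η - (1 - η) / 4 := by
      apply max_principle
      · have h1 : ContinuousOn (fun z : ℂ => ((z, w) : ℂ × ℂ)) (closedBall 0 1) := by fun_prop
        have h2 : MapsTo (fun z : ℂ => ((z, w) : ℂ × ℂ)) (closedBall 0 1) BB := by
          intro z hz
          exact mem_BB.2 ⟨by simpa using hz, hw.le⟩
        have h3 := huc.comp h1 h2
        have h4 := (D.cont.mono D.sub).comp h1 h2
        exact (h3.sub h4).add (by fun_prop)
      · intro z0 hz0 τ hτ
        have hz0n : ‖z0‖ < 1 := by simpa using hz0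
        have h0 : ∀ᶠ r in 𝓝[>] (0 : ℝ), 0 < r := self_mem_nhdsWithin
        have h1 : ∀ᶠ r in 𝓝[>] (0 : ℝ), r < 1 - ‖z0‖ :=
          nhdsWithin_le_nhds (Iio_mem_nhds (by linarith))
        filter_upwards [h0, h1] with r hr0 hr1
        have hin : ∀ z ∈ closedBall z0 r, ‖z‖ < 1 := by
          intro z hz
          have h2 : ‖z - z0‖ ≤ r := by simpa [dist_eq_norm] using hz
          calc ‖z‖ = ‖z0 + (z - z0)‖ := by ring_nf
            _ ≤ ‖z0‖ + ‖z - z0‖ := norm_add_le _ _
            _ < 1 := by linarith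
        -- lower bound on the circle
        let Lz : ℂ →L[ℝ] ℝ := (ε' (z0, w)).comp (ContinuousLinearMap.inl ℝ ℂ ℂ)
        have hlow : ∀ z ∈ sphere z0 |r|, u (z, w) - Φ (z0, w) - Lz (z - z0) - η * r ^ 2 +
            η * ‖z‖ ^ 2 ≤ u (z, w) - Φ (z, w) + η * ‖z‖ ^ 2 := by
          intro z hz
          rw [abs_of_pos hr0] at hz
          have hzr : ‖z - z0‖ = r := by simpa [dist_eq_norm] using hz
          have h2 := D.tay (mem_BB.2 ⟨hz0n.le, hw.le⟩)
            (mem_BB.2 ⟨(hin z (sphere_subset_closedBall hz)).le, hw.le⟩)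
          have e1 : ((z, w) : ℂ × ℂ) - (z0, w) = (z - z0, 0) := by simp
          rw [e1] at h2
          have e2 : ‖((z - z0, 0) : ℂ × ℂ)‖ = r := by
            rw [Prod.norm_mk, norm_zero, hzr]; exact max_eq_left hr0.le
          rw [e2] at h2
          have h3 : Lz (z - z0) = ε' (z0, w) (z - z0, 0) := rfl
          rw [h3]
          have h4 := (abs_le.1 h2).2
          simp only at h4
          linarith
        have hL0 : circleAverage (fun z => Lz (z - z0)) z0 r = 0 := by
          have h2 : CircleIntegrable (fun z : ℂ => z - z0) z0 r := by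
            apply ContinuousOn.circleIntegrable'
            fun_prop
          have h3 := ContinuousLinearMap.circleAverage_comp_comm Lz h2
          have h4 : (Lz : ℂ → ℝ) ∘ (fun z => z - z0) = fun z => Lz (z - z0) := rfl
          rw [h4] at h3
          rw [h3]
          have h5 : circleAverage (fun z : ℂ => z - z0) z0 r = 0 := by
            have h6 : DiffContOnCl ℂ (fun z : ℂ => z - z0) (ball z0 |r|) := by
              apply Differentiable.diffContOnCl
              fun_prop
            rw [h6.circleAverage, sub_self]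
          rw [h5, map_zero]
        have huline : circleAverage (fun z => u (z, w)) z0 r = u (z0, w) := by
          have hd : DifferentiableOn ℂ (fun z : ℂ => 2 * Q z * w + A z) (closedBall z0 |r|) := by
            rw [abs_of_pos hr0]
            have hsub : closedBall z0 r ⊆ ball (0 : ℂ) 1 := by
              intro z hz
              simpa using hin z hz
            exact (((hQd.mono hsub).const_mul 2).mul (differentiableOn_const _)).add (hAd.mono hsub)
          exact circleAverage_re hd
        have hucirc : ContinuousOn (fun z => u (z, w)) (sphere z0 |r|) := by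
          apply huc.comp (by fun_prop)
          intro z hz
          rw [abs_of_pos hr0] at hz
          exact mem_BB.2 ⟨(hin z (sphere_subset_closedBall hz)).le, hw.le⟩
        have hΦcirc : ContinuousOn (fun z => Φ (z, w)) (sphere z0 |r|) := by
          apply (D.cont.mono D.sub).comp (by fun_prop)
          intro z hz
          rw [abs_of_pos hr0] at hz
          exact mem_BB.2 ⟨(hin z (sphere_subset_closedBall hz)).le, hw.le⟩
        have i1 : CircleIntegrable (fun z => u (z, w)) z0 r := hucirc.circleIntegrable'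
        have i2 : CircleIntegrable (fun z => Φ (z, w)) z0 r := hΦcirc.circleIntegrable'
        have i3 : CircleIntegrable (fun z : ℂ => η * ‖z‖ ^ 2) z0 r := by
          apply ContinuousOn.circleIntegrable'
          fun_prop
        have i4 : CircleIntegrable (fun z : ℂ => Lz (z - z0)) z0 r := by
          apply ContinuousOn.circleIntegrable'
          fun_prop
        have i5 : CircleIntegrable (fun _ : ℂ => Φ (z0, w)) z0 r := circleIntegrable_const _ _ _
        have i6 : CircleIntegrable (fun _ : ℂ => η * r ^ 2) z0 r := circleIntegrable_const _ _ _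
        have j1 : CircleIntegrable (fun z => u (z, w) - Φ (z0, w)) z0 r := i1.sub i5
        have j2 : CircleIntegrable (fun z => u (z, w) - Φ (z0, w) - Lz (z - z0)) z0 r := j1.sub i4
        have j3 : CircleIntegrable (fun z => u (z, w) - Φ (z0, w) - Lz (z - z0) - η * r ^ 2) z0 r :=
          j2.sub i6
        have hm := circleAverage_mono (j3.add i3) ((i1.sub i2).add i3) hlow
        have e1 : circleAverage (fun z => u (z, w) - Φ (z0, w) - Lz (z - z0) - η * r ^ 2 +
            η * ‖z‖ ^ 2) z0 r = u (z0, w) - Φ (z0, w) + η * ‖z0‖ ^ 2 := by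
          rw [circleAverage_fun_add j3 i3, circleAverage_fun_sub j2 i6, circleAverage_fun_sub j1 i4,
            circleAverage_fun_sub i1 i5, huline, hL0, circleAverage_const, circleAverage_const]
          have h6 := circleAverage_fun_smul (a := η) (f := fun z : ℂ => ‖z‖ ^ 2) (c := z0) (R := r)
          simp only [smul_eq_mul] at h6
          rw [h6, circleAverage_normSq]
          ring
        have hm2 : circleAverage (fun z => u (z, w) - Φ (z0, w) - Lz (z - z0) - η * r ^ 2 +
            η * ‖z‖ ^ 2) z0 r ≤ circleAverage (fun z => u (z, w) - Φ (z, w) + η * ‖z‖ ^ 2) z0 r := hm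
        rw [e1] at hm2
        have : 0 ≤ τ * r ^ 2 := by positivity
        linarith
      · intro z hz
        have hzn : ‖z‖ = 1 := by simpa using hz
        obtain ⟨x, rfl⟩ := exists_zt hzn
        have h1 := hB1 x w hw.le
        have h2 : 1 / 4 ≤ ‖w - F x‖ ^ 2 := by
          have h3 : 1 / 2 ≤ ‖w - F x‖ := by
            have h4 := norm_sub_norm_le w (F x)
            have h5 := hFn x
            linarith
          nlinarith
        rw [hzn]
        nlinarith
    have h1 := hmp z (by simpa using hz)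
    have h2 : 0 ≤ η * ‖z‖ ^ 2 := by positivity
    linarith
  -- global comparison
  have hle : ∀ x ∈ BB, u x ≤ Φ x := by
    apply touch D.isOpen D.maxl D.cont D.sub huc hud
    rintro ⟨z, w⟩ hzw
    rw [mem_sphere, dist_zero_right, Prod.norm_mk] at hzw
    rcases max_cases ‖z‖ ‖w‖ with hm | hm
    · have hz1 : ‖z‖ = 1 := by rw [← hm.1]; exact hzw
      obtain ⟨x, rfl⟩ := exists_zt hz1
      have hw1 : ‖w‖ ≤ 1 := by rw [← hz1]; exact hm.2
      have := hB1 x w hw1
      have h2 : 0 ≤ (1 - η) * ‖w - F x‖ ^ 2 := by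
        apply mul_nonneg _ (by positivity)
        linarith
      linarith
    · have hw1 : ‖w‖ = 1 := by rw [← hm.1]; exact hzw
      have hz1 : ‖z‖ ≤ 1 := by rw [← hw1]; exact hm.2.le
      exact hB2 z w hz1 hw1
  -- conclusion
  have hhn : ∀ z : ℂ, ‖z‖ ≤ 1 → ‖h z‖ ≤ 7 / 16 := fun z hz => leaf_bound ht ha hz
  have hmemB : ∀ z : ℂ, ‖z‖ ≤ 1 → ((z, h z) : ℂ × ℂ) ∈ BB := fun z hz =>
    mem_BB.2 ⟨hz, (hhn z hz).trans (by norm_num)⟩
  refine ⟨fun z => 2 * Q z * h z + A z, ((hQd.const_mul 2).mul hhd).add hAd, ?_⟩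
  intro z hz
  have hzn : ‖z‖ ≤ 1 := by
    have : ‖z‖ < 1 := by simpa using hz
    exact this.le
  apply le_antisymm
  · -- Y ≤ H by the maximum principle
    have hmp : ∀ z ∈ closedBall (0 : ℂ) 1, Φ (z, h z) - u (z, h z) ≤ 0 := by
      apply max_principle
      · have h1 : ContinuousOn (fun z : ℂ => ((z, h z) : ℂ × ℂ)) (closedBall 0 1) :=
          continuousOn_id.prodMk hhc
        have h2 : MapsTo (fun z : ℂ => ((z, h z) : ℂ × ℂ)) (closedBall 0 1) BB := by
          intro z hz
          exact hmemB z (by simpa using hz)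
        exact ((D.cont.mono D.sub).comp h1 h2).sub (huc.comp h1 h2)
      · intro z0 hz0
        have hz0n : ‖z0‖ < 1 := by simpa using hz0
        have hp0 : ((z0, h z0) : ℂ × ℂ) ∈ ball (0 : ℂ × ℂ) 1 := by
          rw [mem_ball, dist_zero_right, Prod.norm_mk]
          apply max_lt hz0n
          exact (hhn z0 hz0n.le).trans_lt (by norm_num)
        obtain ⟨L0, hL0⟩ := D.expand (p0 := (z0, h z0)) (ball_subset_closedBall hp0)
        have hρ : 0 < 1 - ‖z0‖ := by linarith
        have hbs : ball z0 (1 - ‖z0‖) ⊆ ball (0 : ℂ) 1 := by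
          intro z hz
          have h2 : ‖z - z0‖ < 1 - ‖z0‖ := by simpa [dist_eq_norm] using hz
          rw [mem_ball, dist_zero_right]
          calc ‖z‖ = ‖z0 + (z - z0)‖ := by ring_nf
            _ ≤ ‖z0‖ + ‖z - z0‖ := norm_add_le _ _
            _ < 1 := by linarith
        have hsm := subMean_comp hρ (hhd.mono hbs)
          (D.maxl.1.2 (z0, h z0) (D.sub (ball_subset_closedBall hp0)) (1, deriv h z0))
          (V := BB) (mem_of_superset (isOpen_ball.mem_nhds hp0) ball_subset_closedBall)
          (D.cont.mono D.sub) L0 (C := 4) (by norm_num) hL0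
        intro τ hτ
        have h0 : ∀ᶠ r in 𝓝[>] (0 : ℝ), 0 < r := self_mem_nhdsWithin
        have h1 : ∀ᶠ r in 𝓝[>] (0 : ℝ), r < 1 - ‖z0‖ :=
          nhdsWithin_le_nhds (Iio_mem_nhds (by linarith))
        filter_upwards [hsm τ hτ, h0, h1] with r hr hr0 hr1
        have hsub : closedBall z0 r ⊆ ball (0 : ℂ) 1 :=
          (closedBall_subset_ball hr1).trans hbs
        have hHd : DifferentiableOn ℂ (fun z : ℂ => 2 * Q z * h z + A z) (closedBall z0 |r|) := by
          rw [abs_of_pos hr0]
          exact (((hQd.const_mul 2).mul hhd).add hAd).mono hsub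
        have hHavg : circleAverage (fun z => u (z, h z)) z0 r = u (z0, h z0) :=
          circleAverage_re hHd
        have hmapc : ContinuousOn (fun z : ℂ => ((z, h z) : ℂ × ℂ)) (sphere z0 |r|) := by
          rw [abs_of_pos hr0]
          apply continuousOn_id.prodMk
          exact hhc.mono ((sphere_subset_closedBall.trans hsub).trans ball_subset_closedBall)
        have hmaps : MapsTo (fun z : ℂ => ((z, h z) : ℂ × ℂ)) (sphere z0 |r|) BB := by
          intro z hz
          rw [abs_of_pos hr0] at hz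
          have : z ∈ ball (0 : ℂ) 1 := hsub (sphere_subset_closedBall hz)
          have hz' : ‖z‖ < 1 := by simpa using this
          exact hmemB z hz'.le
        have i1 : CircleIntegrable (fun z => Φ (z, h z)) z0 r :=
          ((D.cont.mono D.sub).comp hmapc hmaps).circleIntegrable'
        have i2 : CircleIntegrable (fun z => u (z, h z)) z0 r :=
          (huc.comp hmapc hmaps).circleIntegrable'
        rw [circleAverage_fun_sub i1 i2, hHavg]
        linarith
      · intro z hz
        have hz1 : ‖z‖ = 1 := by simpa using hz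
        obtain ⟨x, rfl⟩ := exists_zt hz1
        have h4 := hA x
        rw [hfx, Complex.ofReal_re] at h4
        have h3 : u (zt x, F x) = Φ (zt x, F x) := by
          simp only [hu]
          rw [Complex.add_re, ← h4, ← hQ x]
          have : (2 * q x * F x).re = 2 * (q x * F x).re := by
            rw [mul_assoc, Complex.mul_re]
            simp
          rw [this]
          ring
        have h5 : u (zt x, h (zt x)) = Φ (zt x, h (zt x)) := h3
        rw [h5, sub_self]
    have h1 := hmp z (by simpa using hzn)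
    have h2 : u (z, h z) = (2 * Q z * h z + A z).re := rfl
    linarith
  · exact hle (z, h z) (hmemB z hzn)

end LocalData

end Pool.Agent.H36.MA
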