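import Pool.Agent.H36.MA.Quad

set_option autoImplicit false

open Metric Set Filter Topology Real

noncomputable section

namespace Pool.Agent.H36.MA

section

variable {Ω : Set (ℂ × ℂ)} {φ : ℂ × ℂ → ℝ} {p : ℂ × ℂ}

/-- Circle averages of a `C²` function along complex lines, uniformly near `p`. -/
lemma avg_taylor (hφ : ContDiffOn ℝ 2 φ Ω) (hΩ : IsOpen Ω) (hp : p ∈ Ω) {η δ : ℝ} (hη : 0 < η)
    (hsub : ball p δ ⊆ Ω)
    (hδ : ∀ x ∈ ball p δ, ∀ y ∈ ball p δ,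
      ‖fderiv ℝ φ x - fderiv ℝ φ y - D2 φ p (x - y)‖ ≤ η * ‖x - y‖)
    {x : ℂ × ℂ} (hx : x ∈ ball p δ) (b : ℂ × ℂ) :
    ∃ r₀ > 0, ∀ r : ℝ, 0 < r → r < r₀ →
      CircleIntegrable (fun ζ : ℂ => φ (x + ζ • b)) 0 r ∧
      |circleAverage (fun ζ : ℂ => φ (x + ζ • b)) 0 r - (φ x + 1 / 4 * HH (D2 φ p) b * r ^ 2)| ≤
        η * ‖b‖ ^ 2 * r ^ 2 := by
  obtain ⟨r₀, hr₀, h⟩ := exists_radius (isOpen_ball.mem_nhds hx) b
  refine ⟨r₀, hr₀, fun r hr hr2 => ?_⟩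
  have h1 := h r hr hr2
  have hsymm := D2_symm hΩ hφ hp
  have hc : ContinuousOn (fun ζ : ℂ => φ (x + ζ • b)) (sphere 0 |r|) := by
    rw [abs_of_pos hr]
    apply hφ.continuousOn.comp (by fun_prop)
    intro ζ hζ
    exact hsub (h1 ζ (sphere_subset_closedBall hζ))
  have hci : CircleIntegrable (fun ζ : ℂ => φ (x + ζ • b)) 0 r := hc.circleIntegrable'
  refine ⟨hci, ?_⟩
  have hcc : ∀ a : ℝ, CircleIntegrable (fun _ : ℂ => a) 0 r := fun a => circleIntegrable_const _ _ _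
  have hl : CircleIntegrable (fun ζ : ℂ => fderiv ℝ φ x (ζ • b)) 0 r := by
    apply ContinuousOn.circleIntegrable'
    fun_prop
  have hq : CircleIntegrable (fun ζ : ℂ => 1 / 2 * D2 φ p (ζ • b) (ζ • b)) 0 r := by
    apply ContinuousOn.circleIntegrable'
    fun_prop
  have hqa : circleAverage (fun ζ : ℂ => 1 / 2 * D2 φ p (ζ • b) (ζ • b)) 0 r =
      1 / 4 * HH (D2 φ p) b * r ^ 2 := by
    have : circleAverage (fun ζ : ℂ => 1 / 2 * D2 φ p (ζ • b) (ζ • b)) 0 r =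
        (1 / 2) * circleAverage (fun ζ : ℂ => D2 φ p (ζ • b) (ζ • b)) 0 r :=
      circleAverage_fun_smul (a := (1 / 2 : ℝ)) (f := fun ζ : ℂ => D2 φ p (ζ • b) (ζ • b))
    rw [this, quad_avg hsymm]
    ring
  have hM1 : CircleIntegrable (fun ζ : ℂ => φ x + fderiv ℝ φ x (ζ • b)) 0 r :=
    (hcc (φ x)).add hl
  have hM : CircleIntegrable (fun ζ : ℂ => φ x + fderiv ℝ φ x (ζ • b) +
      1 / 2 * D2 φ p (ζ • b) (ζ • b)) 0 r := hM1.add hq
  have hMa : circleAverage (fun ζ : ℂ => φ x + fderiv ℝ φ x (ζ • b) +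
      1 / 2 * D2 φ p (ζ • b) (ζ • b)) 0 r = φ x + 1 / 4 * HH (D2 φ p) b * r ^ 2 := by
    rw [circleAverage_fun_add hM1 hq, circleAverage_fun_add (hcc _) hl,
      circleAverage_const, lin_avg, hqa]
    ring
  have hpt : ∀ ζ ∈ sphere (0 : ℂ) |r|, |φ (x + ζ • b) - (φ x + fderiv ℝ φ x (ζ • b) +
      1 / 2 * D2 φ p (ζ • b) (ζ • b))| ≤ η * ‖b‖ ^ 2 * r ^ 2 := by
    intro ζ hζ
    rw [abs_of_pos hr] at hζ
    have h2 := taylor hφ hΩ hp hη hsub hδ hx (h1 ζ (sphere_subset_closedBall hζ))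
    rw [add_sub_cancel_left, norm_smul] at h2
    have h3 : ‖ζ‖ = r := by simpa using hζ
    rw [h3] at h2
    have e : φ (x + ζ • b) - (φ x + fderiv ℝ φ x (ζ • b) + 1 / 2 * D2 φ p (ζ • b) (ζ • b)) =
      φ (x + ζ • b) - φ x - fderiv ℝ φ x (ζ • b) - 1 / 2 * D2 φ p (ζ • b) (ζ • b) := by ring
    rw [e]
    refine h2.trans (le_of_eq (by ring))
  rw [← hMa, abs_le]
  constructor
  · have h3 : circleAverage (fun ζ : ℂ => φ x + fderiv ℝ φ x (ζ • b) +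
      1 / 2 * D2 φ p (ζ • b) (ζ • b)) 0 r ≤
      circleAverage (fun ζ : ℂ => φ (x + ζ • b) + η * ‖b‖ ^ 2 * r ^ 2) 0 r := by
      apply circleAverage_mono hM (hci.add (hcc _))
      intro ζ hζ
      have := (abs_le.1 (hpt ζ hζ)).1
      show φ x + fderiv ℝ φ x (ζ • b) + 1 / 2 * D2 φ p (ζ • b) (ζ • b) ≤
        φ (x + ζ • b) + η * ‖b‖ ^ 2 * r ^ 2
      linarith
    rw [circleAverage_fun_add hci (hcc _), circleAverage_const] at h3
    linarith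
  · have h3 : circleAverage (fun ζ : ℂ => φ (x + ζ • b)) 0 r ≤
      circleAverage (fun ζ : ℂ => (φ x + fderiv ℝ φ x (ζ • b) +
      1 / 2 * D2 φ p (ζ • b) (ζ • b)) + η * ‖b‖ ^ 2 * r ^ 2) 0 r := by
      apply circleAverage_mono hci (hM.add (hcc _))
      intro ζ hζ
      have := (abs_le.1 (hpt ζ hζ)).2
      show φ (x + ζ • b) ≤ (φ x + fderiv ℝ φ x (ζ • b) + 1 / 2 * D2 φ p (ζ • b) (ζ • b)) +
        η * ‖b‖ ^ 2 * r ^ 2
      linarith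
    rw [circleAverage_fun_add hM (hcc _), circleAverage_const] at h3
    linarith

/-- The Levi form of a plurisubharmonic `C²` function is nonnegative. -/
lemma HH_nonneg (hφ : ContDiffOn ℝ 2 φ Ω) (hΩ : IsOpen Ω) (hp : p ∈ Ω) (hpsh : IsPSH Ω φ)
    (b : ℂ × ℂ) : 0 ≤ HH (D2 φ p) b := by
  apply le_of_forall_pos_le_add
  intro ε hε
  set η : ℝ := ε / (4 * (‖b‖ ^ 2 + 1)) with hη
  have hη0 : 0 < η := by positivity
  obtain ⟨δ, hδ, hsub, hδ2⟩ := D2_near hΩ hφ hp hη0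
  obtain ⟨r₁, hr₁, h1⟩ := avg_taylor hφ hΩ hp hη0 hsub hδ2 (mem_ball_self hδ) b
  obtain ⟨r₂, hr₂, h2⟩ := hpsh.2 p hp b
  set r : ℝ := min r₁ r₂ / 2 with hr
  have hmin : 0 < min r₁ r₂ := lt_min hr₁ hr₂
  have hr0 : 0 < r := by positivity
  have hr1 : r < r₁ := by
    have := min_le_left r₁ r₂
    rw [hr]; linarith
  have hr2 : r < r₂ := by
    have := min_le_right r₁ r₂
    rw [hr]; linarith
  have h3 := (h1 r hr0 hr1).2
  have h4 := (h2 r hr0 hr2).2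
  have h5 := (abs_le.1 h3).2
  have h6 : 0 ≤ (1 / 4 * HH (D2 φ p) b + η * ‖b‖ ^ 2) * r ^ 2 := by linarith
  have h7 : 0 ≤ 1 / 4 * HH (D2 φ p) b + η * ‖b‖ ^ 2 :=
    nonneg_of_mul_nonneg_left h6 (by positivity)
  have h8 : 4 * (η * ‖b‖ ^ 2) ≤ ε := by
    rw [hη]
    have : 4 * (ε / (4 * (‖b‖ ^ 2 + 1)) * ‖b‖ ^ 2) = ε * (‖b‖ ^ 2 / (‖b‖ ^ 2 + 1)) := by
      field_simp
    rw [this]
    apply mul_le_of_le_one_right hε.le
    rw [div_le_one (by positivity)]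
    linarith
  linarith

/-- The polar form of `HH`. -/
def CC (B : ℂ × ℂ →L[ℝ] (ℂ × ℂ →L[ℝ] ℝ)) (x y : ℂ × ℂ) : ℝ :=
  B x y + B (Complex.I • x) (Complex.I • y)

lemma HH_smul_real (B : ℂ × ℂ →L[ℝ] (ℂ × ℂ →L[ℝ] ℝ)) (t : ℝ) (b : ℂ × ℂ) :
    HH B (t • b) = t ^ 2 * HH B b := by
  simp only [HH]
  rw [smul_comm Complex.I t b]
  simp only [map_smul, smul_apply, smul_eq_mul]
  ring

lemma HH_add {B : ℂ × ℂ →L[ℝ] (ℂ × ℂ →L[ℝ] ℝ)} (hB : ∀ x y, B x y = B y x) (x y : ℂ × ℂ) :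
    HH B (x + y) = HH B x + 2 * CC B x y + HH B y := by
  simp only [HH, CC, smul_add, map_add, add_apply]
  rw [hB y x, hB (Complex.I • y) (Complex.I • x)]
  ring

lemma HH_smul {B : ℂ × ℂ →L[ℝ] (ℂ × ℂ →L[ℝ] ℝ)} (hB : ∀ x y, B x y = B y x) (z : ℂ) (b : ℂ × ℂ) :
    HH B (z • b) = ‖z‖ ^ 2 * HH B b := by
  have h1 : z • b = z.re • b + z.im • (Complex.I • b) := by
    conv_lhs => rw [← Complex.re_add_im z]
    rw [add_smul, mul_smul]
    rfl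
  have h2 : Complex.I • (z • b) = z.re • (Complex.I • b) - z.im • b := by
    rw [h1, smul_add, smul_comm Complex.I z.re, smul_comm Complex.I z.im, smul_smul Complex.I,
      Complex.I_mul_I, neg_one_smul, smul_neg]
    abel
  unfold HH
  rw [h2, h1]
  simp only [map_add, map_sub, map_smul, add_apply, sub_apply, smul_apply, smul_eq_mul]
  rw [hB (Complex.I • b) b, ← Complex.normSq_eq_norm_sq, Complex.normSq_apply]
  ring

/-- Cauchy-Schwarz in the degenerate case. -/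
lemma HH_degenerate {B : ℂ × ℂ →L[ℝ] (ℂ × ℂ →L[ℝ] ℝ)} (hB : ∀ x y, B x y = B y x)
    (hpos : ∀ b, 0 ≤ HH B b) {b1 : ℂ × ℂ} (hb1 : HH B b1 = 0) (y : ℂ × ℂ) :
    HH B (b1 + y) = HH B y := by
  have h1 : ∀ t : ℝ, 0 ≤ 2 * t * CC B b1 y + HH B y := by
    intro t
    have h2 := hpos (t • b1 + y)
    rw [HH_add hB, HH_smul_real, hb1] at h2
    have h3 : CC B (t • b1) y = t * CC B b1 y := by
      simp only [CC]
      rw [smul_comm Complex.I t b1]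
      simp only [map_smul, smul_apply, smul_eq_mul]
      ring
    rw [h3] at h2
    linarith
  have h4 : CC B b1 y = 0 := by
    by_contra hne
    have h5 := h1 (-(HH B y + 1) / (2 * CC B b1 y))
    have h6 : 2 * (-(HH B y + 1) / (2 * CC B b1 y)) * CC B b1 y = -(HH B y + 1) := by
      field_simp
    rw [h6] at h5
    linarith
  rw [HH_add hB, hb1, h4]
  ring

lemma HH_degenerate_comb {B : ℂ × ℂ →L[ℝ] (ℂ × ℂ →L[ℝ] ℝ)} (hB : ∀ x y, B x y = B y x)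
    (hpos : ∀ b, 0 ≤ HH B b) {b1 : ℂ × ℂ} (hb1 : HH B b1 = 0) (b2 : ℂ × ℂ) (z w : ℂ) :
    HH B (z • b1 + w • b2) = ‖w‖ ^ 2 * HH B b2 := by
  have h1 : HH B (z • b1) = 0 := by rw [HH_smul hB, hb1, mul_zero]
  rw [HH_degenerate hB hpos h1, HH_smul hB]

end

end Pool.Agent.H36.MA
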