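import Pool.Agent.H36.MA.Comp
import Pool.Agent.H36.MA.Anal

set_option autoImplicit false

open Metric Set Filter Topology Real MeasureTheory AddCircle
open scoped NNReal ENNReal

noncomputable section

namespace Pool.Agent.H36.MA

/-- The closed unit bidisc. -/
abbrev BB : Set (ℂ × ℂ) := closedBall (0 : ℂ × ℂ) 1

lemma mem_BB {z w : ℂ} : (z, w) ∈ BB ↔ ‖z‖ ≤ 1 ∧ ‖w‖ ≤ 1 := by
  rw [mem_closedBall, dist_zero_right, Prod.norm_mk, max_le_iff]

/-- Normalised local situation: `Φ = |w|² + small`. -/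
structure LocalData (Ω : Set (ℂ × ℂ)) (Φ : ℂ × ℂ → ℝ) (ε' : ℂ × ℂ → (ℂ × ℂ →L[ℝ] ℝ))
    (η : ℝ) : Prop where
  isOpen : IsOpen Ω
  sub : BB ⊆ Ω
  maxl : IsMaximalPSH Ω Φ
  cont : ContinuousOn Φ Ω
  η0 : 0 ≤ η
  η1 : η ≤ 1 / 20
  der : ∀ x ∈ BB, HasFDerivAt (fun y : ℂ × ℂ => Φ y - ‖y.2‖ ^ 2) (ε' x) x
  lip : ∀ x ∈ BB, ∀ y ∈ BB, ‖ε' x - ε' y‖ ≤ η * ‖x - y‖

namespace LocalData

variable {Ω : Set (ℂ × ℂ)} {Φ : ℂ × ℂ → ℝ} {ε' : ℂ × ℂ → (ℂ × ℂ →L[ℝ] ℝ)} {η : ℝ}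

lemma tay (D : LocalData Ω Φ ε' η) {x y : ℂ × ℂ} (hx : x ∈ BB) (hy : y ∈ BB) :
    |(Φ y - ‖y.2‖ ^ 2) - (Φ x - ‖x.2‖ ^ 2) - ε' x (y - x)| ≤ η * ‖y - x‖ ^ 2 := by
  have hconv : Convex ℝ BB := convex_closedBall _ _
  have hseg : segment ℝ x y ⊆ BB := hconv.segment_subset hx hy
  have h := (convex_segment x y).norm_image_sub_le_of_norm_hasFDerivWithin_le'
    (f := fun y : ℂ × ℂ => Φ y - ‖y.2‖ ^ 2) (f' := ε') (φ := ε' x) (C := η * ‖y - x‖)
    (fun z hz => (D.der z (hseg hz)).hasFDerivWithinAt) ?_ (left_mem_segment ℝ x y)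
    (right_mem_segment ℝ x y)
  · rw [Real.norm_eq_abs] at h
    refine h.trans (le_of_eq (by ring))
  · intro z hz
    refine (D.lip z (hseg hz) x hx).trans ?_
    apply mul_le_mul_of_nonneg_left _ D.η0
    obtain ⟨a, b, ha, hb, hab, rfl⟩ := hz
    have e : a • x + b • y - x = b • (y - x) := by
      have : a = 1 - b := by linarith
      rw [this]; module
    rw [e, norm_smul, Real.norm_eq_abs, abs_of_nonneg hb]
    have hb1 : b ≤ 1 := by linarith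
    exact mul_le_of_le_one_left (norm_nonneg _) hb1

/-- The complex `w`-gradient (with a factor `-1/2`), extended to a globally Lipschitz map. -/
lemma exists_kappa (D : LocalData Ω Φ ε' η) :
    ∃ κ : ℂ × ℂ → ℂ, (∀ x y, ‖κ x - κ y‖ ≤ η * ‖x - y‖) ∧
      ∀ x ∈ BB, κ x = -(1 / 2) * ((ε' x (0, 1) : ℂ) + (ε' x (0, Complex.I) : ℂ) * Complex.I) := by
  have hη2 : 0 ≤ η / 2 := by have := D.η0; linarith
  have key : ∀ v : ℂ × ℂ, ‖v‖ ≤ 1 →
      LipschitzOnWith (Real.toNNReal (η / 2)) (fun x => -(1 / 2) * ε' x v) BB := by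
    intro v hv
    apply LipschitzOnWith.of_dist_le_mul
    intro x hx y hy
    rw [Real.coe_toNNReal _ hη2, dist_eq_norm, dist_eq_norm]
    have e : -(1 / 2) * ε' x v - -(1 / 2) * ε' y v = -(1 / 2) * ((ε' x - ε' y) v) := by
      rw [sub_apply]; ring
    rw [e, norm_mul]
    have h1 : ‖(ε' x - ε' y) v‖ ≤ η * ‖x - y‖ := by
      refine ((ε' x - ε' y).le_opNorm v).trans ?_
      refine (mul_le_of_le_one_right (norm_nonneg _) hv).trans (D.lip x hx y hy)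
    have h2 : ‖-(1 / 2 : ℝ)‖ = 1 / 2 := by norm_num
    rw [h2]
    linarith
  obtain ⟨g1, hg1, he1⟩ := (key (0, 1) (by rw [Prod.norm_mk]; simp)).extend_real
  obtain ⟨g2, hg2, he2⟩ := (key (0, Complex.I) (by rw [Prod.norm_mk]; simp)).extend_real
  refine ⟨fun x => (g1 x : ℂ) + (g2 x : ℂ) * Complex.I, ?_, ?_⟩
  · intro x y
    have h1 := hg1.dist_le_mul x y
    have h2 := hg2.dist_le_mul x y
    rw [Real.coe_toNNReal _ hη2, dist_eq_norm, dist_eq_norm] at h1 h2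
    have e : (g1 x : ℂ) + (g2 x : ℂ) * Complex.I - ((g1 y : ℂ) + (g2 y : ℂ) * Complex.I) =
        ((g1 x - g1 y : ℝ) : ℂ) + ((g2 x - g2 y : ℝ) : ℂ) * Complex.I := by
      push_cast; ring
    rw [e]
    refine (norm_add_le _ _).trans ?_
    rw [norm_mul, Complex.norm_I, mul_one, Complex.norm_real, Complex.norm_real]
    linarith
  · intro x hx
    have h1 := he1 hx
    have h2 := he2 hx
    simp only at h1 h2 ⊢
    rw [← h1, ← h2]
    push_cast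
    ring

/-- `Re (conj g · v) = ε' (0, v)`. -/
lemma grad_apply (L : ℂ × ℂ →L[ℝ] ℝ) (v : ℂ) :
    ((starRingEnd ℂ) ((L (0, 1) : ℂ) + (L (0, Complex.I) : ℂ) * Complex.I) * v).re = L (0, v) := by
  have h1 : ((0 : ℂ), v) = v.re • ((0 : ℂ), (1 : ℂ)) + v.im • ((0 : ℂ), Complex.I) := by
    simp only [Prod.smul_mk, smul_zero, Prod.mk_add_mk, add_zero]
    congr 1
    simp only [Complex.real_smul, mul_one]
    exact (Complex.re_add_im v).symm
  have h2 : L (0, v) = v.re * L (0, 1) + v.im * L (0, Complex.I) := by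
    rw [h1, L.map_add, L.map_smul, L.map_smul, smul_eq_mul, smul_eq_mul]
  rw [h2]
  simp only [map_add, map_mul, Complex.conj_ofReal, Complex.conj_I]
  simp only [Complex.mul_re, Complex.add_re, Complex.add_im, Complex.mul_im, Complex.neg_re,
    Complex.neg_im, Complex.I_re, Complex.I_im, Complex.ofReal_re, Complex.ofReal_im]
  ring

lemma normSq_expand (w w' : ℂ) :
    ‖w'‖ ^ 2 = ‖w‖ ^ 2 + 2 * ((starRingEnd ℂ) w * (w' - w)).re + ‖w' - w‖ ^ 2 := by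
  rw [← Complex.normSq_eq_norm_sq, ← Complex.normSq_eq_norm_sq, ← Complex.normSq_eq_norm_sq,
    Complex.normSq_apply, Complex.normSq_apply, Complex.normSq_apply]
  simp only [Complex.sub_re, Complex.sub_im, Complex.mul_re, Complex.conj_re, Complex.conj_im]
  ring

/-- Fibre Taylor expansion. -/
lemma fibre (D : LocalData Ω Φ ε' η) {κ : ℂ × ℂ → ℂ}
    (hκ : ∀ x ∈ BB, κ x = -(1 / 2) * ((ε' x (0, 1) : ℂ) + (ε' x (0, Complex.I) : ℂ) * Complex.I))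
    {z w w' : ℂ} (hz : ‖z‖ ≤ 1) (hw : ‖w‖ ≤ 1) (hw' : ‖w'‖ ≤ 1) :
    |Φ (z, w') - Φ (z, w) - 2 * ((starRingEnd ℂ) (w - κ (z, w)) * (w' - w)).re - ‖w' - w‖ ^ 2| ≤
      η * ‖w' - w‖ ^ 2 := by
  have h1 := D.tay (mem_BB.2 ⟨hz, hw⟩) (mem_BB.2 ⟨hz, hw'⟩)
  have e1 : ((z, w') : ℂ × ℂ) - (z, w) = (0, w' - w) := by simp
  rw [e1] at h1
  have e2 : ‖((0 : ℂ), w' - w)‖ = ‖w' - w‖ := by
    rw [Prod.norm_mk, norm_zero]; exact max_eq_right (norm_nonneg _)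
  rw [e2, ← grad_apply] at h1
  have e3 : (starRingEnd ℂ) (w - κ (z, w)) * (w' - w) = (starRingEnd ℂ) w * (w' - w) +
      (1 / 2 : ℝ) • ((starRingEnd ℂ) ((ε' (z, w) (0, 1) : ℂ) +
        (ε' (z, w) (0, Complex.I) : ℂ) * Complex.I) * (w' - w)) := by
    rw [hκ _ (mem_BB.2 ⟨hz, hw⟩)]
    simp only [map_sub, map_mul, map_neg, Complex.real_smul]
    have : (starRingEnd ℂ) (1 / 2 : ℂ) = 1 / 2 := by
      rw [map_div₀, map_one]
      congr 1
      exact Complex.conj_ofNat 2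
    rw [this]
    push_cast
    ring
  rw [e3, Complex.add_re, Complex.smul_re, smul_eq_mul]
  have e4 := normSq_expand w w'
  refine le_trans (le_of_eq ?_) h1
  congr 1
  simp only
  rw [e4]
  ring

end LocalData

end Pool.Agent.H36.MA
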