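import Pool.Agent.H36.MA.Degen
import Pool.Agent.H36.MA.Local

set_option autoImplicit false

open Metric Set Filter Topology Real

noncomputable section

namespace Pool.Agent.H36.MA

section

variable {Ω : Set (ℂ × ℂ)} {φ : ℂ × ℂ → ℝ} {p : ℂ × ℂ}

/-- The linear map with prescribed values on the standard basis. -/
def Lmap (b1 b2 : ℂ × ℂ) : ℂ × ℂ →L[ℂ] ℂ × ℂ :=
  (ContinuousLinearMap.fst ℂ ℂ ℂ).smulRight b1 + (ContinuousLinearMap.snd ℂ ℂ ℂ).smulRight b2

lemma Lmap_apply (b1 b2 y : ℂ × ℂ) : Lmap b1 b2 y = y.1 • b1 + y.2 • b2 := by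
  simp [Lmap]

lemma exists_equiv {L : ℂ × ℂ →L[ℂ] ℂ × ℂ} (hL : Function.Injective L) {δ : ℝ} (hδ : δ ≠ 0) :
    ∃ A : (ℂ × ℂ) ≃L[ℂ] (ℂ × ℂ), ∀ y, A y = δ • L y := by
  have hδ' : (δ : ℂ) ≠ 0 := by exact_mod_cast hδ
  have hinj : Function.Injective ((δ : ℂ) • L).toLinearMap := by
    intro x y hxy
    apply hL
    have h1 : (δ : ℂ) • L x = (δ : ℂ) • L y := hxy
    exact smul_right_injective _ hδ' h1
  refine ⟨(LinearEquiv.ofInjectiveEndo _ hinj).toContinuousLinearEquiv, fun y => ?_⟩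
  simp

lemma hess_open (hφ : ContDiffOn ℝ 2 φ Ω) (hΩ : IsOpen Ω) (hp : p ∈ Ω) (b : ℂ × ℂ)
    (hb : 0 < HH (D2 φ p) b) :
    ∃ δ > 0, ∀ x ∈ ball p δ, x ∈ hessNe Ω φ := by
  have h1 : ContDiffAt ℝ 2 φ p := hφ.contDiffAt (hΩ.mem_nhds hp)
  have h2 : ContDiffAt ℝ 1 (fderiv ℝ φ) p := by
    apply ContDiffAt.fderiv_right (m := 1) (n := 2) h1
    norm_num
  have h3 : ContDiffAt ℝ 0 (fderiv ℝ (fderiv ℝ φ)) p := by
    apply ContDiffAt.fderiv_right (m := 0) (n := 1) h2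
    norm_num
  have h4 : ContinuousAt (D2 φ) p := h3.continuousAt
  have h5 : ContinuousAt (fun x => HH (D2 φ x) b) p := by
    unfold HH
    fun_prop
  have h6 : ∀ᶠ x in 𝓝 p, 0 < HH (D2 φ x) b := h5.eventually_const_lt hb
  obtain ⟨δ, hδ, h7⟩ := Metric.mem_nhds_iff.1 (h6.and (hΩ.eventually_mem hp))
  refine ⟨δ, hδ, fun x hx => ?_⟩
  obtain ⟨h8, h9⟩ := h7 hx
  refine ⟨h9, b, ?_⟩
  rw [leviForm_eq hΩ hφ h9]
  positivity

theorem exists_localData (hφ : ContDiffOn ℝ 2 φ Ω) (hΩ : IsOpen Ω) (hp : p ∈ hessNe Ω φ)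
    (hmax : IsMaximalPSH Ω φ) :
    ∃ (A : (ℂ × ℂ) ≃L[ℂ] (ℂ × ℂ)) (c : ℝ) (P : ℂ × ℂ → ℂ) (ε' : ℂ × ℂ → (ℂ × ℂ →L[ℝ] ℝ)),
      0 < c ∧ Differentiable ℂ P ∧
      LocalData {y | p + A y ∈ Ω} (fun y => c * φ (p + A y) - (P y).re) ε' (1 / 20) ∧
      ∀ y ∈ ball (0 : ℂ × ℂ) 1, p + A y ∈ hessNe Ω φ := by
  obtain ⟨hpΩ, b2', hb2'⟩ := hp
  set B := D2 φ p with hBdef
  have hB : ∀ x y, B x y = B y x := D2_symm hΩ hφ hpΩ
  have hpos : ∀ b, 0 ≤ HH B b := HH_nonneg hφ hΩ hpΩ hmax.1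
  obtain ⟨b1, hb1, hb1'⟩ := exists_degenerate hφ hΩ hpΩ hmax
  rw [leviForm_eq hΩ hφ hpΩ] at hb2'
  have hh : 0 < HH B b2' := lt_of_le_of_ne (hpos b2') (fun h => hb2' (by rw [← hBdef, ← h]; simp))
  set s : ℝ := 2 / √(HH B b2') with hs
  set b2 : ℂ × ℂ := s • b2' with hb2
  have hHb2 : HH B b2 = 4 := by
    rw [hb2, HH_smul_real, hs, div_pow, Real.sq_sqrt hh.le]
    field_simp
    norm_num
  set L := Lmap b1 b2 with hL
  have hHL : ∀ y, HH B (L y) = ‖y.2‖ ^ 2 * 4 := by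
    intro y
    rw [hL, Lmap_apply, HH_degenerate_comb hB hpos hb1', hHb2]
  have hLinj : Function.Injective L := by
    rw [injective_iff_map_eq_zero]
    intro y hy
    have h1 := hHL y
    rw [hy] at h1
    have h2 : HH B 0 = 0 := by simp [HH]
    rw [h2] at h1
    have h3 : y.2 = 0 := by
      have : ‖y.2‖ ^ 2 = 0 := by linarith
      exact norm_eq_zero.1 (pow_eq_zero_iff (two_ne_zero) |>.1 this)
    rw [hL, Lmap_apply, h3, zero_smul, add_zero, smul_eq_zero] at hy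
    exact Prod.ext (hy.resolve_right hb1) h3
  -- the real bilinear form in new coordinates
  set Lr : ℂ × ℂ →L[ℝ] ℂ × ℂ := L.restrictScalars ℝ with hLr
  have hLra : ∀ y, Lr y = L y := fun y => rfl
  set B' : ℂ × ℂ →L[ℝ] (ℂ × ℂ →L[ℝ] ℝ) := B.bilinearComp Lr Lr with hB'
  have hB'a : ∀ x y, B' x y = B (L x) (L y) := fun x y => rfl
  have hB's : ∀ x y, B' x y = B' y x := fun x y => by rw [hB'a, hB'a, hB]
  obtain ⟨α, β, γ, hP⟩ := quad_decomp hB's
  set P : ℂ × ℂ → ℂ := fun y => α * y.1 ^ 2 + β * (y.1 * y.2) + γ * y.2 ^ 2 with hPdef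
  have hPd : Differentiable ℂ P := by
    simp only [hPdef]
    fun_prop
  have hQ : ∀ y, (P y).re + ‖y.2‖ ^ 2 = 1 / 2 * B (L y) (L y) := by
    intro y
    have h1 := hP y
    have h2 : HH B' y = ‖y.2‖ ^ 2 * 4 := by
      rw [← hHL y]
      simp only [HH, hB'a, map_smul]
    rw [h2, hB'a] at h1
    rw [h1]
    simp only [hPdef]
    ring
  -- choice of scales
  set η₀ : ℝ := (1 / 20) / (‖Lr‖ ^ 2 + 1) with hη₀
  have hη₀pos : 0 < η₀ := by positivity
  obtain ⟨δ₀, hδ₀, hsub, hδ₂⟩ := D2_near hΩ hφ hpΩ hη₀pos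
  obtain ⟨δ₁, hδ₁, hhess⟩ := hess_open hφ hΩ hpΩ b2' hh
  set δ : ℝ := min δ₀ δ₁ / (‖Lr‖ + 1) with hδ
  have hmin : 0 < min δ₀ δ₁ := lt_min hδ₀ hδ₁
  have hδ0 : 0 < δ := by positivity
  obtain ⟨A, hA⟩ := exists_equiv hLinj hδ0.ne'
  have hAn : ∀ y ∈ BB, ‖A y‖ < min δ₀ δ₁ := by
    intro y hy
    rw [hA, norm_smul, Real.norm_eq_abs, abs_of_pos hδ0]
    have h1 : ‖y‖ ≤ 1 := by simpa using hy
    have h2 : ‖L y‖ ≤ ‖Lr‖ := by
      rw [← hLra]
      refine (Lr.le_opNorm y).trans ?_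
      exact mul_le_of_le_one_right (norm_nonneg _) h1
    calc δ * ‖L y‖ ≤ δ * ‖Lr‖ := by gcongr
      _ < δ * (‖Lr‖ + 1) := by
          apply mul_lt_mul_of_pos_left _ hδ0
          linarith
      _ = min δ₀ δ₁ := by rw [hδ]; field_simp
  have hA0 : ∀ y ∈ BB, p + A y ∈ ball p δ₀ := by
    intro y hy
    rw [mem_ball, dist_self_add_left]
    exact (hAn y hy).trans_le (min_le_left _ _)
  set c : ℝ := (δ ^ 2)⁻¹ with hc
  have hcδ : c * δ = δ⁻¹ := by rw [hc]; field_simp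
  have hcδ2 : c * δ ^ 2 = 1 := by rw [hc]; field_simp
  have hc0 : 0 < c := by positivity
  set ε' : ℂ × ℂ → (ℂ × ℂ →L[ℝ] ℝ) := fun x =>
    (c * δ) • (fderiv ℝ φ (p + A x)).comp Lr - (B (L x)).comp Lr with hε
  refine ⟨A, c, P, ε', hc0, hPd, ?_, ?_⟩
  · constructor
    · exact hΩ.preimage (by fun_prop : Continuous fun y : ℂ × ℂ => p + A y)
    · intro y hy
      exact hsub (hA0 y hy)
    · exact maximal_transf hmax A p hc0 hPd
    · apply ContinuousOn.sub
      · apply continuousOn_const.mul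
        apply hφ.continuousOn.comp (by fun_prop)
        intro y hy
        exact hy
      · exact (Complex.continuous_re.comp hPd.continuous).continuousOn
    · norm_num
    · exact le_rfl
    · intro x hx
      have e : (fun y : ℂ × ℂ => c * φ (p + A y) - (P y).re - ‖y.2‖ ^ 2) =
          fun y : ℂ × ℂ => c * φ (p + A y) - 1 / 2 * B (L y) (L y) := by
        funext y
        rw [← hQ]; ring
      simp only [e]
      have hx2 : p + A x ∈ Ω := hsub (hA0 x hx)
      have h1 : HasFDerivAt φ (fderiv ℝ φ (p + A x)) (p + A x) := by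
        have h2 : ContDiffAt ℝ 2 φ (p + A x) := hφ.contDiffAt (hΩ.mem_nhds hx2)
        exact (h2.differentiableAt (by norm_num)).hasFDerivAt
      have h2 : HasFDerivAt (fun y : ℂ × ℂ => p + A y) (δ • Lr) x := by
        have h3 : HasFDerivAt (fun y : ℂ × ℂ => p + (δ • Lr) y) (δ • Lr) x :=
          ((δ • Lr).hasFDerivAt).const_add p
        have h4 : (fun y : ℂ × ℂ => p + A y) = fun y : ℂ × ℂ => p + (δ • Lr) y := by
          funext y
          rw [hA]; rfl
        rw [h4]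
        exact h3
      have h3 : HasFDerivAt (fun y : ℂ × ℂ => φ (p + A y))
          ((fderiv ℝ φ (p + A x)).comp (δ • Lr)) x := h1.comp x h2
      have h4 : HasFDerivAt (fun y : ℂ × ℂ => L y) Lr x := Lr.hasFDerivAt
      have h5 : HasFDerivAt (fun y : ℂ × ℂ => B (L y)) (B.comp Lr) x := by
        exact (B.hasFDerivAt).comp x h4
      have h6 := h5.clm_apply h4
      have h7 := (h3.const_mul c).sub (h6.const_mul (1 / 2 : ℝ))
      refine h7.congr_fderiv ?_
      apply ContinuousLinearMap.ext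
      intro v
      simp only [hε, sub_apply, add_apply, smul_apply, ContinuousLinearMap.comp_apply,
        smul_eq_mul, ContinuousLinearMap.flip_apply, map_smul, hLra]
      rw [hB (L v) (L x)]
      ring
    · intro x hx y hy
      have h1 := hδ₂ _ (hA0 x hx) _ (hA0 y hy)
      have e1 : p + A x - (p + A y) = δ • L (x - y) := by
        rw [← hA, map_sub]; abel
      have e2 : ε' x - ε' y = δ⁻¹ • ((fderiv ℝ φ (p + A x) - fderiv ℝ φ (p + A y) -
          B (p + A x - (p + A y))).comp Lr) := by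
        apply ContinuousLinearMap.ext
        intro v
        simp only [hε, sub_apply, smul_apply, ContinuousLinearMap.comp_apply, smul_eq_mul, hcδ]
        rw [e1, map_smul, map_sub, map_sub]
        simp only [sub_apply, smul_apply, smul_eq_mul]
        field_simp
        ring
      rw [e2, norm_smul, norm_inv, Real.norm_eq_abs, abs_of_pos hδ0]
      have h2 : ‖p + A x - (p + A y)‖ ≤ δ * (‖Lr‖ * ‖x - y‖) := by
        rw [e1, norm_smul, Real.norm_eq_abs, abs_of_pos hδ0]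
        gcongr
        exact Lr.le_opNorm _
      calc δ⁻¹ * ‖(fderiv ℝ φ (p + A x) - fderiv ℝ φ (p + A y) -
          B (p + A x - (p + A y))).comp Lr‖ ≤
          δ⁻¹ * ((η₀ * (δ * (‖Lr‖ * ‖x - y‖))) * ‖Lr‖) := by
            gcongr
            refine (ContinuousLinearMap.opNorm_comp_le _ _).trans ?_
            gcongr
            refine h1.trans ?_
            gcongr
        _ = (η₀ * ‖Lr‖ ^ 2) * ‖x - y‖ := by field_simp
        _ ≤ (1 / 20) * ‖x - y‖ := by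
            gcongr
            rw [hη₀, div_mul_eq_mul_div]
            rw [div_le_iff₀ (by positivity)]
            linarith
  · intro y hy
    apply hhess
    rw [mem_ball, dist_self_add_left]
    exact (hAn y (ball_subset_closedBall hy)).trans_le (min_le_right _ _)

end

end Pool.Agent.H36.MA
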