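import Pool.Agent.H36.MA.Transf

set_option autoImplicit false

open Metric Set Filter Topology Real

noncomputable section

namespace Pool.Agent.H36.MA

/-- `B (ζ b) (ζ b)` along a complex line. -/
lemma quad_line {B : ℂ × ℂ →L[ℝ] (ℂ × ℂ →L[ℝ] ℝ)} (hB : ∀ x y, B x y = B y x) (b : ℂ × ℂ)
    (ζ : ℂ) :
    B (ζ • b) (ζ • b) = 1 / 2 * HH B b * ‖ζ‖ ^ 2 +
      (((1 / 2 * (B b b - B (Complex.I • b) (Complex.I • b)) : ℝ) -
        (B b (Complex.I • b) : ℝ) * Complex.I) * ζ ^ 2).re := by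
  have h1 : ζ • b = ζ.re • b + ζ.im • (Complex.I • b) := by
    conv_lhs => rw [← Complex.re_add_im ζ]
    rw [add_smul, mul_smul]
    rfl
  rw [h1]
  simp only [map_add, map_smul, add_apply, smul_apply, smul_eq_mul]
  rw [hB (Complex.I • b) b, ← Complex.normSq_eq_norm_sq, Complex.normSq_apply]
  simp only [HH, Complex.mul_re, Complex.sub_re, Complex.sub_im, Complex.ofReal_re,
    Complex.ofReal_im, Complex.I_re, Complex.I_im, pow_two, Complex.mul_im]
  ring

lemma quad_avg {B : ℂ × ℂ →L[ℝ] (ℂ × ℂ →L[ℝ] ℝ)} (hB : ∀ x y, B x y = B y x) (b : ℂ × ℂ)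
    (r : ℝ) :
    circleAverage (fun ζ : ℂ => B (ζ • b) (ζ • b)) 0 r = 1 / 2 * HH B b * r ^ 2 := by
  rw [funext (quad_line hB b)]
  set α : ℂ := ((1 / 2 * (B b b - B (Complex.I • b) (Complex.I • b)) : ℝ) -
        (B b (Complex.I • b) : ℝ) * Complex.I) with hα
  have h1 : CircleIntegrable (fun ζ : ℂ => 1 / 2 * HH B b * ‖ζ‖ ^ 2) 0 r := by
    apply ContinuousOn.circleIntegrable'
    fun_prop
  have hd : DifferentiableOn ℂ (fun ζ : ℂ => α * ζ ^ 2) (closedBall 0 |r|) := by fun_prop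
  have h2 : CircleIntegrable (fun ζ : ℂ => (α * ζ ^ 2).re) 0 r := by
    apply ContinuousOn.circleIntegrable'
    exact Complex.continuous_re.comp_continuousOn (hd.continuousOn.mono sphere_subset_closedBall)
  rw [circleAverage_fun_add h1 h2, circleAverage_re hd]
  have h3 : circleAverage (fun ζ : ℂ => 1 / 2 * HH B b * ‖ζ‖ ^ 2) 0 r =
      (1 / 2 * HH B b) * circleAverage (fun ζ : ℂ => ‖ζ‖ ^ 2) 0 r :=
    circleAverage_fun_smul (a := 1 / 2 * HH B b) (f := fun ζ : ℂ => ‖ζ‖ ^ 2)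
  rw [h3, circleAverage_normSq]
  simp

lemma lin_avg (L : ℂ × ℂ →L[ℝ] ℝ) (b : ℂ × ℂ) (r : ℝ) :
    circleAverage (fun ζ : ℂ => L (ζ • b)) 0 r = 0 := by
  have hd : Differentiable ℂ (fun ζ : ℂ => ζ • b) := by fun_prop
  have hc : CircleIntegrable (fun ζ : ℂ => ζ • b) 0 r := by
    apply ContinuousOn.circleIntegrable'
    exact hd.continuous.continuousOn
  have h1 := ContinuousLinearMap.circleAverage_comp_comm L hc
  have h2 : circleAverage (fun ζ : ℂ => ζ • b) 0 r = 0 := by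
    have h3 : DiffContOnCl ℂ (fun ζ : ℂ => ζ • b) (ball 0 |r|) := hd.diffContOnCl
    rw [h3.circleAverage, zero_smul]
  rw [h2, map_zero] at h1
  exact h1

/-- Coordinates: the pluriharmonic part of a real quadratic form on `ℂ²`. -/
lemma quad_decomp {B : ℂ × ℂ →L[ℝ] (ℂ × ℂ →L[ℝ] ℝ)} (hB : ∀ x y, B x y = B y x) :
    ∃ α β γ : ℂ, ∀ y : ℂ × ℂ, 1 / 2 * B y y =
      1 / 4 * HH B y + (α * y.1 ^ 2 + β * (y.1 * y.2) + γ * y.2 ^ 2).re := by
  set e1 : ℂ × ℂ := (1, 0) with he1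
  set f1 : ℂ × ℂ := (Complex.I, 0) with hf1
  set e2 : ℂ × ℂ := (0, 1) with he2
  set f2 : ℂ × ℂ := (0, Complex.I) with hf2
  refine ⟨((1 / 4 * (B e1 e1 - B f1 f1) : ℝ) - (1 / 2 * B e1 f1 : ℝ) * Complex.I),
    ((1 / 2 * (B e1 e2 - B f1 f2) : ℝ) - (1 / 2 * (B f1 e2 + B e1 f2) : ℝ) * Complex.I),
    ((1 / 4 * (B e2 e2 - B f2 f2) : ℝ) - (1 / 2 * B e2 f2 : ℝ) * Complex.I), ?_⟩
  rintro ⟨z, w⟩
  have h1 : ((z, w) : ℂ × ℂ) = z.re • e1 + z.im • f1 + (w.re • e2 + w.im • f2) := by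
    simp only [he1, hf1, he2, hf2, Prod.smul_mk, smul_zero, Prod.mk_add_mk, add_zero, zero_add]
    congr 1
    · simp only [Complex.real_smul, mul_one]
      exact (Complex.re_add_im z).symm
    · simp only [Complex.real_smul, mul_one]
      exact (Complex.re_add_im w).symm
  have h2 : Complex.I • ((z, w) : ℂ × ℂ) = z.re • f1 - z.im • e1 + (w.re • f2 - w.im • e2) := by
    have i1 : Complex.I * z = z.re • Complex.I - z.im • (1 : ℂ) := by
      conv_lhs => rw [← Complex.re_add_im z]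
      simp only [Complex.real_smul, mul_one, mul_add]
      linear_combination (z.im : ℂ) * Complex.I_mul_I
    have i2 : Complex.I * w = w.re • Complex.I - w.im • (1 : ℂ) := by
      conv_lhs => rw [← Complex.re_add_im w]
      simp only [Complex.real_smul, mul_one, mul_add]
      linear_combination (w.im : ℂ) * Complex.I_mul_I
    simp only [he1, hf1, he2, hf2, Prod.smul_mk, smul_zero, Prod.mk_add_mk, Prod.mk_sub_mk,
      add_zero, zero_add, sub_zero, smul_eq_mul, i1, i2]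
  simp only [HH]
  rw [h2, h1]
  simp only [map_add, map_sub, map_smul, add_apply, sub_apply, smul_apply, smul_eq_mul]
  rw [hB f1 e1, hB f2 e2, hB e2 e1, hB f2 e1, hB e2 f1, hB f2 f1]
  simp only [Complex.add_re, Complex.mul_re, Complex.sub_re, Complex.sub_im, Complex.ofReal_re,
    Complex.ofReal_im, Complex.I_re, Complex.I_im, pow_two, Complex.mul_im]
  ring

end Pool.Agent.H36.MA
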