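import Pool.Agent.H36.MA.Glue

set_option autoImplicit false

open Metric Set Filter Topology Real Laplacian InnerProductSpace

noncomputable section

namespace Pool.Agent.H36.MA

/-- Second derivative. -/
abbrev D2 (φ : ℂ × ℂ → ℝ) (p : ℂ × ℂ) : ℂ × ℂ →L[ℝ] (ℂ × ℂ →L[ℝ] ℝ) :=
  fderiv ℝ (fderiv ℝ φ) p

section

variable {Ω : Set (ℂ × ℂ)} {φ : ℂ × ℂ → ℝ} {p : ℂ × ℂ}

lemma D2_symm (hΩ : IsOpen Ω) (hφ : ContDiffOn ℝ 2 φ Ω) (hp : p ∈ Ω) (x y : ℂ × ℂ) :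
    D2 φ p x y = D2 φ p y x := by
  have h1 : ContDiffAt ℝ 2 φ p := hφ.contDiffAt (hΩ.mem_nhds hp)
  have hm : minSmoothness ℝ 2 ≤ 2 := by rw [minSmoothness_of_isRCLikeNormedField]
  have h2 := h1.isSymmSndFDerivAt hm
  exact h2 x y

lemma D2_strict (hΩ : IsOpen Ω) (hφ : ContDiffOn ℝ 2 φ Ω) (hp : p ∈ Ω) :
    HasStrictFDerivAt (fderiv ℝ φ) (D2 φ p) p := by
  have h1 : ContDiffAt ℝ 2 φ p := hφ.contDiffAt (hΩ.mem_nhds hp)
  have h2 : ContDiffAt ℝ 1 (fderiv ℝ φ) p := by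
    apply ContDiffAt.fderiv_right (m := 1) (n := 2) h1
    norm_num
  exact h2.hasStrictFDerivAt one_ne_zero

lemma D2_near (hΩ : IsOpen Ω) (hφ : ContDiffOn ℝ 2 φ Ω) (hp : p ∈ Ω) {η : ℝ} (hη : 0 < η) :
    ∃ δ > 0, ball p δ ⊆ Ω ∧ ∀ x ∈ ball p δ, ∀ y ∈ ball p δ,
      ‖fderiv ℝ φ x - fderiv ℝ φ y - D2 φ p (x - y)‖ ≤ η * ‖x - y‖ := by
  have h1 : ∀ᶠ q : (ℂ × ℂ) × (ℂ × ℂ) in 𝓝 (p, p),
      ‖fderiv ℝ φ q.1 - fderiv ℝ φ q.2 - D2 φ p (q.1 - q.2)‖ ≤ η * ‖q.1 - q.2‖ :=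
    (D2_strict hΩ hφ hp).isLittleO.def hη
  rw [Metric.eventually_nhds_iff_ball] at h1
  obtain ⟨δ₁, hδ₁, h1⟩ := h1
  obtain ⟨δ₂, hδ₂, h2⟩ := Metric.mem_nhds_iff.1 (hΩ.mem_nhds hp)
  refine ⟨min δ₁ δ₂, lt_min hδ₁ hδ₂, fun x hx => ?_, fun x hx y hy => ?_⟩
  · exact h2 (ball_subset_ball (min_le_right _ _) hx)
  · apply h1 (x, y)
    rw [mem_ball, Prod.dist_eq]
    exact max_lt (ball_subset_ball (min_le_left _ _) hx) (ball_subset_ball (min_le_left _ _) hy)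

/-- Uniform second order Taylor expansion. -/
lemma taylor (hφ : ContDiffOn ℝ 2 φ Ω) (hΩ : IsOpen Ω) (hp : p ∈ Ω) {η δ : ℝ} (hη : 0 < η)
    (hsub : ball p δ ⊆ Ω)
    (hδ : ∀ x ∈ ball p δ, ∀ y ∈ ball p δ,
      ‖fderiv ℝ φ x - fderiv ℝ φ y - D2 φ p (x - y)‖ ≤ η * ‖x - y‖)
    {x y : ℂ × ℂ} (hx : x ∈ ball p δ) (hy : y ∈ ball p δ) :
    |φ y - φ x - fderiv ℝ φ x (y - x) - 1 / 2 * D2 φ p (y - x) (y - x)| ≤ η * ‖y - x‖ ^ 2 := by
  have hconv : Convex ℝ (ball p δ) := convex_ball _ _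
  have hseg : segment ℝ x y ⊆ ball p δ := hconv.segment_subset hx hy
  have hder : ∀ z ∈ segment ℝ x y, HasFDerivWithinAt
      (fun z => φ z - 1 / 2 * D2 φ p (z - x) (z - x))
      (fderiv ℝ φ z - D2 φ p (z - x)) (segment ℝ x y) z := by
    intro z hz
    have h1 : HasFDerivAt φ (fderiv ℝ φ z) z := by
      have h2 : ContDiffAt ℝ 2 φ z := hφ.contDiffAt (hΩ.mem_nhds (hsub (hseg hz)))
      exact (h2.differentiableAt (by norm_num)).hasFDerivAt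
    have h2 : HasFDerivAt (fun z : ℂ × ℂ => z - x) (ContinuousLinearMap.id ℝ (ℂ × ℂ)) z :=
      (hasFDerivAt_id z).sub_const x
    have h3 : HasFDerivAt (fun z : ℂ × ℂ => D2 φ p (z - x)) (D2 φ p) z := by
      have h3' : HasFDerivAt (fun z : ℂ × ℂ => D2 φ p (z - x))
          ((D2 φ p).comp (ContinuousLinearMap.id ℝ (ℂ × ℂ))) z :=
        (D2 φ p).hasFDerivAt.comp z h2
      rwa [ContinuousLinearMap.comp_id] at h3'
    have h4 := h3.clm_apply h2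
    have h5 := (h1.sub (h4.const_mul (1 / 2 : ℝ))).hasFDerivWithinAt (s := segment ℝ x y)
    refine h5.congr_fderiv ?_
    ext v <;>
    · simp only [sub_apply, add_apply, smul_apply, ContinuousLinearMap.comp_apply,
        ContinuousLinearMap.id_apply, smul_eq_mul, ContinuousLinearMap.flip_apply]
      rw [D2_symm hΩ hφ hp _ (z - x)]
      ring
  have h := (convex_segment x y).norm_image_sub_le_of_norm_hasFDerivWithin_le'
    (φ := fderiv ℝ φ x) (C := η * ‖y - x‖) hder ?_ (left_mem_segment ℝ x y)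
    (right_mem_segment ℝ x y)
  · rw [Real.norm_eq_abs] at h
    refine le_trans (le_of_eq ?_) (h.trans (le_of_eq (by ring)))
    congr 1
    simp only [sub_self, map_zero, mul_zero, sub_zero]
    ring
  · intro z hz
    have h1 := hδ z (hseg hz) x hx
    have e : fderiv ℝ φ z - D2 φ p (z - x) - fderiv ℝ φ x =
        fderiv ℝ φ z - fderiv ℝ φ x - D2 φ p (z - x) := by abel
    rw [e]
    refine h1.trans ?_
    apply mul_le_mul_of_nonneg_left _ hη.le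
    obtain ⟨a, b, ha, hb, hab, rfl⟩ := hz
    have e : a • x + b • y - x = b • (y - x) := by
      have : a = 1 - b := by linarith
      rw [this]; module
    rw [e, norm_smul, Real.norm_eq_abs, abs_of_nonneg hb]
    have hb1 : b ≤ 1 := by linarith
    exact mul_le_of_le_one_left (norm_nonneg _) hb1

/-- Hermitian part (four times the Levi form). -/
def HH (B : ℂ × ℂ →L[ℝ] (ℂ × ℂ →L[ℝ] ℝ)) (b : ℂ × ℂ) : ℝ :=
  B b b + B (Complex.I • b) (Complex.I • b)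

lemma leviForm_eq (hΩ : IsOpen Ω) (hφ : ContDiffOn ℝ 2 φ Ω) (hp : p ∈ Ω) (b : ℂ × ℂ) :
    leviForm φ p b = HH (D2 φ p) b / 4 := by
  unfold leviForm HH
  congr 1
  rw [laplacian_eq_iteratedFDeriv_complexPlane]
  simp only [iteratedFDeriv_two_apply, Matrix.cons_val_zero, Matrix.cons_val_one]
  set A : ℂ →L[ℝ] ℂ × ℂ := (ContinuousLinearMap.toSpanSingleton ℂ b).restrictScalars ℝ with hA
  have hAv : ∀ ζ : ℂ, A ζ = ζ • b := fun ζ => by simp [hA]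
  have hd : ∀ᶠ ζ in 𝓝 (0 : ℂ), fderiv ℝ (fun ζ : ℂ => φ (p + ζ • b)) ζ =
      (fderiv ℝ φ (p + ζ • b)).comp A := by
    have hc : Continuous fun ζ : ℂ => p + ζ • b := by fun_prop
    have h0 : (fun ζ : ℂ => p + ζ • b) ⁻¹' Ω ∈ 𝓝 (0 : ℂ) := by
      apply hc.continuousAt
      simpa using hΩ.mem_nhds hp
    filter_upwards [h0] with ζ hζ
    have h2 : ContDiffAt ℝ 2 φ (p + ζ • b) := hφ.contDiffAt (hΩ.mem_nhds hζ)
    have h3 : HasFDerivAt φ (fderiv ℝ φ (p + ζ • b)) (p + ζ • b) :=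
      (h2.differentiableAt (by norm_num)).hasFDerivAt
    have h4 : HasFDerivAt (fun ζ : ℂ => p + ζ • b) A ζ := by
      have := (A.hasFDerivAt (x := ζ)).const_add p
      simpa [hAv] using this
    exact (h3.comp ζ h4).fderiv
  have hd2 : fderiv ℝ (fderiv ℝ (fun ζ : ℂ => φ (p + ζ • b))) 0 =
      ((ContinuousLinearMap.compL ℝ ℂ (ℂ × ℂ) ℝ).flip A).comp ((D2 φ p).comp A) := by
    rw [Filter.EventuallyEq.fderiv_eq hd]
    have h5 : HasFDerivAt (fderiv ℝ φ) (D2 φ p) (p + (0 : ℂ) • b) := by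
      simpa using (D2_strict hΩ hφ hp).hasFDerivAt
    have h4 : HasFDerivAt (fun ζ : ℂ => p + ζ • b) A 0 := by
      have := (A.hasFDerivAt (x := (0 : ℂ))).const_add p
      simpa [hAv] using this
    have h6 := h5.comp (0 : ℂ) h4
    have h7 := (((ContinuousLinearMap.compL ℝ ℂ (ℂ × ℂ) ℝ).flip A).hasFDerivAt).comp (0 : ℂ) h6
    exact h7.fderiv
  rw [hd2]
  simp only [ContinuousLinearMap.comp_apply, ContinuousLinearMap.flip_apply,
    ContinuousLinearMap.compL_apply, hAv, one_smul]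

end

end Pool.Agent.H36.MA
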