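import Pool.Agent.H36.MA.Taylor

set_option autoImplicit false

open Metric Set Filter Topology Real

noncomputable section

namespace Pool.Agent.H36.MA

/-- Affine changes of coordinates and addition of pluriharmonic functions preserve
plurisubharmonicity. -/
lemma psh_transf {Ω : Set (ℂ × ℂ)} {φ : ℂ × ℂ → ℝ} (hφ : IsPSH Ω φ)
    (A : (ℂ × ℂ) ≃L[ℂ] (ℂ × ℂ)) (x0 : ℂ × ℂ) {c : ℝ} (hc : 0 < c) {P : ℂ × ℂ → ℂ}
    (hP : Differentiable ℂ P) :
    IsPSH {y | x0 + A y ∈ Ω} (fun y => c * φ (x0 + A y) - (P y).re) := by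
  rw [isPSH_iff]
  have hT : Continuous fun y : ℂ × ℂ => x0 + A y := by fun_prop
  constructor
  · intro x hx y hy
    have h1 : ContinuousAt (fun y => (P y).re) x :=
      (Complex.continuous_re.comp hP.continuous).continuousAt
    simp only at hy
    -- split the gap
    set g : ℝ := (y - (c * φ (x0 + A x) - (P x).re)) / 2 with hg
    have hg0 : 0 < g := by rw [hg]; linarith
    have h2 : ∀ᶠ x' in 𝓝[{y | x0 + A y ∈ Ω}] x, φ (x0 + A x') < φ (x0 + A x) + g / c := by
      have h3 := hφ.1 (x0 + A x) hx (φ (x0 + A x) + g / c) (by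
        have : 0 < g / c := by positivity
        linarith)
      have h4 : Tendsto (fun y : ℂ × ℂ => x0 + A y) (𝓝[{y | x0 + A y ∈ Ω}] x)
          (𝓝[Ω] (x0 + A x)) :=
        hT.continuousAt.continuousWithinAt.tendsto_nhdsWithin (fun y hy => hy)
      exact h4.eventually h3
    have h5 : ∀ᶠ x' in 𝓝[{y | x0 + A y ∈ Ω}] x, (P x).re - g < (P x').re :=
      nhdsWithin_le_nhds (h1.eventually_const_lt (by linarith))
    filter_upwards [h2, h5] with x' h6 h7
    have h8 : c * φ (x0 + A x') < c * (φ (x0 + A x) + g / c) := mul_lt_mul_of_pos_left h6 hc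
    have h9 : c * (φ (x0 + A x) + g / c) = c * φ (x0 + A x) + g := by field_simp
    rw [h9] at h8
    have h10 : y = c * φ (x0 + A x) - (P x).re + 2 * g := by rw [hg]; ring
    show c * φ (x0 + A x') - (P x').re < y
    linarith
  · intro a ha b
    obtain ⟨r₀, hr₀, h⟩ := hφ.2 (x0 + A a) ha (A b)
    refine ⟨r₀, hr₀, fun r hr hr2 => ?_⟩
    obtain ⟨h1, h2⟩ := h r hr hr2
    have e : ∀ ζ : ℂ, x0 + A (a + ζ • b) = x0 + A a + ζ • A b := by
      intro ζ
      rw [map_add, map_smul]; abel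
    simp only [e]
    have h3 : CircleIntegrable (fun ζ : ℂ => c * φ (x0 + A a + ζ • A b)) 0 r := by
      have := h1.const_smul (a := c)
      exact this
    have hPd : Differentiable ℂ fun ζ : ℂ => P (a + ζ • b) := by
      apply hP.comp
      fun_prop
    have h4 : CircleIntegrable (fun ζ : ℂ => (P (a + ζ • b)).re) 0 r := by
      apply ContinuousOn.circleIntegrable'
      exact (Complex.continuous_re.comp hPd.continuous).continuousOn
    refine ⟨h3.sub h4, ?_⟩
    have h5 : circleAverage (fun ζ : ℂ => (P (a + ζ • b)).re) 0 r = (P a).re := by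
      have := circleAverage_re (c := 0) (R := r) hPd.differentiableOn
      simpa using this
    have h6 : circleAverage (fun ζ : ℂ => c * φ (x0 + A a + ζ • A b)) 0 r =
        c * circleAverage (fun ζ : ℂ => φ (x0 + A a + ζ • A b)) 0 r :=
      circleAverage_fun_smul (a := c) (f := fun ζ : ℂ => φ (x0 + A a + ζ • A b))
    rw [circleAverage_fun_sub h3 h4, h5, h6]
    have h7 := mul_le_mul_of_nonneg_left h2 hc.le
    linarith

/-- Affine changes of coordinates and addition of pluriharmonic functions preserve maximality. -/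
lemma maximal_transf {Ω : Set (ℂ × ℂ)} {φ : ℂ × ℂ → ℝ} (hφ : IsMaximalPSH Ω φ)
    (A : (ℂ × ℂ) ≃L[ℂ] (ℂ × ℂ)) (x0 : ℂ × ℂ) {c : ℝ} (hc : 0 < c) {P : ℂ × ℂ → ℂ}
    (hP : Differentiable ℂ P) :
    IsMaximalPSH {y | x0 + A y ∈ Ω} (fun y => c * φ (x0 + A y) - (P y).re) := by
  refine ⟨psh_transf hφ.1 A x0 hc hP, ?_⟩
  rintro v hv ⟨K, hK, hKΩ, hKv⟩ x hx
  set T : ℂ × ℂ → ℂ × ℂ := fun y => x0 + A y with hT
  set S : ℂ × ℂ → ℂ × ℂ := fun y => -(A.symm x0) + A.symm y with hS
  have hTS : ∀ y, T (S y) = y := by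
    intro y
    simp only [hT, hS, map_add, map_neg, ContinuousLinearEquiv.apply_symm_apply]
    abel
  have hST : ∀ y, S (T y) = y := by
    intro y
    simp only [hT, hS, map_add, ContinuousLinearEquiv.symm_apply_apply]
    abel
  have hSd : Differentiable ℂ S := by
    simp only [hS]
    fun_prop
  have hc' : 0 < c⁻¹ := inv_pos.2 hc
  have hPd : Differentiable ℂ fun y => -((c⁻¹ : ℝ) : ℂ) * P (S y) :=
    (hP.comp hSd).const_mul _
  have h1 := psh_transf hv A.symm (-(A.symm x0)) hc' hPd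
  have e1 : {y | -(A.symm x0) + A.symm y ∈ {y | x0 + A y ∈ Ω}} = Ω := by
    ext y
    have := hTS y
    simp only [hT, hS] at this
    simp only [Set.mem_ofPred_eq, this]
  rw [e1] at h1
  have h2 : ∀ y, (c⁻¹ * v (S y) - (-((c⁻¹ : ℝ) : ℂ) * P (S y)).re) =
      c⁻¹ * (v (S y) + (P (S y)).re) := by
    intro y
    have : (-((c⁻¹ : ℝ) : ℂ) * P (S y)).re = - (c⁻¹ * (P (S y)).re) := by
      rw [neg_mul, Complex.neg_re, Complex.re_ofReal_mul]
    rw [this]; ring
  have h3 := hφ.2 (fun y => c⁻¹ * v (S y) - (-((c⁻¹ : ℝ) : ℂ) * P (S y)).re) h1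
    ⟨T '' K, hK.image (by simp only [hT]; fun_prop), ?_, ?_⟩ (T x) hx
  · rw [h2, hST] at h3
    have h4 := mul_le_mul_of_nonneg_left h3 hc.le
    rw [← mul_assoc, mul_inv_cancel₀ hc.ne', one_mul] at h4
    show v x ≤ c * φ (T x) - (P x).re
    linarith
  · rintro _ ⟨y, hy, rfl⟩
    exact hKΩ hy
  · intro y hy
    show c⁻¹ * v (S y) - (-((c⁻¹ : ℝ) : ℂ) * P (S y)).re ≤ φ y
    rw [h2]
    have h4 : S y ∈ {y | x0 + A y ∈ Ω} \ K := by
      constructor
      · show T (S y) ∈ Ω
        rw [hTS]; exact hy.1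
      · intro h
        exact hy.2 ⟨S y, h, hTS y⟩
    have h5 := hKv (S y) h4
    have h6 : v (S y) + (P (S y)).re ≤ c * φ y := by
      have h7 : x0 + A (S y) = y := hTS y
      simp only [h7] at h5
      linarith
    calc c⁻¹ * (v (S y) + (P (S y)).re) ≤ c⁻¹ * (c * φ y) := by gcongr
      _ = φ y := by rw [← mul_assoc, inv_mul_cancel₀ hc.ne', one_mul]

end Pool.Agent.H36.MA
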